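import Pool.Agent.Lib.MP_258d0c_pr.Lim.Defs

/-! The add-one cost as a combination of four half-space terms. -/

open MeasureTheory ProbabilityTheory Filter Topology
open scoped ENNReal Classical InnerProductSpace

namespace Pool.Agent.Lib.MP_258d0c_pr.Lim

theorem count_expand {ι : Type} [Fintype ι] [DecidableEq ι] (k : ℕ) (S : Finset ι)
    (g : Finset ι → ℝ) :
    ∑ σ : Fin k → ι, (if Function.Injective σ ∧ ∀ a, σ a ∈ S then g (Finset.univ.image σ) else 0) =
      (k.factorial : ℝ) * ∑ I ∈ S.powersetCard k, g I := by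
  rw [← Finset.sum_filter, Finset.mul_sum,
    ← Finset.sum_fiberwise_of_maps_to (t := S.powersetCard k) (g := fun σ => Finset.univ.image σ)]
  · refine Finset.sum_congr rfl fun I hI => ?_
    obtain ⟨hS, hc⟩ := Finset.mem_powersetCard.1 hI
    rw [Finset.sum_congr rfl (g := fun _ => g I) fun σ hσ => by rw [(Finset.mem_filter.1 hσ).2],
      Finset.sum_const, nsmul_eq_mul]
    congr 2
    have e : (Finset.univ : Finset (Fin k ↪ I)).card = k.factorial := by
      rw [Finset.card_univ, Fintype.card_embedding_eq, Fintype.card_coe, Fintype.card_fin, hc,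
        Nat.descFactorial_self]
    rw [← e]
    symm
    refine Finset.card_bij (fun e _ => fun a => (e a : ι)) (fun e _ => ?_) (fun e _ e' _ h => ?_)
      fun σ hσ => ?_
    · have hi : Function.Injective fun a => (e a : ι) := Subtype.val_injective.comp e.injective
      simp only [Finset.mem_filter, Finset.mem_univ, true_and]
      refine ⟨⟨hi, fun a => hS (e a).2⟩, Finset.eq_of_subset_of_card_le ?_ ?_⟩
      · intro j hj
        obtain ⟨a, -, rfl⟩ := Finset.mem_image.1 hj
        exact (e a).2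
      · rw [Finset.card_image_of_injective _ hi, Finset.card_univ, Fintype.card_fin, hc]
    · exact Function.Embedding.ext fun a => Subtype.ext (congrFun h a)
    · simp only [Finset.mem_filter, Finset.mem_univ, true_and] at hσ
      obtain ⟨⟨hi, -⟩, rfl⟩ := hσ
      exact ⟨⟨fun a => ⟨σ a, Finset.mem_image_of_mem _ (Finset.mem_univ a)⟩,
        fun a a' h => hi (congrArg Subtype.val h)⟩, Finset.mem_univ _, rfl⟩
  · intro σ hσ
    obtain ⟨hi, hS⟩ := (Finset.mem_filter.1 hσ).2
    refine Finset.mem_powersetCard.2 ⟨fun j hj => ?_, ?_⟩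
    · obtain ⟨a, -, rfl⟩ := Finset.mem_image.1 hj
      exact hS a
    · rw [Finset.card_image_of_injective _ hi, Finset.card_univ, Fintype.card_fin]

variable {E : Type} [NormedAddCommGroup E] [NormedSpace ℝ E] [FiniteDimensional ℝ E]

theorem phi_expand {n : ℕ} (hn : Module.finrank ℝ E = n + 1) :
    ∃ φ : (Fin (n + 1) → E) → E → ℝ, Continuous (fun q : (Fin (n + 1) → E) × E => φ q.1 q.2) ∧
      (∀ y, ∃ (l : E →L[ℝ] ℝ) (c : ℝ), (∀ w, φ y w = l w - c) ∧ ∀ i, l (y i) = c) ∧
      ∀ y, LinearIndependent ℝ (fun i => ((1 : ℝ), y i)) → ∀ (l : E →L[ℝ] ℝ) (c : ℝ),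
        (∀ i, l (y i) = c) → ∃ t : ℝ, ∀ w, l w - c = t * φ y w := by
  have hF : Module.finrank ℝ (ℝ × E) = n + 2 := by
    rw [Module.finrank_prod, Module.finrank_self, hn]; ring
  let b := Module.finBasisOfFinrankEq ℝ (ℝ × E) hF
  have hG : ∀ v : Fin (n + 1) → ℝ × E, ∃ G : (ℝ × E) →ₗ[ℝ] ℝ,
      (∀ z, G z = b.det (Fin.cons z v)) ∧ ∀ i, G (v i) = 0 := fun v => by
    have e : ∀ z, b.det.toMultilinearMap.toLinearMap (Fin.cons 0 v) 0 z = b.det (Fin.cons z v) :=
      fun z => by simp [Fin.update_cons_zero]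
    refine ⟨_, e, fun i => ?_⟩
    rw [e]
    exact b.det.map_eq_zero_of_eq _ (i := 0) (j := i.succ) (by simp) (Fin.succ_ne_zero i).symm
  refine ⟨fun y w => b.det (Fin.cons ((1 : ℝ), w) fun i => ((1 : ℝ), y i)), ?_, fun y => ?_,
    fun y hy l c hl => ?_⟩
  · simp only [Module.Basis.det_apply]
    refine Continuous.matrix_det (b.continuous_toMatrix.comp (Continuous.finCons ?_ ?_)) <;>
      fun_prop
  · obtain ⟨G, h1, h2⟩ := hG fun i => ((1 : ℝ), y i)
    have e : ∀ w : E, G (1, w) = G (0, w) + G (1, 0) := fun w => by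
      rw [← map_add]; simp
    refine ⟨LinearMap.toContinuousLinearMap (G.comp (LinearMap.inr ℝ ℝ E)), -G (1, 0),
      fun w => ?_, fun i => ?_⟩
    · beta_reduce
      rw [← h1, e]
      simp
    · have := h2 i
      rw [e] at this
      simpa [eq_neg_iff_add_eq_zero] using this
  · obtain ⟨G, h1, h2⟩ := hG fun i => ((1 : ℝ), y i)
    obtain ⟨z, hz⟩ := exists_linearIndependent_cons_of_lt_finrank hy (by omega)
    have hs := hz.span_eq_top_of_card_eq_finrank' (by rw [Fintype.card_fin, hF])
    have hu : G z ≠ 0 := by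
      rw [h1]
      exact (b.is_basis_iff_det.1 ⟨hz, hs⟩).ne_zero
    let L : (ℝ × E) →ₗ[ℝ] ℝ := (l : E →ₗ[ℝ] ℝ).comp (LinearMap.snd ℝ ℝ E) - c • LinearMap.fst ℝ ℝ E
    have hL : ∀ w : E, L (1, w) = l w - c := fun w => by simp [L]
    have key : L = (L z / G z) • G := by
      refine LinearMap.ext_on_range hs fun i => ?_
      refine Fin.cases ?_ (fun i => ?_) i
      · simp only [Fin.cons_zero, LinearMap.smul_apply, smul_eq_mul]
        field_simp
      · simp only [Fin.cons_succ, LinearMap.smul_apply, smul_eq_mul]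
        rw [hL, hl, h2]
        ring
    refine ⟨L z / G z, fun w => ?_⟩
    beta_reduce
    rw [← hL, ← h1]
    conv_lhs => rw [key]
    rfl

variable [MeasurableSpace E] [BorelSpace E]

theorem indep_expand (μ : Measure E) [IsProbabilityMeasure μ]
    (hμ : ∀ s : AffineSubspace ℝ E, s ≠ ⊤ → μ s = 0) {ι : Type} [Fintype ι] [DecidableEq ι]
    (p : ι) (x : E) :
    ∀ᵐ U ∂(iid ι μ), ∀ I : Finset ι, p ∉ I ∧ I.card ≤ Module.finrank ℝ E →
      LinearIndepOn ℝ (fun i => ((1 : ℝ), Function.update U p x i)) (insert p (I : Set ι)) := by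
  have := FiniteDimensional.proper_real E
  have hN : ∀ W : Submodule ℝ (ℝ × E), W ≠ ⊤ → ∀ᵐ w ∂μ, ((1 : ℝ), w) ∉ W := fun W hW => by
    let s : AffineSubspace ℝ E :=
      ⟨{w | ((1 : ℝ), w) ∈ W}, fun c p1 p2 p3 h1 h2 h3 => by
        simpa using W.add_mem (W.smul_mem c (W.sub_mem h1 h2)) h3⟩
    have h0 := hμ s fun h => hW (Submodule.eq_top_iff'.2 fun z => by
      have a : ∀ w : E, ((1 : ℝ), w) ∈ W := fun w => by
        have : w ∈ s := h ▸ AffineSubspace.mem_top ℝ E w
        exact this
      simpa using W.add_mem (W.smul_mem z.1 (a 0)) (W.sub_mem (a z.2) (a 0)))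
    exact measure_eq_zero_iff_ae_notMem.1 h0
  rw [ae_all_iff]
  intro I
  rw [Filter.eventually_imp_distrib_left]
  induction I using Finset.induction_on with
  | empty =>
    refine fun _ => Filter.Eventually.of_forall fun U => ?_
    rw [Finset.coe_empty, insert_empty_eq]
    exact LinearIndepOn.singleton (by simp)
  | insert q s hq ih =>
    rintro ⟨hp, hc⟩
    rw [Finset.card_insert_of_notMem hq] at hc
    rw [Finset.mem_insert, not_or] at hp
    have hm : MeasurableSet {U : ι → E | LinearIndepOn ℝ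
        (fun i => ((1 : ℝ), Function.update U p x i)) (insert p ((insert q s : Finset ι) : Set ι))} :=
      (isOpen_setOfPred_linearIndependent.preimage (show Continuous
        fun (U : ι → E) (i : (insert p ((insert q s : Finset ι) : Set ι) : Set ι)) =>
          ((1 : ℝ), Function.update U p x i) by fun_prop)).measurableSet
    have hu := measurePreserving_update μ q
    rw [← hu.map_eq, ae_map_iff hu.measurable.aemeasurable hm]
    refine (Measure.ae_prod_iff_ae_ae (hu.measurable hm)).2 ?_
    filter_upwards [ih ⟨hp.2, by omega⟩] with U hU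
    have hW : Submodule.span ℝ ((fun i => ((1 : ℝ), Function.update U p x i)) ''
        (insert p (s : Set ι))) ≠ ⊤ := by
      intro h
      rw [← Finset.coe_insert, ← Finset.coe_image] at h
      have h2 := finrank_span_finset_le_card (R := ℝ)
        ((insert p s).image fun i => ((1 : ℝ), Function.update U p x i))
      rw [Set.finrank, h, finrank_top, Module.finrank_prod, Module.finrank_self] at h2
      have h3 := h2.trans Finset.card_image_le
      rw [Finset.card_insert_of_notMem hp.2] at h3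
      omega
    filter_upwards [hN _ hW] with w hw
    have e : ∀ i ∈ insert p (s : Set ι), ((1 : ℝ), Function.update U p x i) =
        ((1 : ℝ), Function.update (Function.update U q w) p x i) := fun i hi => by
      have hi' : i ≠ q := by
        rintro rfl
        rcases hi with h | h
        exacts [hp.1 h.symm, hq h]
      rw [Function.update_comm (Ne.symm hp.1), Function.update_of_ne hi']
    show LinearIndepOn ℝ (fun i => ((1 : ℝ), Function.update (Function.update U q w) p x i)) _
    rw [Finset.coe_insert, Set.insert_comm]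
    refine (hU.congr e).insert ?_
    rw [← Set.image_congr e, Function.update_of_ne (Ne.symm hp.1), Function.update_self]
    exact hw

omit [FiniteDimensional ℝ E] [MeasurableSpace E] [BorelSpace E] in
theorem fac_expand {n : ℕ} {φ : (Fin n → E) → E → ℝ}
    (ha : ∀ y, ∃ (l : E →L[ℝ] ℝ) (c : ℝ), (∀ w, φ y w = l w - c) ∧ ∀ i, l (y i) = c)
    (hb : ∀ y, LinearIndependent ℝ (fun i => ((1 : ℝ), y i)) → ∀ (l : E →L[ℝ] ℝ) (c : ℝ),
      (∀ i, l (y i) = c) → ∃ t : ℝ, ∀ w, l w - c = t * φ y w)
    {ι : Type} [DecidableEq ι] (V : ι → E) (W : Finset ι) (τ : Fin n → ι)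
    (hi : LinearIndependent ℝ fun i => ((1 : ℝ), V (τ i))) :
    Fac V W (Finset.univ.image τ) ↔
      (∀ j ∈ W, (∀ a, τ a ≠ j) → φ (fun a => V (τ a)) (V j) < 0) ∨
      ∀ j ∈ W, (∀ a, τ a ≠ j) → 0 < φ (fun a => V (τ a)) (V j) := by
  have hm : ∀ j, j ∉ Finset.univ.image τ ↔ ∀ a, τ a ≠ j := fun j => by simp
  constructor
  · rintro ⟨l, c, h1, h2⟩
    obtain ⟨t, ht⟩ := hb _ hi l c fun i => h1 _ (Finset.mem_image_of_mem _ (Finset.mem_univ i))
    have k : ∀ j ∈ W, (∀ a, τ a ≠ j) → t * φ (fun a => V (τ a)) (V j) < 0 := fun j hj h => by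
      rw [← ht]
      exact sub_neg.2 (h2 j hj ((hm j).2 h))
    rcases le_total 0 t with h | h
    · exact Or.inl fun j hj h' => by
        by_contra hc
        exact (k j hj h').not_ge (mul_nonneg h (not_lt.1 hc))
    · exact Or.inr fun j hj h' => by
        by_contra hc
        exact (k j hj h').not_ge (mul_nonneg_of_nonpos_of_nonpos h (not_lt.1 hc))
  · obtain ⟨l, c, h1, h2⟩ := ha fun a => V (τ a)
    rintro (h | h)
    · refine ⟨l, c, fun i hi => ?_, fun j hj k => ?_⟩
      · obtain ⟨a, -, rfl⟩ := Finset.mem_image.1 hi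
        exact h2 a
      · have := h j hj ((hm j).1 k)
        rw [h1] at this
        linarith
    · refine ⟨-l, -c, fun i hi => ?_, fun j hj k => ?_⟩
      · obtain ⟨a, -, rfl⟩ := Finset.mem_image.1 hi
        rw [neg_apply, h2 a]
      · have := h j hj ((hm j).1 k)
        rw [h1] at this
        rw [neg_apply]
        linarith

theorem expand (h1 : 1 ≤ Module.finrank ℝ E) (x : E) :
    ∃ (T : Fin 4 → HT E x) (ε : Fin 4 → ℝ), ∀ (μ : Measure E) [IsProbabilityMeasure μ],
      (∀ s : AffineSubspace ℝ E, s ≠ ⊤ → μ s = 0) →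
      ∀ (ι : Type) [Fintype ι] [DecidableEq ι] (S : Finset ι) (p : ι), p ∉ S →
        Module.finrank ℝ E < S.card →
        ∀ᵐ U ∂(iid ι μ), dif (Module.finrank ℝ E) (Function.update U p x) S p =
          ∑ t, ε t * tm (T t) U S := by
  have := FiniteDimensional.proper_real E
  obtain ⟨n, hn⟩ : ∃ n, Module.finrank ℝ E = n + 1 := ⟨_, (Nat.sub_add_cancel h1).symm⟩
  obtain ⟨φ, hc, ha, hb⟩ := phi_expand hn
  have c1 : Continuous fun q : (Fin n → E) × E => φ (Fin.cons x q.1) q.2 :=
    hc.comp ((Continuous.finCons continuous_const continuous_fst).prodMk continuous_snd)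
  have c2 : Continuous fun y : Fin (n + 1) → E => φ y x :=
    hc.comp (continuous_id.prodMk continuous_const)
  let A : ℝ → HT E x := fun s =>
    { k := n
      c := Set.univ
      H := {q | 0 ≤ s * φ (Fin.cons x q.1) q.2}
      mc := MeasurableSet.univ
      mH := measurableSet_le measurable_const (continuous_const.mul c1).measurable
      half := fun y _ => by
        obtain ⟨l, c, k1, k2⟩ := ha (Fin.cons x y)
        refine ⟨s • l, s * c, ?_, fun a => ?_, fun w hw => ?_⟩
        · rw [← k2 0]; simp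
        · rw [← k2 a.succ]; simp
        · show 0 ≤ s * φ (Fin.cons x y) w
          rw [k1, mul_sub]
          exact sub_nonneg.2 hw }
  let B : ℝ → HT E x := fun s =>
    { k := n + 1
      c := {y | 0 ≤ s * φ y x}
      H := {q | 0 ≤ s * φ q.1 q.2}
      mc := measurableSet_le measurable_const (continuous_const.mul c2).measurable
      mH := measurableSet_le measurable_const (continuous_const.mul hc).measurable
      half := fun y hy => by
        obtain ⟨l, c, k1, k2⟩ := ha y
        refine ⟨s • l, s * c, ?_, fun a => ?_, fun w hw => ?_⟩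
        · have hy' : 0 ≤ s * φ y x := hy
          rw [k1, mul_sub] at hy'
          exact sub_nonneg.1 hy'
        · rw [← k2 a]; simp
        · show 0 ≤ s * φ y w
          rw [k1, mul_sub]
          exact sub_nonneg.2 hw }
  refine ⟨![A 1, A (-1), B 1, B (-1)], ![1 / (n.factorial : ℝ), 1 / (n.factorial : ℝ),
    -(1 / ((n + 1).factorial : ℝ)), -(1 / ((n + 1).factorial : ℝ))], ?_⟩
  intro μ _ hμ ι _ _ S p hp hS
  filter_upwards [indep_expand μ hμ p x] with U hU
  set V := Function.update U p x with hV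
  have hVS : ∀ j ∈ S, V j = U j := fun j hj =>
    Function.update_of_ne (fun h : j = p => hp (h ▸ hj)) _ _
  have hVp : V p = x := Function.update_self _ _ _
  have ex : ∀ {k : ℕ} (σ : Fin k → ι), k ≤ n + 1 → ∃ j ∈ S, ∀ a, σ a ≠ j := fun σ hk => by
    obtain ⟨j, hj, hj'⟩ := Finset.exists_mem_notMem_of_card_lt_card
      (s := Finset.univ.image σ) (t := S) (Finset.card_image_le.trans_lt (by
        rw [Finset.card_univ, Fintype.card_fin]; omega))
    exact ⟨j, hj, by simpa using hj'⟩
  have hI : ∀ {k : ℕ} (σ : Fin k → ι), k ≤ n + 1 → (∀ a, σ a ∈ S) → ∀ τ : Fin (n + 1) → ι,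
      Function.Injective τ → (∀ a, τ a ∈ insert p ((Finset.univ.image σ : Finset ι) : Set ι)) →
      LinearIndependent ℝ fun a => ((1 : ℝ), V (τ a)) := fun σ hk hσ τ hτ h =>
    (hU (Finset.univ.image σ) ⟨fun h' => by
      obtain ⟨a, -, e⟩ := Finset.mem_image.1 h'
      exact hp (e ▸ hσ a), Finset.card_image_le.trans (by
        rw [Finset.card_univ, Fintype.card_fin]; omega)⟩).comp
      (fun a => ⟨τ a, h a⟩) fun a a' e => hτ (congrArg Subtype.val e)
  have eA : tm (A 1) U S + tm (A (-1)) U S = (n.factorial : ℝ) *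
      ∑ J ∈ S.powersetCard n, if Fac V (insert p S) (insert p J) then (1 : ℝ) else 0 := by
    rw [← count_expand, tm, tm, ← Finset.sum_add_distrib]
    refine Finset.sum_congr rfl fun (σ : Fin n → ι) _ => ?_
    by_cases hg : Function.Injective σ ∧ ∀ a, σ a ∈ S
    · obtain ⟨j0, hj0, hj0'⟩ := ex σ n.le_succ
      have hτ : Function.Injective (Fin.cons p σ : Fin (n + 1) → ι) :=
        Fin.cons_injective_iff.2 ⟨by rintro ⟨a, e⟩; exact hp (e ▸ hg.2 a), hg.1⟩
      have e1 : Finset.univ.image (Fin.cons p σ : Fin (n + 1) → ι) =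
          insert p (Finset.univ.image σ) := by
        ext j
        simp [Fin.exists_fin_succ, eq_comm]
      have e2 : (fun a => V ((Fin.cons p σ : Fin (n + 1) → ι) a)) =
          Fin.cons x fun a => U (σ a) := by
        funext a
        refine Fin.cases ?_ (fun a => ?_) a
        · simpa using hVp
        · simpa using hVS _ (hg.2 a)
      have key := fac_expand ha hb V (insert p S) (Fin.cons p σ)
        (hI σ n.le_succ hg.2 _ hτ fun a => by
          rw [← Finset.coe_insert, ← e1]
          exact Finset.mem_image_of_mem _ (Finset.mem_univ a))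
      rw [e1, e2] at key
      have e3 : ∀ P : E → Prop, (∀ j ∈ insert p S,
          (∀ a, (Fin.cons p σ : Fin (n + 1) → ι) a ≠ j) → P (V j)) ↔
          ∀ j ∈ S, (∀ a, σ a ≠ j) → P (U j) := fun P => by
        constructor
        · intro h j hj h'
          rw [← hVS j hj]
          refine h j (Finset.mem_insert_of_mem hj) fun a => Fin.cases ?_ (fun a => ?_) a
          · exact fun e => hp (by simpa [← e] using hj)
          · simpa using h' a
        · intro h j hj h'
          rcases Finset.mem_insert.1 hj with rfl | hj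
          · exact absurd rfl (h' 0)
          · rw [hVS j hj]
            exact h j hj fun a => h' a.succ
      rw [e3 fun w => φ (Fin.cons x fun a => U (σ a)) w < 0,
        e3 fun w => 0 < φ (Fin.cons x fun a => U (σ a)) w] at key
      simp only [A, hg.1, hg.2, key, Set.mem_univ, Set.mem_ofPred_eq, true_and, implies_true,
        one_mul, neg_mul, not_le, neg_lt_zero, if_true, and_self]
      by_cases a1 : ∀ j ∈ S, (∀ a, σ a ≠ j) → φ (Fin.cons x fun a => U (σ a)) (U j) < 0
      · have a2 : ¬ ∀ j ∈ S, (∀ a, σ a ≠ j) → 0 < φ (Fin.cons x fun a => U (σ a)) (U j) :=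
          fun a2 => (a1 j0 hj0 hj0').not_gt (a2 j0 hj0 hj0')
        rw [if_pos a1, if_neg a2, if_pos (Or.inl a1), add_zero]
      · rw [if_neg a1, zero_add]
        simp only [a1, false_or]
    · rw [if_neg hg, if_neg fun h => hg ⟨h.1, h.2.1⟩, if_neg fun h => hg ⟨h.1, h.2.1⟩, add_zero]
  have eB : tm (B 1) U S + tm (B (-1)) U S = ((n + 1).factorial : ℝ) *
      ∑ I ∈ S.powersetCard (n + 1), ((if Fac V S I then (1 : ℝ) else 0) -
        if Fac V (insert p S) I then (1 : ℝ) else 0) := by
    rw [← count_expand, tm, tm, ← Finset.sum_add_distrib]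
    refine Finset.sum_congr rfl fun (σ : Fin (n + 1) → ι) _ => ?_
    by_cases hg : Function.Injective σ ∧ ∀ a, σ a ∈ S
    · obtain ⟨j0, hj0, hj0'⟩ := ex σ le_rfl
      have e2 : (fun a => V (σ a)) = fun a => U (σ a) := funext fun a => hVS _ (hg.2 a)
      have li := hI σ le_rfl hg.2 σ hg.1 fun a =>
        Set.mem_insert_of_mem _ (Finset.mem_image_of_mem _ (Finset.mem_univ a))
      have k1 := fac_expand ha hb V S σ li
      have k2 := fac_expand ha hb V (insert p S) σ li
      rw [e2] at k1 k2
      have e3 : ∀ P : E → Prop, (∀ j ∈ S, (∀ a, σ a ≠ j) → P (V j)) ↔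
          ∀ j ∈ S, (∀ a, σ a ≠ j) → P (U j) := fun P =>
        forall₂_congr fun j hj => by rw [hVS j hj]
      have e4 : ∀ P : E → Prop, (∀ j ∈ insert p S, (∀ a, σ a ≠ j) → P (V j)) ↔
          P x ∧ ∀ j ∈ S, (∀ a, σ a ≠ j) → P (U j) := fun P => by
        rw [Finset.forall_mem_insert, e3, hVp]
        exact and_congr_left' ⟨fun h => h fun a e => hp (e ▸ hg.2 a), fun h _ => h⟩
      rw [e3 fun w => φ (fun a => U (σ a)) w < 0, e3 fun w => 0 < φ (fun a => U (σ a)) w] at k1
      rw [e4 fun w => φ (fun a => U (σ a)) w < 0, e4 fun w => 0 < φ (fun a => U (σ a)) w] at k2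
      simp only [B, hg.1, hg.2, k1, k2, Set.mem_ofPred_eq, true_and, implies_true,
        one_mul, neg_mul, not_le, if_true, and_self, neg_nonneg]
      by_cases a1 : ∀ j ∈ S, (∀ a, σ a ≠ j) → φ (fun a => U (σ a)) (U j) < 0
      · have a2 : ¬ ∀ j ∈ S, (∀ a, σ a ≠ j) → 0 < φ (fun a => U (σ a)) (U j) :=
          fun a2 => (a1 j0 hj0 hj0').not_gt (a2 j0 hj0 hj0')
        simp only [eq_true a1, eq_false a2, and_true, and_false, or_false, if_true, if_false,
          add_zero]
        by_cases a3 : φ (fun a => U (σ a)) x < 0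
        · rw [if_neg a3.not_ge, if_pos a3, sub_self]
        · rw [if_pos (not_lt.1 a3), if_neg a3, sub_zero]
      · by_cases a2 : ∀ j ∈ S, (∀ a, σ a ≠ j) → 0 < φ (fun a => U (σ a)) (U j)
        · simp only [eq_false a1, eq_true a2, and_true, and_false, false_or, if_true, if_false,
            zero_add]
          by_cases a3 : 0 < φ (fun a => U (σ a)) x
          · rw [if_neg a3.not_ge, if_pos a3, sub_self]
          · rw [if_pos (not_lt.1 a3), if_neg a3, sub_zero]
        · simp only [eq_false a1, eq_false a2, and_false, false_or, if_false, add_zero, sub_self]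
    · rw [if_neg hg, if_neg fun h => hg ⟨h.1, h.2.1⟩, if_neg fun h => hg ⟨h.1, h.2.1⟩, add_zero]
  have eC : (cnt (n + 1) V (insert p S) : ℝ) =
      (∑ I ∈ S.powersetCard (n + 1), if Fac V (insert p S) I then (1 : ℝ) else 0) +
      ∑ J ∈ S.powersetCard n, if Fac V (insert p S) (insert p J) then (1 : ℝ) else 0 := by
    rw [cnt, ← Finset.sum_boole, Finset.powersetCard_succ_insert hp, Finset.sum_union,
      Finset.sum_image]
    · intro I hI J hJ e
      have hI' : p ∉ I := fun h => hp ((Finset.mem_powersetCard.1 hI).1 h)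
      have hJ' : p ∉ J := fun h => hp ((Finset.mem_powersetCard.1 hJ).1 h)
      rw [← Finset.erase_insert hI', ← Finset.erase_insert hJ', e]
    · refine Finset.disjoint_left.2 fun I hI hJ => ?_
      obtain ⟨J, -, rfl⟩ := Finset.mem_image.1 hJ
      exact hp ((Finset.mem_powersetCard.1 hI).1 (Finset.mem_insert_self p J))
  have eD : (cnt (n + 1) V S : ℝ) =
      ∑ I ∈ S.powersetCard (n + 1), if Fac V S I then (1 : ℝ) else 0 := by
    rw [cnt, Finset.sum_boole]
  have f1 : (n.factorial : ℝ) ≠ 0 := Nat.cast_ne_zero.2 n.factorial_ne_zero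
  have f2 : ((n + 1).factorial : ℝ) ≠ 0 := Nat.cast_ne_zero.2 (n + 1).factorial_ne_zero
  rw [Fin.sum_univ_four, dif, hn, eC, eD]
  show _ = 1 / (n.factorial : ℝ) * tm (A 1) U S + 1 / (n.factorial : ℝ) * tm (A (-1)) U S +
    -(1 / ((n + 1).factorial : ℝ)) * tm (B 1) U S + -(1 / ((n + 1).factorial : ℝ)) * tm (B (-1)) U S
  rw [← mul_add, add_assoc, ← mul_add, eA, eB, Finset.sum_sub_distrib]
  field_simp
  ring

end Pool.Agent.Lib.MP_258d0c_pr.Lim
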