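import Pool.Agent.Lib.MP_258d0c_pr.Lim.Slot
import Pool.Agent.Lib.MP_258d0c_pr.Lim.Expand

/-! Products of two half-space terms; the local limit. -/

open MeasureTheory ProbabilityTheory Filter Topology
open scoped ENNReal Classical InnerProductSpace

namespace Pool.Agent.Lib.MP_258d0c_pr.Lim

variable {E : Type} [NormedAddCommGroup E] [NormedSpace ℝ E] [MeasurableSpace E] [BorelSpace E]
  {vol : Measure E} {x : E} {μ : ℕ → Measure E} {ρ : ℕ → E → ℝ} {R : E → ℝ}

theorem sum_pattern_Pair {Q ι : Type} [Fintype Q] [DecidableEq Q] [Fintype ι] [Fintype (Setoid Q)]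
    (Φ : (Q → ι) → ℝ) :
    ∑ τ : Q → ι, Φ τ = ∑ r : Setoid Q, ∑ e : Quotient r ↪ ι, Φ fun q => e (Quotient.mk r q) := by
  rw [← Fintype.sum_sigma' (fun (r : Setoid Q) (e : Quotient r ↪ ι) =>
    Φ fun q => e (Quotient.mk r q))]
  symm
  refine Fintype.sum_bijective
    (fun z : Σ r : Setoid Q, Quotient r ↪ ι => fun q => z.2 (Quotient.mk z.1 q)) ⟨?_, ?_⟩ _ _
    fun _ => rfl
  · rintro ⟨r, e⟩ ⟨r', e'⟩ h
    have h1 : ∀ q, e (Quotient.mk r q) = e' (Quotient.mk r' q) := fun q => congrFun h q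
    obtain rfl : r = r' := by
      ext a b
      rw [← Quotient.eq (r := r), ← Quotient.eq (r := r'), ← e.injective.eq_iff,
        ← e'.injective.eq_iff, h1, h1]
    congr 1
    ext p
    induction p using Quotient.inductionOn
    exact h1 _
  · intro τ
    exact ⟨⟨Setoid.ker τ, ⟨_, Setoid.kerLift_injective τ⟩⟩, rfl⟩

theorem sum_lab_Pair {P ι L : Type} [Fintype P] [Fintype ι] [Fintype L] (lab : ι → L)
    (f : (P → L) → (P ↪ ι) → ℝ) :
    ∑ e : P ↪ ι, f (fun p => lab (e p)) e =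
      ∑ lam : P → L, ∑ e : P ↪ ι, if ∀ p, lab (e p) = lam p then f lam e else 0 := by
  rw [Finset.sum_comm]
  refine Finset.sum_congr rfl fun e _ => ?_
  rw [Finset.sum_eq_single (fun p => lab (e p))]
  · simp
  · intro lam _ h
    exact if_neg fun h1 => h (funext fun p => (h1 p).symm)
  · simp

/-- the event of one ordered tuple -/
def ev_Pair {ι : Type} (T : HT E x) (S : Finset ι) (σ : Fin T.k → ι) : Set (ι → E) :=
  {U | Function.Injective σ ∧ (∀ a, σ a ∈ S) ∧ (fun a => U (σ a)) ∈ T.c ∧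
    ∀ j ∈ S, (∀ a, σ a ≠ j) → ((fun a => U (σ a)), U j) ∉ T.H}

omit [BorelSpace E] in
theorem ev_meas_Pair {ι : Type} [Fintype ι] (T : HT E x) (S : Finset ι) (σ : Fin T.k → ι) :
    MeasurableSet (ev_Pair T S σ) := by
  have hf : Measurable fun (U : ι → E) a => U (σ a) := by fun_prop
  exact measurableSet_setOfPred.2 (measurable_const.and (measurable_const.and
    ((T.mc.mem.comp hf).and (Measurable.forall fun j => measurable_const.imp
      (measurable_const.imp (T.mH.mem.comp (hf.prodMk (measurable_pi_apply j))).not)))))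

omit [BorelSpace E] in
theorem tm_mul_Pair {ι : Type} [Fintype ι] (T T' : HT E x) (S S' : Finset ι) (U : ι → E) :
    tm T U S * tm T' U S' = ∑ τ : Fin T.k ⊕ Fin T'.k → ι,
      (ev_Pair T S (fun a => τ (Sum.inl a)) ∩ ev_Pair T' S' fun a => τ (Sum.inr a)).indicator
        (fun _ => 1) U := by
  unfold tm
  rw [Finset.sum_mul_sum, ← Fintype.sum_prod_type']
  symm
  refine Fintype.sum_equiv (Equiv.sumArrowEquivProdArrow _ _ _) _ _ fun τ => ?_
  refine (congrFun Set.inter_indicator_one U).trans ?_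
  rw [Pi.mul_apply, Set.indicator_apply, Set.indicator_apply]
  congr

omit [BorelSpace E] in
theorem tm_int_Pair {ι : Type} [Fintype ι] (T T' : HT E x) (S S' : Finset ι) (ν : Measure E)
    [IsProbabilityMeasure ν] : Integrable (fun U => tm T U S * tm T' U S') (iid ι ν) := by
  simp only [tm_mul_Pair]
  exact integrable_finsetSum _ fun τ _ => (integrable_const (1 : ℝ)).indicator
    ((ev_meas_Pair T S _).inter (ev_meas_Pair T' S' _))

/-- the condition on the marked points for one factor -/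
def chi_Pair {P : Type} (T : HT E x) (f : Fin T.k → P) (lam : P → Prop) : Set (P → E) :=
  {y | Function.Injective f ∧ (∀ a, lam (f a)) ∧ (fun a => y (f a)) ∈ T.c ∧
    ∀ p, lam p → (∀ a, f a ≠ p) → ((fun a => y (f a)), y p) ∉ T.H}

omit [BorelSpace E] in
theorem chi_meas_Pair {P : Type} [Fintype P] (T : HT E x) (f : Fin T.k → P) (lam : P → Prop) :
    MeasurableSet (chi_Pair T f lam) := by
  have hf : Measurable fun (U : P → E) a => U (f a) := by fun_prop
  exact measurableSet_setOfPred.2 (measurable_const.and (measurable_const.and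
    ((T.mc.mem.comp hf).and (Measurable.forall fun j => measurable_const.imp
      (measurable_const.imp (T.mH.mem.comp (hf.prodMk (measurable_pi_apply j))).not)))))

omit [BorelSpace E] in
theorem ev_iff_Pair {P ι : Type} (T : HT E x) (S : Finset ι) (f : Fin T.k → P) (e : P ↪ ι)
    (U : ι → E) : U ∈ ev_Pair T S (fun a => e (f a)) ↔
      (fun p => U (e p)) ∈ chi_Pair T f (fun p => e p ∈ S) ∧
        ∀ i, (∀ p, e p ≠ i) → i ∈ S → ((fun a => U (e (f a))), U i) ∉ T.H := by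
  constructor
  · rintro ⟨h1, h2, h3, h4⟩
    exact ⟨⟨Function.Injective.of_comp (f := e) h1, h2, h3, fun p hp h5 =>
      h4 _ hp fun a h6 => h5 a (e.injective h6)⟩, fun i h5 hi => h4 i hi fun a => h5 _⟩
  · rintro ⟨⟨h1, h2, h3, h4⟩, h5⟩
    refine ⟨e.injective.comp h1, h2, h3, fun j hj h6 => ?_⟩
    by_cases h7 : ∃ p, e p = j
    · obtain ⟨p, rfl⟩ := h7
      exact h4 p hj fun a h8 => h6 a (congrArg e h8)
    · exact h5 j (fun p h8 => h7 ⟨p, h8⟩) hj

theorem slot_lab_Pair [SigmaFinite vol] (h : Loc vol x μ ρ R) {P L : Type} [Fintype P] [Fintype L]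
    (χ : (P → L) → Set (P → E)) (hχ : ∀ lam, MeasurableSet (χ lam)) (B : L → Set ((P → E) × E))
    (hB : ∀ t, MeasurableSet (B t))
    (hhalf : ∀ lam, ∀ y ∈ χ lam, ∀ p, ∃ (t : L) (l : E →L[ℝ] ℝ),
      ∀ w, min (l x) (l (y p)) ≤ l w → (y, w) ∈ B t)
    (ι : ℕ → Type) [∀ n, Fintype (ι n)] (lab : ∀ n, ι n → L) (u : L → ℝ) (hu : ∀ t, 0 < u t)
    (hN : ∀ t, Tendsto (fun n : ℕ => ((Finset.univ.filter fun i => lab n i = t).card : ℝ) / n)
      atTop (𝓝 (u t))) :
    Cv fun n : ℕ => ∑ e : P ↪ ι n,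
      (iid (ι n) (μ n)).real {U | (fun p => U (e p)) ∈ χ (fun p => lab n (e p)) ∧
        ∀ i, (∀ p, e p ≠ i) → ((fun p => U (e p)), U i) ∉ B (lab n i)} :=
  (Cv.sum (Finset.univ : Finset (P → L)) fun lam _ =>
    slot_cv h lam (hχ lam) B hB (hhalf lam) ι lab u hu hN).congr
      (Eventually.of_forall fun n => (sum_lab_Pair (lab n) fun lam e =>
        (iid (ι n) (μ n)).real {U | (fun p => U (e p)) ∈ χ lam ∧
          ∀ i, (∀ p, e p ≠ i) → ((fun p => U (e p)), U i) ∉ B (lab n i)}).symm)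

theorem pair_cv [SigmaFinite vol] (h : Loc vol x μ ρ R) (T T' : HT E x) (ι : ℕ → Type)
    [∀ n, Fintype (ι n)] (S S' : ∀ n, Finset (ι n)) (u : Prop × Prop → ℝ) (hu : ∀ t, 0 < u t)
    (hN : ∀ t, Tendsto (fun n : ℕ =>
      ((Finset.univ.filter fun i => (i ∈ S n, i ∈ S' n) = t).card : ℝ) / n) atTop (𝓝 (u t))) :
    Cv fun n : ℕ => ∫ U, tm T U (S n) * tm T' U (S' n) ∂(iid (ι n) (μ n)) := by
  have : Finite (Setoid (Fin T.k ⊕ Fin T'.k)) :=
    Finite.of_injective (fun r : Setoid (Fin T.k ⊕ Fin T'.k) => r.r) fun _ _ h => Setoid.ext fun a b => iff_of_eq (congrFun (congrFun h a) b)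
  have := Fintype.ofFinite (Setoid (Fin T.k ⊕ Fin T'.k))
  have h1 := Cv.sum (Finset.univ : Finset (Setoid (Fin T.k ⊕ Fin T'.k))) fun r _ =>
    slot_lab_Pair h (P := Quotient r) (L := Prop × Prop)
      (fun lam => chi_Pair T (fun a => Quotient.mk r (Sum.inl a)) (fun p => (lam p).1) ∩
        chi_Pair T' (fun a => Quotient.mk r (Sum.inr a)) fun p => (lam p).2)
      (fun _ => (chi_meas_Pair _ _ _).inter (chi_meas_Pair _ _ _))
      (fun t => {z | (t.1 ∧ ((fun a => z.1 (Quotient.mk r (Sum.inl a))), z.2) ∈ T.H) ∨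
        (t.2 ∧ ((fun a => z.1 (Quotient.mk r (Sum.inr a))), z.2) ∈ T'.H)})
      (fun t => measurableSet_setOfPred.2
        ((measurable_const.and (T.mH.mem.comp (by fun_prop))).or
          (measurable_const.and (T'.mH.mem.comp (by fun_prop)))))
      (by
        rintro lam y ⟨hy, hy'⟩ p
        induction p using Quotient.inductionOn
        rename_i q
        rcases q with a | a
        · obtain ⟨l, b, p1, p2, p3⟩ := T.half _ hy.2.2.1
          exact ⟨(True, False), l, fun w hw =>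
            Or.inl ⟨trivial, p3 w ((le_min p1 (p2 a)).trans hw)⟩⟩
        · obtain ⟨l, b, p1, p2, p3⟩ := T'.half _ hy'.2.2.1
          exact ⟨(False, True), l, fun w hw =>
            Or.inr ⟨trivial, p3 w ((le_min p1 (p2 a)).trans hw)⟩⟩)
      ι (fun n i => (i ∈ S n, i ∈ S' n)) u hu (fun t => by convert hN t)
  refine h1.congr ?_
  filter_upwards [h.dens] with n hn
  have := hn.1
  simp_rw [tm_mul_Pair]
  rw [integral_finsetSum _ fun τ _ => (integrable_const (1 : ℝ)).indicator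
    ((ev_meas_Pair T (S n) _).inter (ev_meas_Pair T' (S' n) _)), sum_pattern_Pair]
  refine Finset.sum_congr rfl fun r _ => ?_
  refine Finset.sum_congr (by ext; simp) fun e _ => ?_
  refine Eq.trans ?_
    (integral_indicator_one ((ev_meas_Pair T (S n) _).inter (ev_meas_Pair T' (S' n) _))).symm
  congr 1
  ext U
  rw [Set.mem_inter_iff, ev_iff_Pair T (S n) (fun a => Quotient.mk r (Sum.inl a)) e,
    ev_iff_Pair T' (S' n) (fun a => Quotient.mk r (Sum.inr a)) e]
  simp only [Set.mem_ofPred_eq, Set.mem_inter_iff, not_or, not_and]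
  exact ⟨fun ⟨⟨a, b⟩, c⟩ => ⟨⟨a, fun i hi => (c i hi).1⟩, b, fun i hi => (c i hi).2⟩,
    fun ⟨⟨a, c⟩, b, c'⟩ => ⟨⟨a, b⟩, fun i hi => ⟨c i hi, c' i hi⟩⟩⟩

theorem inner_cv [FiniteDimensional ℝ E] [vol.IsAddHaarMeasure] (h : Loc vol x μ ρ R)
    (h1 : 1 ≤ Module.finrank ℝ E) (ι : ℕ → Type) [∀ n, Fintype (ι n)] [∀ n, DecidableEq (ι n)]
    (S S' : ∀ n, Finset (ι n)) (u : Prop × Prop → ℝ) (hu : ∀ t, 0 < u t)
    (hN : ∀ t, Tendsto (fun n : ℕ =>
      ((Finset.univ.filter fun i => (i ∈ S n, i ∈ S' n) = t).card : ℝ) / n) atTop (𝓝 (u t)))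
    {g : ℕ → ℝ} (hg : ∀ᶠ n in atTop, ∃ p, p ∉ S n ∧ p ∉ S' n ∧
      g n = Gf (μ n) (Module.finrank ℝ E) (S n) (S' n) p x) : Cv g := by
  obtain ⟨T, ε, hT⟩ := expand h1 x
  have h2 := Cv.sum (Finset.univ : Finset (Fin 4)) fun t _ =>
    Cv.sum (Finset.univ : Finset (Fin 4)) fun t' _ =>
      (Cv.const (ε t * ε t')).mul (pair_cv h (T t) (T t') ι S S' u hu fun t => by convert hN t)
  refine h2.congr ?_
  have h3 := ((hN (True, True)).pos_mul_atTop (hu _) tendsto_natCast_atTop_atTop).eventually_gt_atTop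
    (Module.finrank ℝ E : ℝ)
  filter_upwards [h.dens, hg, h3, eventually_gt_atTop 0] with n hn ⟨p, hp, hp', hgn⟩ h4 hn0
  have := hn.1
  rw [div_mul_cancel₀ _ (by exact_mod_cast hn0.ne'), Nat.cast_lt] at h4
  have h5 : ∀ s : AffineSubspace ℝ E, s ≠ ⊤ → μ n s = 0 := fun s hs => by
    rw [hn.2]
    exact withDensity_absolutelyContinuous _ _ (Measure.addHaar_affineSubspace vol s hs)
  have h6 := hT (μ n) h5 (ι n) (S n) p hp (h4.trans_le (Finset.card_le_card fun i hi =>
    of_eq_true (congrArg Prod.fst (Finset.mem_filter.1 hi).2)))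
  have h7 := hT (μ n) h5 (ι n) (S' n) p hp' (h4.trans_le (Finset.card_le_card fun i hi =>
    of_eq_true (congrArg Prod.snd (Finset.mem_filter.1 hi).2)))
  rw [hgn, Gf, integral_congr_ae (g := fun U => ∑ t, ∑ t',
    ε t * ε t' * (tm (T t) U (S n) * tm (T t') U (S' n)))]
  · rw [integral_finsetSum _ fun t _ => integrable_finsetSum _ fun t' _ =>
      (tm_int_Pair _ _ _ _ _).const_mul _]
    refine Finset.sum_congr rfl fun t _ => ?_
    rw [integral_finsetSum _ fun t' _ => (tm_int_Pair _ _ _ _ _).const_mul _]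
    exact Finset.sum_congr rfl fun t' _ => (integral_const_mul _ _).symm
  · filter_upwards [h6, h7] with U p1 p2
    rw [p1, p2, Finset.sum_mul_sum]
    exact Finset.sum_congr rfl fun t _ => Finset.sum_congr rfl fun t' _ => by ring

end Pool.Agent.Lib.MP_258d0c_pr.Lim
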