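import Pool.Agent.Lib.MP_258d0c_pr.Lim.Split
import Pool.Agent.Lib.MP_258d0c_pr.Lim.Pair

/-! The one-point terms: a uniform bound, and their local limit. -/

open MeasureTheory ProbabilityTheory Filter Topology
open scoped ENNReal Classical InnerProductSpace

namespace Pool.Agent.Lib.MP_258d0c_pr.Lim

theorem alg_Bound {m : ℕ} {d : Fin m → ℕ} {γ : Fin m → ℝ} {lam n : ℝ} (hn : 0 < n) {x : Amb d}
    (hx : x ∈ obody d) (j : Fin m → ℕ) :
    (n * tt γ j) ^ (-lam) = (n * tau γ x) ^ (-lam) * ∏ i, (hh x i / sc j i) ^ (lam * γ i) := by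
  have hh0 := hh_pos hx
  have hs0 := sc_pos j
  have htau : 0 < tau γ x := Finset.prod_pos fun i _ => Real.rpow_pos_of_pos (hh0 i) _
  rw [Real.mul_rpow hn.le (tt_pos γ j).le, Real.mul_rpow hn.le htau.le, mul_assoc]
  congr 1
  unfold tt tau
  rw [← Real.finsetProd_rpow _ _ fun i _ => (Real.rpow_pos_of_pos (hs0 i) _).le,
    ← Real.finsetProd_rpow _ _ fun i _ => (Real.rpow_pos_of_pos (hh0 i) _).le,
    ← Finset.prod_mul_distrib]
  refine Finset.prod_congr rfl fun i _ => ?_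
  rw [← Real.rpow_mul (hh0 i).le, ← Real.rpow_mul (hs0 i).le, mul_comm lam,
    Real.div_rpow (hh0 i).le (hs0 i).le, mul_neg, Real.rpow_neg (hh0 i).le,
    Real.rpow_neg (hs0 i).le]
  have := (Real.rpow_pos_of_pos (hh0 i) (γ i * lam)).ne'
  field_simp

theorem Kfun_le_Bound {m : ℕ} {d : Fin m → ℕ} {γ : Fin m → ℝ} (hγ : ∀ i, 0 < γ i) {c C lam : ℝ}
    (hc : 0 < c) (hC : 0 < C) (hlam : 0 < lam) :
    ∃ C' : ℝ, 0 < C' ∧ ∀ n : ℕ, 1 ≤ n → ∀ x ∈ obody d,
      Kfun γ c C n x x ≤ ENNReal.ofReal (C' * (n * tau γ x) ^ (-lam)) := by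
  obtain ⟨C2, hC2, H2⟩ := tail_exp_le hc hlam
  obtain ⟨C3, hC3, H3⟩ := weight_sum (fun i => lam * γ i) fun i => mul_pos hlam (hγ i)
  refine ⟨C * C2 * C3, by positivity, fun n hn x hx => ?_⟩
  have hn0 : (0 : ℝ) < n := by exact_mod_cast hn
  have htau : 0 < tau γ x := Finset.prod_pos fun i _ => Real.rpow_pos_of_pos (hh_pos hx i) _
  have hT : 0 < ((n : ℝ) * tau γ x) ^ (-lam) := Real.rpow_pos_of_pos (by positivity) _
  have h1 : ∑' j : Fin m → ℕ, (if Near x x j then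
      ENNReal.ofReal (Real.exp (-(c * n * tt γ j))) else 0) ≤
      ENNReal.ofReal (C2 * (n * tau γ x) ^ (-lam)) * ENNReal.ofReal C3 := by
    refine le_trans ?_ (mul_le_mul' le_rfl (H3 (hh x) (hh_pos hx)))
    rw [← ENNReal.tsum_mul_left]
    refine ENNReal.tsum_le_tsum fun j => ?_
    by_cases h : Near x x j
    · have hA : ∀ i, hh x i ≤ 16 * sc j i := h.adm (obody_subset hx)
      rw [if_pos h, if_pos hA, ← ENNReal.ofReal_mul (by positivity)]
      refine ENNReal.ofReal_le_ofReal ?_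
      rw [mul_assoc C2, ← alg_Bound hn0 hx j, mul_assoc c]
      exact H2 _ (mul_pos hn0 (tt_pos γ j))
    · rw [if_neg h]
      exact zero_le
  refine (mul_le_mul' le_rfl h1).trans (le_of_eq ?_)
  rw [← ENNReal.ofReal_mul (by positivity), ← ENNReal.ofReal_mul hC.le]
  congr 1
  ring

theorem bj_bound {m : ℕ} {d : Fin m → ℕ} {β : Fin m → ℝ} (hm : 1 ≤ m) (hd : ∀ i, 1 ≤ d i)
    (hβ : ∀ i, 0 ≤ β i) {D : ℕ} (hD : 1 ≤ D) {lam : ℝ} (hlam : 0 < lam) :
    ∃ C : ℝ, 0 ≤ C ∧ ∀ n : ℕ, D + 6 ≤ n → ∀ j : ℕ, ∀ x ∈ obody d,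
      |bj (blockBeta d β) D n j x| ≤ C * (n * tau (gam d β) x) ^ (-lam) := by
  have hγ : ∀ i, 0 < gam d β i := fun i => one_pos.trans_le (one_le_gam hd hβ i)
  obtain ⟨c, CK, hc, hCK, hK⟩ := tail_vis hm hd hβ
  obtain ⟨Cw, hCw, hw⟩ := tail_mom hm hd hβ (8 * D) (half_pos hlam)
  obtain ⟨C1, hC1, H1⟩ := Kfun_le_Bound (d := d) hγ hc hCK hlam
  obtain ⟨C2, hC2, H2⟩ := Kfun_le_Bound (d := d) hγ hc hCK (half_pos hlam)
  have hCw0 : 0 < Cw := by linarith
  refine ⟨Cw * (C1 + C2), by positivity, fun n hn j x hx => ?_⟩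
  have hn1 : 1 ≤ n := by omega
  have hn0 : (0 : ℝ) < n := by exact_mod_cast hn1
  have htau : 0 < tau (gam d β) x :=
    Finset.prod_pos fun i _ => Real.rpow_pos_of_pos (hh_pos hx i) _
  have hp : 0 < (n : ℝ) * tau (gam d β) x := by positivity
  have hT : 0 < ((n : ℝ) * tau (gam d β) x) ^ (-lam) := Real.rpow_pos_of_pos hp _
  have hT' : 0 < ((n : ℝ) * tau (gam d β) x) ^ (-(lam / 2)) := Real.rpow_pos_of_pos hp _
  unfold bj
  split_ifs with hj
  swap
  · rw [abs_zero]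
    positivity
  have := blockBeta_prob d hβ
  have hcard : ∀ b, n ≤ 2 * (vtBase (⟨j, hj⟩ : Fin n) b).card := fun b => by
    rw [card_vtBase]; omega
  have h1 := Gf_le (μ := blockBeta d β) hD (S := vtBase (⟨j, hj⟩ : Fin n) false)
    (T := vtBase (⟨j, hj⟩ : Fin n) true) (p := Sum.inl ⟨j, hj⟩) (x := x)
    (K := Kfun (gam d β) c CK n x x) (w := wfun (gam d β) (lam / 2) Cw n x)
    (by rw [card_vtBase]; omega) (by rw [card_vtBase]; omega)
    (vtPt_notMem _ false false) (vtPt_notMem _ false true)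
    (one_le_mul (ENNReal.one_le_ofReal.2 hCw) le_self_add)
    (hK n _ _ (hcard false) x hx x hx) (hw n hn1 _ _ (hcard false) x hx)
    (hw n hn1 _ _ (hcard true) x hx)
  rw [← ENNReal.ofReal_le_ofReal_iff (by positivity)]
  refine h1.trans ?_
  unfold wfun
  rw [mul_left_comm, mul_add, mul_one]
  refine (mul_le_mul' le_rfl (add_le_add (H1 n hn1 x hx)
    (mul_le_mul' (H2 n hn1 x hx) le_rfl))).trans (le_of_eq ?_)
  rw [← ENNReal.ofReal_mul (by positivity), ← ENNReal.ofReal_add (by positivity) (by positivity),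
    ← ENNReal.ofReal_mul hCw0.le, mul_assoc C2, ← Real.rpow_add hp]
  have e : -(lam / 2) + -(lam / 2) = -lam := by ring
  rw [e]
  congr 1
  ring

theorem mem_base_Bound {n : ℕ} (j i : Fin n) :
    (Sum.inl i ∈ vtBase j false ↔ i ≠ j) ∧ (Sum.inr i ∈ vtBase j false ↔ False) ∧
      (Sum.inl i ∈ vtBase j true ↔ j < i) ∧ (Sum.inr i ∈ vtBase j true ↔ i < j) := by
  have e : ∀ (A : Finset (Fin n)) (k : Fin n),
      vtEmb A k = if k ∈ A then Sum.inr k else Sum.inl k := fun _ _ => rfl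
  refine ⟨?_, ?_, ?_, ?_⟩
  · simp [vtBase, e]
  · simp [vtBase, e]
  · simp only [vtBase, if_true, Finset.mem_map, Finset.mem_erase, Finset.mem_univ, and_true, e,
      Finset.mem_Iio]
    constructor
    · rintro ⟨k, h1, h2⟩
      split_ifs at h2 with h3
      obtain rfl := Sum.inl_injective h2
      exact lt_of_le_of_ne (not_lt.1 h3) (Ne.symm h1)
    · intro h
      exact ⟨i, h.ne', if_neg h.not_gt⟩
  · simp only [vtBase, if_true, Finset.mem_map, Finset.mem_erase, Finset.mem_univ, and_true, e,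
      Finset.mem_Iio]
    constructor
    · rintro ⟨k, h1, h2⟩
      split_ifs at h2 with h3
      obtain rfl := Sum.inr_injective h2
      exact h3
    · intro h
      exact ⟨i, h.ne, if_pos h⟩

theorem count_Bound {n : ℕ} (j : Fin n) (t : Prop × Prop)
    (F : Finset (Fin n ⊕ Fin n)) (hF : ∀ i, i ∈ F ↔ (i ∈ vtBase j false, i ∈ vtBase j true) = t) :
    (F.card : ℝ) = (if t.1 ↔ t.2 then (n : ℝ) - j else j) +
      if t.1 ↔ t.2 then (if t.1 then -1 else 1) else 0 := by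
  obtain ⟨a, b⟩ := t
  have hl : ∀ i, i ∈ F.toLeft ↔ (i ≠ j ↔ a) ∧ (j < i ↔ b) := fun i => by
    rw [Finset.mem_toLeft, hF, Prod.mk.injEq, eq_iff_iff, eq_iff_iff, (mem_base_Bound j i).1,
      (mem_base_Bound j i).2.2.1]
  have hr : ∀ i, i ∈ F.toRight ↔ (False ↔ a) ∧ (i < j ↔ b) := fun i => by
    rw [Finset.mem_toRight, hF, Prod.mk.injEq, eq_iff_iff, eq_iff_iff, (mem_base_Bound j i).2.1,
      (mem_base_Bound j i).2.2.2]
  have hj := j.2
  rw [← Finset.card_toLeft_add_card_toRight]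
  by_cases ha : a <;> by_cases hb : b
  · have e1 : F.toLeft = Finset.Ioi j := by
      ext i
      simp only [hl, ha, hb, iff_true, Finset.mem_Ioi]
      exact ⟨fun h => h.2, fun h => ⟨h.ne', h⟩⟩
    have e2 : F.toRight = ∅ := by
      ext i
      simp [hr, ha]
    have e3 : n - 1 - j + (j + 1) = n := by omega
    have e4 : ((n - 1 - j : ℕ) : ℝ) + (j + 1) = n := by exact_mod_cast e3
    simp only [e1, e2, Fin.card_Ioi, Finset.card_empty, add_zero, ha, hb, if_true]
    linarith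
  · have e1 : F.toLeft = Finset.Iio j := by
      ext i
      simp only [hl, ha, hb, iff_true, iff_false, Finset.mem_Iio, not_lt]
      exact ⟨fun h => lt_of_le_of_ne h.2 h.1, fun h => ⟨h.ne, h.le⟩⟩
    have e2 : F.toRight = ∅ := by
      ext i
      simp [hr, ha]
    simp [e1, e2, ha, hb]
  · have e1 : F.toLeft = ∅ := by
      ext i
      simp only [hl, ha, hb, iff_true, iff_false, not_not, Finset.notMem_empty, not_and]
      rintro rfl
      exact lt_irrefl _
    have e2 : F.toRight = Finset.Iio j := by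
      ext i
      simp [hr, ha, hb]
    simp [e1, e2, ha, hb]
  · have e1 : F.toLeft = {j} := by
      ext i
      simp only [hl, ha, hb, iff_false, not_not, Finset.mem_singleton, not_lt]
      exact ⟨fun h => h.1, fun h => ⟨h, h.le⟩⟩
    have e2 : F.toRight = Finset.Ici j := by
      ext i
      simp [hr, ha, hb]
    have e3 : n - j + j = n := by omega
    have e4 : ((n - j : ℕ) : ℝ) + j = n := by exact_mod_cast e3
    simp only [e1, e2, Fin.card_Ici, Finset.card_singleton, ha, hb, if_true, if_false]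
    push_cast
    linarith

theorem bj_cv {E : Type} [NormedAddCommGroup E] [NormedSpace ℝ E] [FiniteDimensional ℝ E]
    [MeasurableSpace E] [BorelSpace E] {vol : Measure E} [vol.IsAddHaarMeasure] {x : E}
    {μ : ℕ → Measure E} {ρ : ℕ → E → ℝ} {R : E → ℝ} (h : Loc vol x μ ρ R)
    (h1 : 1 ≤ Module.finrank ℝ E) {u : ℝ} (hu0 : 0 < u) (hu1 : u < 1) :
    Cv fun n : ℕ => bj (μ n) (Module.finrank ℝ E) n ⌊(n : ℝ) * u⌋₊ x := by
  have hlt : ∀ n : ℕ, 0 < n → ⌊(n : ℝ) * u⌋₊ < n := fun n hn => by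
    have hn0 : (0 : ℝ) < n := by exact_mod_cast hn
    rw [Nat.floor_lt (by positivity)]
    nlinarith
  have hfl : Tendsto (fun n : ℕ => (⌊(n : ℝ) * u⌋₊ : ℝ) / n) atTop (𝓝 u) := by
    have := (tendsto_nat_floor_mul_div_atTop hu0.le).comp
      (tendsto_natCast_atTop_atTop (R := ℝ))
    refine this.congr fun n => ?_
    simp only [Function.comp_apply, mul_comm u]
  refine inner_cv h h1 (fun n => Fin n ⊕ Fin n)
    (fun n => if hj : ⌊(n : ℝ) * u⌋₊ < n then vtBase ⟨_, hj⟩ false else ∅)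
    (fun n => if hj : ⌊(n : ℝ) * u⌋₊ < n then vtBase ⟨_, hj⟩ true else ∅)
    (fun t => if t.1 ↔ t.2 then 1 - u else u) (fun t => ?_) (fun t => ?_) ?_
  · split_ifs <;> linarith
  · have h2 : Tendsto (fun n : ℕ => (if t.1 ↔ t.2 then 1 - (⌊(n : ℝ) * u⌋₊ : ℝ) / n
        else (⌊(n : ℝ) * u⌋₊ : ℝ) / n) +
        (if t.1 ↔ t.2 then (if t.1 then -1 else 1) else 0 : ℝ) / n) atTop
        (𝓝 ((if t.1 ↔ t.2 then 1 - u else u) + 0)) := by
      refine Tendsto.add ?_ (tendsto_const_div_atTop_nhds_zero_nat _)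
      split_ifs
      exacts [tendsto_const_nhds.sub hfl, hfl]
    rw [add_zero] at h2
    refine h2.congr' ?_
    filter_upwards [eventually_gt_atTop 0] with n hn
    have hn0 : (n : ℝ) ≠ 0 := by exact_mod_cast hn.ne'
    rw [count_Bound ⟨_, hlt n hn⟩ t _ (fun i => by
      simp only [Finset.mem_filter, Finset.mem_univ, true_and, dif_pos (hlt n hn)]), add_div]
    congr 1
    split_ifs
    · rw [sub_div, div_self hn0]
    · rfl
  · filter_upwards [eventually_gt_atTop 0] with n hn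
    refine ⟨Sum.inl ⟨_, hlt n hn⟩, ?_, ?_, ?_⟩
    · rw [dif_pos (hlt n hn)]
      exact vtPt_notMem _ false false
    · rw [dif_pos (hlt n hn)]
      exact vtPt_notMem _ false true
    · simp only [bj, dif_pos (hlt n hn)]

end Pool.Agent.Lib.MP_258d0c_pr.Lim
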