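import Pool.Agent.Lib.MP_258d0c_pr.Lim.Cv

/-! The affine blow-up carries `mus` to the block-beta distribution. -/

open MeasureTheory ProbabilityTheory Filter Topology
open scoped ENNReal Classical InnerProductSpace

namespace Pool.Agent.Lib.MP_258d0c_pr.Lim

variable {m : ℕ} {d : Fin m → ℕ} {β : Fin m → ℝ}

theorem measurable_dn (hd : ∀ i, 1 ≤ d i) (β s : Fin m → ℝ) : Measurable (dn hd β s) := by
  unfold dn
  refine Finset.measurable_prod _ fun i _ => ?_
  have h : Measurable fun u : Amb d => qf ⟨0, hd i⟩ (s i) (u i) := by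
    unfold qf
    fun_prop
  exact Measurable.ite (measurableSet_lt measurable_const h) (h.pow_const _) measurable_const

theorem dn_nonneg (hd : ∀ i, 1 ≤ d i) (β s : Fin m → ℝ) (u : Amb d) : 0 ≤ dn hd β s u := by
  unfold dn
  refine Finset.prod_nonneg fun i _ => ?_
  split_ifs with h
  · exact Real.rpow_nonneg h.le _
  · exact le_rfl

theorem raw_ne_chart (d : Fin m → ℕ) (hβ : ∀ i, 0 ≤ β i) :
    (rawMeasure d β Set.univ)⁻¹ ≠ 0 ∧ (rawMeasure d β Set.univ)⁻¹ ≠ ⊤ := by
  have h := (blockBeta_prob d hβ).measure_univ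
  rw [blockBeta, Measure.smul_apply, smul_eq_mul] at h
  constructor
  · intro h0
    rw [h0, zero_mul] at h
    exact zero_ne_one h
  · intro h0
    rw [ENNReal.inv_eq_top.1 h0, mul_zero] at h
    exact zero_ne_one h

theorem cst_pos (d : Fin m → ℕ) (hβ : ∀ i, 0 ≤ β i) : 0 < cst d β :=
  ENNReal.toReal_pos (raw_ne_chart d hβ).1 (raw_ne_chart d hβ).2

theorem blockBeta_eq_chart (hβ : ∀ i, 0 ≤ β i) : blockBeta d β = volume.withDensity fun x =>
    ENNReal.ofReal (cst d β * ∏ i, if 0 < hh x i then hh x i ^ β i else 0) := by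
  have hr : rawMeasure d β = volume.withDensity
      ((body d).indicator fun x => ENNReal.ofReal (dens d β x)) :=
    (withDensity_indicator (measurableSet_body d) _).symm
  have hb : blockBeta d β = volume.withDensity ((rawMeasure d β Set.univ)⁻¹ •
      (body d).indicator fun x => ENNReal.ofReal (dens d β x)) := by
    rw [withDensity_smul' _ _ (raw_ne_chart d hβ).2, ← hr]
    rfl
  rw [hb]
  refine withDensity_congr_ae ?_
  have hnull : ∀ᵐ x : Amb d, ∀ i, ‖x i‖ ≠ 1 := by
    rw [ae_all_iff]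
    intro i
    have h := Measure.pi_eval_preimage_null
      (fun i => (volume : Measure (EuclideanSpace ℝ (Fin (d i))))) (i := i)
      (Measure.addHaar_sphere_of_ne_zero volume 0 one_ne_zero)
    rw [ae_iff, volume_pi]
    refine measure_mono_null (fun x hx => ?_) h
    simpa using hx
  filter_upwards [hnull] with x hx
  rw [Pi.smul_apply, smul_eq_mul, ENNReal.ofReal_mul (cst_pos d hβ).le, cst,
    ENNReal.ofReal_toReal (raw_ne_chart d hβ).2]
  congr 1
  by_cases hb : x ∈ body d
  · rw [Set.indicator_of_mem hb]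
    congr 1
    refine Finset.prod_congr rfl fun i _ => ?_
    have h1 : ‖x i‖ < 1 := lt_of_le_of_ne (hb i) (hx i)
    have h0 := norm_nonneg (x i)
    rw [if_pos (by unfold hh; nlinarith)]
    rfl
  · rw [Set.indicator_of_notMem hb]
    obtain ⟨i, hi⟩ : ∃ i, 1 < ‖x i‖ := by simpa [body] using hb
    rw [Finset.prod_eq_zero (Finset.mem_univ i) (if_neg (by unfold hh; nlinarith)),
      ENNReal.ofReal_zero]

theorem vol_pre_chart {k : ℕ} (e : EuclideanSpace ℝ (Fin k))
    (L : EuclideanSpace ℝ (Fin k) ≃L[ℝ] EuclideanSpace ℝ (Fin k)) {J : ℝ} (hJ : 0 < J)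
    (h : |LinearMap.det (L : EuclideanSpace ℝ (Fin k) →ₗ[ℝ] EuclideanSpace ℝ (Fin k))| = J)
    (A : Set (EuclideanSpace ℝ (Fin k))) :
    ENNReal.ofReal J * volume ((fun u => e + L u) ⁻¹' A) = volume A := by
  have h1 : (fun u => e + L u) ⁻¹' A =
      (L : EuclideanSpace ℝ (Fin k) →ₗ[ℝ] EuclideanSpace ℝ (Fin k)) ⁻¹' ((fun x => e + x) ⁻¹' A) :=
    rfl
  rw [h1, Measure.addHaar_preimage_linearMap _ (by rw [← abs_ne_zero, h]; exact hJ.ne'),
    measure_preimage_add, abs_inv, h, ← mul_assoc, ← ENNReal.ofReal_mul hJ.le,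
    mul_inv_cancel₀ hJ.ne', ENNReal.ofReal_one, one_mul]

theorem chart_mp (hd : ∀ i, 1 ≤ d i) (hβ : ∀ i, 0 ≤ β i) {e : Amb d} {s : Fin m → ℝ}
    (he : ∀ i, ‖e i‖ = 1) (hs : ∀ i, 0 < s i ∧ s i ≤ 1) :
    ∃ L : Amb d ≃L[ℝ] Amb d, LgChart hd e s L ∧
      MeasurePreserving (fun u => e + L u) (mus hd β s) (blockBeta d β) := by
  choose L h1 h2 h3 using fun i => blo_linear ⟨0, hd i⟩ (e i) (he i) (hs i).1
  have hL : LgChart hd e s (ContinuousLinearEquiv.piCongrRight L) :=
    ⟨he, fun i => (hs i).1, fun i => (hs i).2, fun u i => h1 i (u i), fun u i => h2 i (u i)⟩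
  refine ⟨_, hL, ?_⟩
  set Φ : Amb d → Amb d := fun u => e + ContinuousLinearEquiv.piCongrRight L u with hΦ
  have hm : Measurable Φ := by
    refine Continuous.measurable ?_
    rw [hΦ]
    fun_prop
  have hJ : ∀ i, 0 < s i ^ (((d i : ℝ) + 1) / 2) := fun i => Real.rpow_pos_of_pos (hs i).1 _
  set J : ℝ := ∏ i, s i ^ (((d i : ℝ) + 1) / 2) with hJdef
  have hJ0 : 0 ≤ J := Finset.prod_nonneg fun i _ => (hJ i).le
  have hmap : Measure.map Φ (ENNReal.ofReal J • (volume : Measure (Amb d))) = volume := by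
    refine (Measure.pi_eq fun A hA => ?_).symm
    have hpre : Φ ⁻¹' Set.univ.pi A = Set.univ.pi fun i => (fun u => e i + L i u) ⁻¹' A i := rfl
    rw [Measure.map_apply hm (MeasurableSet.univ_pi hA), Measure.smul_apply, smul_eq_mul, hpre,
      volume_pi, Measure.pi_pi, hJdef, ENNReal.ofReal_prod_of_nonneg fun i _ => (hJ i).le,
      ← Finset.prod_mul_distrib]
    exact Finset.prod_congr rfl fun i _ => vol_pre_chart _ _ (hJ i) (h3 i) _
  let F : Amb d → ℝ≥0∞ := fun x =>
    ENNReal.ofReal (cst d β * ∏ i, if 0 < hh x i then hh x i ^ β i else 0)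
  have hF : Measurable F := by
    refine ENNReal.measurable_ofReal.comp (Measurable.const_mul
      (Finset.measurable_prod _ fun i _ => ?_) _)
    have h : Measurable fun x : Amb d => hh x i := by
      unfold hh
      fun_prop
    exact Measurable.ite (measurableSet_lt measurable_const h) (h.pow_const _) measurable_const
  have hmus : mus hd β s = (ENNReal.ofReal J • volume).withDensity fun u => F (Φ u) := by
    rw [withDensity_smul_measure, ← withDensity_smul' _ _ ENNReal.ofReal_ne_top, mus]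
    congr 1
    funext u
    rw [Pi.smul_apply, smul_eq_mul, ← ENNReal.ofReal_mul hJ0]
    congr 1
    rw [hJdef, mul_left_comm, mul_assoc, dn, ← Finset.prod_mul_distrib, ← Finset.prod_mul_distrib]
    congr 1
    refine Finset.prod_congr rfl fun i _ => ?_
    have h4 : hh (Φ u) i = s i * qf ⟨0, hd i⟩ (s i) (u i) := hL.hh_eq u i
    rw [h4]
    by_cases hq : 0 < qf ⟨0, hd i⟩ (s i) (u i)
    · rw [if_pos hq, if_pos (mul_pos (hs i).1 hq), Real.mul_rpow (hs i).1.le hq.le, gam,
        Real.rpow_add (hs i).1, mul_assoc]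
    · rw [if_neg hq, if_neg fun h => hq ((mul_pos_iff_of_pos_left (hs i).1).1 h), mul_zero,
        mul_zero]
  refine ⟨hm, Measure.ext fun A hA => ?_⟩
  rw [Measure.map_apply hm hA, hmus, withDensity_apply _ (hm hA), ← setLIntegral_map hA hF hm,
    hmap, blockBeta_eq_chart hβ, withDensity_apply _ hA]

theorem chart_o {hd : ∀ i, 1 ≤ d i} {e : Amb d} {s : Fin m → ℝ} {L : Amb d ≃L[ℝ] Amb d}
    (h : LgChart hd e s L) (i : Fin m) : (e + L (lgO hd)) i = (1 - s i) • e i := by
  have h0 : lgO hd i ⟨0, hd i⟩ = 1 := by simp [lgO]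
  have hn : ‖lgO hd i‖ = 1 := by simp [lgO]
  have h1 := h.inn (lgO hd) i
  have h2 := h.nrm (lgO hd) i
  rw [h0] at h1
  rw [h0, hn] at h2
  have h3 : ‖s i • e i + L (lgO hd) i‖ ^ 2 = 0 := by
    rw [norm_add_sq_real, real_inner_smul_left, h1, h2, norm_smul, h.unit i, Real.norm_eq_abs,
      mul_one, sq_abs]
    ring
  have h4 : s i • e i + L (lgO hd) i = 0 := by simpa using h3
  rw [Pi.add_apply, sub_smul, one_smul, eq_neg_of_add_eq_zero_right h4, sub_eq_add_neg]

theorem mus_prob (hd : ∀ i, 1 ≤ d i) (hβ : ∀ i, 0 ≤ β i) {s : Fin m → ℝ}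
    (hs : ∀ i, 0 < s i ∧ s i ≤ 1) : IsProbabilityMeasure (mus hd β s) := by
  obtain ⟨L, -, h⟩ := chart_mp hd hβ (e := lgO hd) (fun i => by simp [lgO]) hs
  have := blockBeta_prob d hβ
  constructor
  rw [← measure_univ (μ := blockBeta d β), ← h.measure_preimage MeasurableSet.univ.nullMeasurableSet,
    Set.preimage_univ]

theorem cnt_chart {E : Type} [NormedAddCommGroup E] [NormedSpace ℝ E] (e : E) (L : E ≃L[ℝ] E)
    (D : ℕ) {ι : Type} (V : ι → E) (S : Finset ι) :
    cnt D (fun i => e + L (V i)) S = cnt D V S := by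
  unfold cnt
  congr 1
  refine Finset.filter_congr fun I _ => ⟨?_, ?_⟩
  · rintro ⟨l, c, h1, h2⟩
    refine ⟨l.comp (L : E →L[ℝ] E), c - l e, fun i hi => ?_, fun j hj hI => ?_⟩
    · have := h1 i hi
      rw [map_add] at this
      exact eq_sub_of_add_eq' this
    · have := h2 j hj hI
      rw [map_add] at this
      exact lt_sub_iff_add_lt'.2 this
  · rintro ⟨l, c, h1, h2⟩
    refine ⟨l.comp (L.symm : E →L[ℝ] E), c + l (L.symm e), fun i hi => ?_, fun j hj hI => ?_⟩
    · simp [h1 i hi, add_comm]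
    · have := h2 j hj hI
      simp only [ContinuousLinearMap.comp_apply, ContinuousLinearEquiv.coe_coe, map_add,
        ContinuousLinearEquiv.symm_apply_apply]
      linarith

theorem Gf_affine {E : Type} [NormedAddCommGroup E] [NormedSpace ℝ E] [FiniteDimensional ℝ E]
    [MeasurableSpace E] [BorelSpace E] {μ ν : Measure E} [IsProbabilityMeasure μ]
    [IsProbabilityMeasure ν] (e : E) (L : E ≃L[ℝ] E)
    (h : MeasurePreserving (fun u => e + L u) ν μ) (D : ℕ) {ι : Type} [Fintype ι] [DecidableEq ι]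
    (S T : Finset ι) (p : ι) (o : E) : Gf μ D S T p (e + L o) = Gf ν D S T p o := by
  have hmp : MeasurePreserving (fun (V : ι → E) i => e + L (V i)) (iid ι ν) (iid ι μ) :=
    measurePreserving_pi _ _ fun _ => h
  have hu : Measurable fun U : ι → E => Function.update U p (e + L o) := measurable_update_left
  have hm : ∀ S : Finset ι, Measurable fun U : ι → E =>
      dif D (Function.update U p (e + L o)) S p := fun S =>
    ((vt_measurable_cnt D _).comp hu).sub ((vt_measurable_cnt D _).comp hu)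
  unfold Gf
  refine (cov_integral_comp hmp ((hm S).mul (hm T))).symm.trans ?_
  refine integral_congr_ae (Eventually.of_forall fun V => ?_)
  have h1 : Function.update (fun i => e + L (V i)) p (e + L o) =
      fun i => e + L (Function.update V p o i) := by
    funext i
    by_cases hi : i = p
    · subst hi
      simp
    · simp [Function.update_of_ne hi]
  simp only [Pi.mul_apply, dif, h1, cnt_chart]

theorem bj_chart (hd : ∀ i, 1 ≤ d i) (hβ : ∀ i, 0 ≤ β i) {x : Amb d} {s : Fin m → ℝ}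
    (hx : ∀ i, ‖x i‖ = 1 - s i) (hs : ∀ i, 0 < s i ∧ s i ≤ 1) (D n j : ℕ) :
    bj (blockBeta d β) D n j x = bj (mus hd β s) D n j (lgO hd) := by
  have hex : ∀ i, ∃ e : EuclideanSpace ℝ (Fin (d i)), ‖e‖ = 1 ∧ x i = ‖x i‖ • e := by
    intro i
    by_cases hu : x i = 0
    · exact ⟨EuclideanSpace.single ⟨0, hd i⟩ 1, by simp, by simp [hu]⟩
    · have h : ‖x i‖ ≠ 0 := norm_ne_zero_iff.2 hu
      refine ⟨‖x i‖⁻¹ • x i, ?_, ?_⟩
      · rw [norm_smul, norm_inv, norm_norm, inv_mul_cancel₀ h]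
      · rw [smul_smul, mul_inv_cancel₀ h, one_smul]
  choose e he1 he2 using hex
  obtain ⟨L, hL, h⟩ := chart_mp hd hβ (e := e) he1 hs
  have hxe : x = e + L (lgO hd) := by
    funext i
    rw [chart_o hL i, ← hx i]
    exact he2 i
  have := blockBeta_prob d hβ
  have := mus_prob hd hβ hs
  unfold bj
  split_ifs with hj
  · rw [hxe]
    exact Gf_affine e L h D _ _ _ _
  · rfl

end Pool.Agent.Lib.MP_258d0c_pr.Lim
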