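import Pool.Agent.Lib.MP_258d0c_pr.Lim.Defs

/-! Convergent sequences, dominated convergence, products of densities. -/

open MeasureTheory ProbabilityTheory Filter Topology
open scoped ENNReal Classical InnerProductSpace

namespace Pool.Agent.Lib.MP_258d0c_pr.Lim

theorem Cv.const (c : ℝ) : Cv fun _ => c := ⟨c, tendsto_const_nhds⟩

theorem Cv.add {a b : ℕ → ℝ} (ha : Cv a) (hb : Cv b) : Cv fun n => a n + b n :=
  let ⟨_, h⟩ := ha; let ⟨_, k⟩ := hb; ⟨_, h.add k⟩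

theorem Cv.mul {a b : ℕ → ℝ} (ha : Cv a) (hb : Cv b) : Cv fun n => a n * b n :=
  let ⟨_, h⟩ := ha; let ⟨_, k⟩ := hb; ⟨_, h.mul k⟩

theorem Cv.congr {a b : ℕ → ℝ} (ha : Cv a) (h : ∀ᶠ n in atTop, a n = b n) : Cv b :=
  let ⟨_, k⟩ := ha; ⟨_, k.congr' h⟩

theorem Cv.sum {J : Type} (s : Finset J) {a : J → ℕ → ℝ} (h : ∀ j ∈ s, Cv (a j)) :
    Cv fun n => ∑ j ∈ s, a j n := by
  choose! L hL using h
  exact ⟨_, tendsto_finsetSum s hL⟩

theorem Cv.prod {J : Type} (s : Finset J) {a : J → ℕ → ℝ} (h : ∀ j ∈ s, Cv (a j)) :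
    Cv fun n => ∏ j ∈ s, a j n := by
  choose! L hL using h
  exact ⟨_, tendsto_finsetProd s hL⟩

theorem Cv.integral {Ω : Type} [MeasurableSpace Ω] (P : Measure Ω) {F : ℕ → Ω → ℝ} {b : Ω → ℝ}
    (hm : ∀ᶠ n in atTop, AEStronglyMeasurable (F n) P) (hb : Integrable b P)
    (hle : ∀ᶠ n in atTop, ∀ᵐ ω ∂P, |F n ω| ≤ b ω) (hc : ∀ᵐ ω ∂P, Cv fun n => F n ω) :
    Cv fun n => ∫ ω, F n ω ∂P :=
  ⟨_, tendsto_integral_filter_of_dominated_convergence
    (f := fun ω => limUnder atTop fun n => F n ω) b hm hle hb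
    (hc.mono fun _ h => tendsto_nhds_limUnder h)⟩

theorem average_eq_cv (c : ℕ → ℝ) {n : ℕ} (hn : 0 < n) :
    ∫ u in Set.Ioo (0 : ℝ) 1, c ⌊(n : ℝ) * u⌋₊ = (∑ j ∈ Finset.range n, c j) / n := by
  have p : (0 : ℝ) < n := by exact_mod_cast hn
  have l : ∀ k : ℕ, (k : ℝ) / n ≤ ((k + 1 : ℕ) : ℝ) / n := fun k => by gcongr; omega
  have e : ∀ k : ℕ, Set.EqOn (fun u : ℝ => c ⌊(n : ℝ) * u⌋₊) (fun _ => c k)
      (Set.Ioo ((k : ℝ) / n) (((k + 1 : ℕ) : ℝ) / n)) := fun k u hu => by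
    have h1 := (div_lt_iff₀' p).1 hu.1
    have h2 := (lt_div_iff₀' p).1 hu.2
    push_cast at h2
    exact congrArg c ((Nat.floor_eq_iff ((Nat.cast_nonneg k).trans h1.le)).2 ⟨h1.le, h2⟩)
  have s := intervalIntegral.sum_integral_adjacent_intervals (μ := volume)
    (f := fun u : ℝ => c ⌊(n : ℝ) * u⌋₊) (a := fun k : ℕ => (k : ℝ) / n) (n := n) fun k _ =>
      (intervalIntegrable_iff_integrableOn_Ioo_of_le (l k)).2
        ((integrableOn_const (by simp)).congr_fun (e k).symm measurableSet_Ioo)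
  rw [Nat.cast_zero, zero_div, div_self p.ne'] at s
  rw [← integral_Ioc_eq_integral_Ioo, ← intervalIntegral.integral_of_le zero_le_one, ← s,
    Finset.sum_div]
  refine Finset.sum_congr rfl fun k _ => ?_
  rw [intervalIntegral.integral_of_le (l k), integral_Ioc_eq_integral_Ioo,
    setIntegral_congr_fun measurableSet_Ioo (e k), setIntegral_const,
    Real.volume_real_Ioo_of_le (l k), smul_eq_mul]
  push_cast
  ring

/-- averages over `j < n` -/
theorem Cv.average {b : ℕ → ℕ → ℝ} {C : ℝ} (hb : ∀ᶠ n in atTop, ∀ j, |b n j| ≤ C)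
    (hc : ∀ u : ℝ, 0 < u → u < 1 → Cv fun n : ℕ => b n ⌊(n : ℝ) * u⌋₊) :
    Cv fun n : ℕ => (∑ j ∈ Finset.range n, b n j) / n := by
  refine (Cv.integral (volume.restrict (Set.Ioo (0 : ℝ) 1))
    (F := fun n u => b n ⌊(n : ℝ) * u⌋₊) (b := fun _ => C) (Eventually.of_forall fun n => ?_)
    (integrable_const C) (hb.mono fun n h => Eventually.of_forall fun u => h _)
    ((ae_restrict_mem measurableSet_Ioo).mono fun u hu => hc u hu.1 hu.2)).congr
    ((eventually_gt_atTop 0).mono fun n hn => average_eq_cv (b n) hn)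
  exact ((measurable_from_top (f := b n)).comp
    (Nat.measurable_floor.comp (measurable_id.const_mul _))).aestronglyMeasurable

/-- the probability that `N n` points miss a set of mass `a n / n` -/
theorem Cv.pow {a : ℕ → ℝ} {A : ℝ≥0∞} {N : ℕ → ℕ} {u : ℝ} (hu : 0 < u)
    (h0 : ∀ᶠ n : ℕ in atTop, 0 ≤ a n ∧ a n ≤ 1)
    (ha : Tendsto (fun n : ℕ => ENNReal.ofReal (n * a n)) atTop (𝓝 A))
    (hN : Tendsto (fun n : ℕ => (N n : ℝ) / n) atTop (𝓝 u)) :
    Cv fun n => (1 - a n) ^ N n := by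
  rcases eq_or_ne A ⊤ with rfl | hA
  · have t := Real.tendsto_exp_neg_atTop_nhds_zero.comp
      ((ENNReal.tendsto_ofReal_nhds_top.1 ha).atTop_mul_pos hu hN)
    refine ⟨0, squeeze_zero' (h0.mono fun n h => pow_nonneg (sub_nonneg.2 h.2) _) ?_ t⟩
    filter_upwards [h0, eventually_gt_atTop 0] with n h hn
    have p : (n : ℝ) ≠ 0 := by exact_mod_cast hn.ne'
    refine (pow_le_pow_left₀ (sub_nonneg.2 h.2) (Real.one_sub_le_exp_neg (a n)) _).trans_eq ?_
    rw [← Real.exp_nat_mul, Function.comp_apply]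
    congr 1
    field_simp
  · have t : Tendsto (fun n : ℕ => (n : ℝ) * -a n) atTop (𝓝 (-A.toReal)) := by
      refine ((ENNReal.tendsto_toReal hA).comp ha).neg.congr' (h0.mono fun n h => ?_)
      simp only [Function.comp_apply]
      rw [ENNReal.toReal_ofReal (mul_nonneg n.cast_nonneg h.1), mul_neg]
    refine ⟨_, ((Real.tendsto_one_add_pow_exp_of_tendsto t).rpow hN
      (Or.inl (Real.exp_ne_zero _))).congr' ?_⟩
    filter_upwards [h0, eventually_gt_atTop 0] with n h hn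
    have p : (n : ℝ) ≠ 0 := by exact_mod_cast hn.ne'
    rw [← sub_eq_add_neg, ← Real.rpow_natCast, ← Real.rpow_mul (sub_nonneg.2 h.2),
      mul_div_cancel₀ _ p, Real.rpow_natCast]

theorem lintegral_pi_cv {ι : Type} [Fintype ι] {X : ι → Type} [∀ i, MeasurableSpace (X i)]
    (ν : ∀ i, Measure (X i)) [∀ i, SigmaFinite (ν i)] (f : ∀ i, X i → ℝ≥0∞)
    (hf : ∀ i, Measurable (f i)) :
    ∫⁻ x, ∏ i, f i (x i) ∂(Measure.pi ν) = ∏ i, ∫⁻ x, f i x ∂(ν i) := by
  let e := (Fintype.equivFin ι).symm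
  rw [← (measurePreserving_piCongrLeft ν e).lintegral_comp_emb
    (MeasurableEquiv.measurableEmbedding _)]
  simp_rw [← e.prod_comp, MeasurableEquiv.coe_piCongrLeft, Equiv.piCongrLeft_apply_apply]
  exact blk_lintegral_pi _ fun i => hf (e i)

theorem pi_withDensity {ι : Type} [Fintype ι] {X : ι → Type} [∀ i, MeasurableSpace (X i)]
    (ν : ∀ i, Measure (X i)) [∀ i, SigmaFinite (ν i)] (f : ∀ i, X i → ℝ)
    (hf : ∀ i, Measurable (f i)) (h0 : ∀ i y, 0 ≤ f i y) :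
    (Measure.pi fun i => (ν i).withDensity fun y => ENNReal.ofReal (f i y)) =
      (Measure.pi ν).withDensity fun x => ENNReal.ofReal (∏ i, f i (x i)) := by
  refine Measure.pi_eq fun s hs => ?_
  rw [withDensity_apply _ (MeasurableSet.univ_pi hs), Measure.restrict_pi_pi]
  simp_rw [ENNReal.ofReal_prod_of_nonneg fun i _ => h0 i _]
  rw [lintegral_pi_cv _ (fun i y => ENNReal.ofReal (f i y)) fun i => (hf i).ennreal_ofReal]
  exact Finset.prod_congr rfl fun i _ => (withDensity_apply _ (hs i)).symm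

end Pool.Agent.Lib.MP_258d0c_pr.Lim
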