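import Pool.Agent.Lib.MP_258d0c_pr.Main

/-! Internal definitions for the limit of the normalised variance. -/

open MeasureTheory ProbabilityTheory Filter Topology
open scoped ENNReal Classical InnerProductSpace

namespace Pool.Agent.Lib.MP_258d0c_pr.Lim

/-- the sequence converges -/
def Cv (a : ℕ → ℝ) : Prop := ∃ L, Tendsto a atTop (𝓝 L)

section Abstract

variable {E : Type} [NormedAddCommGroup E] [NormedSpace ℝ E] {ι : Type}

/-- add-one cost of the index `p` -/
noncomputable def dif [DecidableEq ι] (D : ℕ) (U : ι → E) (S : Finset ι) (p : ι) : ℝ :=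
  (cnt D U (insert p S) : ℝ) - cnt D U S

/-- mean product of two add-one costs at the point `x` -/
noncomputable def Gf [MeasurableSpace E] [Fintype ι] [DecidableEq ι] (μ : Measure E) (D : ℕ)
    (S T : Finset ι) (p : ι) (x : E) : ℝ :=
  ∫ U, dif D (Function.update U p x) S p * dif D (Function.update U p x) T p ∂(iid ι μ)

/-- the `j`-th term of the covariance identity at the point `x` -/
noncomputable def bj [MeasurableSpace E] (μ : Measure E) (D n j : ℕ) (x : E) : ℝ :=
  if h : j < n then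
    Gf μ D (vtBase ⟨j, h⟩ false) (vtBase ⟨j, h⟩ true) (Sum.inl ⟨j, h⟩) x else 0

/-- A half-space term: a condition `c` on `k` points and a set `H` that must stay empty and
contains a closed half-space through which `x` and the `k` points see each other. -/
structure HT (E : Type) [NormedAddCommGroup E] [NormedSpace ℝ E] [MeasurableSpace E] (x : E) where
  k : ℕ
  c : Set (Fin k → E)
  H : Set ((Fin k → E) × E)
  mc : MeasurableSet c
  mH : MeasurableSet H
  half : ∀ y ∈ c, ∃ (l : E →L[ℝ] ℝ) (b : ℝ), b ≤ l x ∧ (∀ a, b ≤ l (y a)) ∧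
    ∀ w, b ≤ l w → (y, w) ∈ H

/-- number of ordered tuples of `S` that satisfy the half-space term -/
noncomputable def tm [MeasurableSpace E] [Fintype ι] {x : E} (T : HT E x) (U : ι → E)
    (S : Finset ι) : ℝ :=
  ∑ σ : Fin T.k → ι, if Function.Injective σ ∧ (∀ a, σ a ∈ S) ∧ (fun a => U (σ a)) ∈ T.c ∧
    ∀ j ∈ S, (∀ a, σ a ≠ j) → ((fun a => U (σ a)), U j) ∉ T.H then 1 else 0

/-- The local picture around `x`: `n μ n` has a density `ρ n` that tends to `R` from below. -/
structure Loc [MeasurableSpace E] (vol : Measure E) (x : E) (μ : ℕ → Measure E)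
    (ρ : ℕ → E → ℝ) (R : E → ℝ) : Prop where
  meas : ∀ n, Measurable (ρ n)
  nonneg : ∀ n w, 0 ≤ ρ n w
  dens : ∀ᶠ n : ℕ in atTop, IsProbabilityMeasure (μ n) ∧
    μ n = vol.withDensity fun w => ENNReal.ofReal (ρ n w / n)
  le : ∀ᶠ n : ℕ in atTop, ∀ w, ρ n w ≤ R w
  lim : ∀ w, Tendsto (fun n => ρ n w) atTop (𝓝 (R w))
  int : ∀ a : ℝ, 0 < a → Integrable (fun w => R w * Real.exp (-(a * ‖w‖))) vol
  low : ∃ a : ℝ, 0 < a ∧ ∀ᶠ n : ℕ in atTop, ∀ (l : E →L[ℝ] ℝ) (y : E), ρ n y ≠ 0 →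
    a * ‖y‖ ≤ n * (μ n).real {w | min (l x) (l y) ≤ l w}

end Abstract

section Geo

variable {m : ℕ} {d : Fin m → ℕ}

/-- height function of a ball blown up at scale `s` -/
noncomputable def qf {k : ℕ} (i0 : Fin k) (s : ℝ) (u : EuclideanSpace ℝ (Fin k)) : ℝ :=
  2 * u i0 - s * u i0 ^ 2 - (‖u‖ ^ 2 - u i0 ^ 2)

/-- blown-up density -/
noncomputable def dn (hd : ∀ i, 1 ≤ d i) (β s : Fin m → ℝ) (u : Amb d) : ℝ :=
  ∏ i, if 0 < qf ⟨0, hd i⟩ (s i) (u i) then qf ⟨0, hd i⟩ (s i) (u i) ^ β i else 0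

/-- normalising constant -/
noncomputable def cst (d : Fin m → ℕ) (β : Fin m → ℝ) : ℝ :=
  ((rawMeasure d β Set.univ)⁻¹).toReal

/-- blown-up block-beta measure -/
noncomputable def mus (hd : ∀ i, 1 ≤ d i) (β s : Fin m → ℝ) : Measure (Amb d) :=
  volume.withDensity fun u =>
    ENNReal.ofReal (cst d β * (∏ i, s i ^ gam d β i) * dn hd β s u)

/-- bounded part of the density of `-log (1 - ‖x‖)` -/
noncomputable def om (k : ℕ) (b c t : ℝ) : ℝ :=
  if 0 < t then c * (1 - Real.exp (-t)) ^ (k - 1) * (2 - Real.exp (-t)) ^ b else 0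

end Geo

end Pool.Agent.Lib.MP_258d0c_pr.Lim
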