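import Pool.Agent.Lib.MP_258d0c_pr.Lim.Low

/-! The blown-up measures form a local picture. -/

open MeasureTheory ProbabilityTheory Filter Topology
open scoped ENNReal Classical InnerProductSpace

namespace Pool.Agent.Lib.MP_258d0c_pr.Lim

variable {m : ℕ} {d : Fin m → ℕ} {β : Fin m → ℝ}

theorem qf_le_locm {k : ℕ} (i0 : Fin k) {s : ℝ} (hs : 0 ≤ s) (u : EuclideanSpace ℝ (Fin k)) :
    qf i0 s u ≤ 2 * ‖u‖ := by
  have h1 : |u i0| ≤ ‖u‖ := by simpa using PiLp.norm_apply_le u i0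
  have h2 : u i0 ^ 2 ≤ ‖u‖ ^ 2 := by
    rw [← sq_abs]
    exact pow_le_pow_left₀ (abs_nonneg _) h1 2
  have h3 := le_abs_self (u i0)
  have h4 := mul_nonneg hs (sq_nonneg (u i0))
  unfold qf
  linarith

theorem qf_anti_locm {k : ℕ} (i0 : Fin k) {s t : ℝ} (h : s ≤ t) (u : EuclideanSpace ℝ (Fin k)) :
    qf i0 t u ≤ qf i0 s u := by
  have := mul_le_mul_of_nonneg_right h (sq_nonneg (u i0))
  unfold qf
  linarith

theorem dn_le_locm (hd : ∀ i, 1 ≤ d i) (hβ : ∀ i, 0 ≤ β i) {s : Fin m → ℝ} (hs : ∀ i, 0 ≤ s i)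
    (w : Amb d) : dn hd β s w ≤ (2 * (1 + ‖w‖)) ^ (∑ i, β i) := by
  rw [Real.rpow_sum_of_pos (by positivity)]
  refine Finset.prod_le_prod (fun i _ => ?_) fun i _ => ?_
  · split_ifs with h
    · positivity
    · exact le_rfl
  · split_ifs with h
    · refine Real.rpow_le_rpow h.le ((qf_le_locm _ (hs i) _).trans ?_) (hβ i)
      have := norm_le_pi_norm w i
      linarith
    · positivity

theorem dn_anti_locm (hd : ∀ i, 1 ≤ d i) (hβ : ∀ i, 0 ≤ β i) {s t : Fin m → ℝ}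
    (h : ∀ i, s i ≤ t i) (w : Amb d) : dn hd β t w ≤ dn hd β s w := by
  refine Finset.prod_le_prod (fun i _ => ?_) fun i _ => ?_
  · split_ifs with h
    · positivity
    · exact le_rfl
  · have h1 := qf_anti_locm ⟨0, hd i⟩ (h i) (w i)
    split_ifs with h2 h3 h3
    · exact Real.rpow_le_rpow h2.le h1 (hβ i)
    · exact absurd (h2.trans_le h1) h3
    · positivity
    · exact le_rfl

theorem dn_int (hd : ∀ i, 1 ≤ d i) (hβ : ∀ i, 0 ≤ β i) {s : Fin m → ℝ} (hs : ∀ i, 0 ≤ s i)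
    {a : ℝ} (ha : 0 < a) :
    Integrable (fun w : Amb d => dn hd β s w * Real.exp (-(a * ‖w‖))) volume := by
  obtain ⟨B, hB⟩ : ∃ B, B = ∑ i, β i := ⟨_, rfl⟩
  have hB0 : 0 ≤ B := hB ▸ Finset.sum_nonneg fun i _ => hβ i
  obtain ⟨r, hr⟩ : ∃ r : ℝ, r = Module.finrank ℝ (Amb d) + 1 := ⟨_, rfl⟩
  have hr0 : 0 < r := by rw [hr]; positivity
  obtain ⟨C, hC, H⟩ := tail_exp_le ha (show 0 < B + r by linarith)
  have hi : Integrable (fun w : Amb d => (1 + ‖w‖) ^ (-r)) volume :=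
    integrable_one_add_norm (by rw [hr]; linarith)
  refine (hi.const_mul (2 ^ B * Real.exp a * C)).mono'
    ((measurable_dn hd β s).mul (by fun_prop)).aestronglyMeasurable
    (Eventually.of_forall fun w => ?_)
  have hw : 0 < 1 + ‖w‖ := by positivity
  have h1 := dn_le_locm hd hβ hs w
  rw [← hB, Real.mul_rpow (by norm_num) hw.le] at h1
  have h2 : Real.exp (-(a * ‖w‖)) = Real.exp a * Real.exp (-(a * (1 + ‖w‖))) := by
    rw [← Real.exp_add]
    congr 1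
    ring
  have h3 : (1 + ‖w‖) ^ (-r) = (1 + ‖w‖) ^ B * (1 + ‖w‖) ^ (-(B + r)) := by
    rw [← Real.rpow_add hw]
    congr 1
    ring
  rw [Real.norm_of_nonneg (mul_nonneg (dn_nonneg hd β s w) (Real.exp_pos _).le), h2, h3]
  calc dn hd β s w * (Real.exp a * Real.exp (-(a * (1 + ‖w‖))))
      ≤ 2 ^ B * (1 + ‖w‖) ^ B * (Real.exp a * (C * (1 + ‖w‖) ^ (-(B + r)))) := by
        gcongr
        exact H _ hw
    _ = _ := by ring

theorem loc_mus (hm : 1 ≤ m) (hd : ∀ i, 1 ≤ d i) (hβ : ∀ i, 0 ≤ β i) {s : ℕ → Fin m → ℝ}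
    {s0 : Fin m → ℝ} {τ : ℝ} (hτ : 0 < τ) (h0 : ∀ i, 0 ≤ s0 i)
    (h1 : ∀ᶠ n : ℕ in atTop, (∀ i, 0 < s n i ∧ s n i < 1 ∧ s0 i ≤ s n i) ∧
      n * ∏ i, s n i ^ gam d β i = τ)
    (hl : ∀ i, Tendsto (fun n => s n i) atTop (𝓝 (s0 i))) :
    Loc volume (lgO hd) (fun n => mus hd β (s n)) (fun n w => cst d β * τ * dn hd β (s n) w)
      fun w => cst d β * τ * dn hd β s0 w := by
  have hc : 0 < cst d β * τ := mul_pos (cst_pos d hβ) hτ
  refine ⟨fun n => (measurable_dn hd β (s n)).const_mul _,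
    fun n w => mul_nonneg hc.le (dn_nonneg hd β _ w), ?_, ?_, fun w => ?_, fun a ha => ?_, ?_⟩
  · filter_upwards [h1] with n hn
    refine ⟨mus_prob hd hβ fun i => ⟨(hn.1 i).1, (hn.1 i).2.1.le⟩, ?_⟩
    have hn0 : (n : ℝ) ≠ 0 := fun h => by
      have := hn.2
      rw [h, zero_mul] at this
      exact hτ.ne this
    unfold mus
    congr 1
    funext u
    rw [← hn.2]
    congr 1
    field_simp
  · filter_upwards [h1] with n hn w
    exact mul_le_mul_of_nonneg_left (dn_anti_locm hd hβ (fun i => (hn.1 i).2.2) w) hc.le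
  · refine Tendsto.const_mul _ (tendsto_finsetProd _ fun i _ => ?_)
    have hq : Tendsto (fun n => qf ⟨0, hd i⟩ (s n i) (w i)) atTop
        (𝓝 (qf ⟨0, hd i⟩ (s0 i) (w i))) :=
      (tendsto_const_nhds.sub ((hl i).mul_const _)).sub_const _
    by_cases h : 0 < qf ⟨0, hd i⟩ (s0 i) (w i)
    · rw [if_pos h]
      refine (hq.rpow_const (Or.inl h.ne')).congr' ?_
      filter_upwards [hq.eventually_const_lt h] with n hn
      rw [if_pos hn]
    · rw [if_neg h]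
      refine tendsto_const_nhds.congr' ?_
      filter_upwards [h1] with n hn
      rw [if_neg fun h' => h (h'.trans_le (qf_anti_locm _ (hn.1 i).2.2 _))]
  · simpa only [mul_assoc] using (dn_int hd hβ h0 ha).const_mul (cst d β * τ)
  · obtain ⟨c, hc0, H⟩ := mus_low hm hd hβ
    have : Nonempty (Fin m) := ⟨⟨0, hm⟩⟩
    obtain ⟨i0, hi0⟩ := Finite.exists_max s0
    obtain ⟨n0, hn0⟩ := h1.exists
    have hlt : s0 i0 < 1 := (hn0.1 i0).2.2.trans_lt (hn0.1 i0).2.1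
    have hc1 : 0 < (1 - s0 i0) / 2 := by linarith
    refine ⟨c * ((1 - s0 i0) / 2) * τ, by positivity, ?_⟩
    have h2 : ∀ᶠ n : ℕ in atTop, ∀ i, s n i < (1 + s0 i0) / 2 :=
      eventually_all.2 fun i => (hl i).eventually_lt_const (by linarith [hi0 i])
    filter_upwards [h1, h2] with n hn hn2 l y hy
    have h3 := H (s n) _ hc1 (fun i => ⟨(hn.1 i).1, by linarith [hn2 i]⟩) l y
      (right_ne_zero_of_mul hy)
    rw [← hn.2]
    calc c * ((1 - s0 i0) / 2) * (n * ∏ i, s n i ^ gam d β i) * ‖y‖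
        = n * (c * ((1 - s0 i0) / 2) * (∏ i, s n i ^ gam d β i) * ‖y‖) := by ring
      _ ≤ _ := mul_le_mul_of_nonneg_left h3 (Nat.cast_nonneg n)

end Pool.Agent.Lib.MP_258d0c_pr.Lim
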