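import Pool.Agent.Lib.MP_258d0c_pr.Lim.Chart

/-! Mass of half-spaces in the blown-up picture. -/

open MeasureTheory ProbabilityTheory Filter Topology
open scoped ENNReal Classical InnerProductSpace

namespace Pool.Agent.Lib.MP_258d0c_pr.Lim

variable {m : ℕ} {d : Fin m → ℕ} {β : Fin m → ℝ}

theorem riesz_Low (l : Amb d →L[ℝ] ℝ) :
    ∃ u : Amb d, ∀ w : Amb d, l w = ∑ i, ⟪u i, w i⟫_ℝ := by
  refine ⟨fun i => (InnerProductSpace.toDual ℝ _).symm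
    (l.comp (ContinuousLinearMap.single ℝ (fun i => EuclideanSpace ℝ (Fin (d i))) i)), fun w => ?_⟩
  simp only [InnerProductSpace.toDual_symm_apply, ContinuousLinearMap.comp_apply,
    ContinuousLinearMap.single_apply]
  rw [← map_sum, Finset.univ_sum_single]

theorem unit_Low {k : ℕ} (hk : 1 ≤ k) (u : EuclideanSpace ℝ (Fin k)) :
    ∃ e : EuclideanSpace ℝ (Fin k), ‖e‖ = 1 ∧ u = ‖u‖ • e := by
  by_cases hu : u = 0
  · exact ⟨EuclideanSpace.single ⟨0, hk⟩ 1, by simp, by simp [hu]⟩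
  · have h : ‖u‖ ≠ 0 := norm_ne_zero_iff.2 hu
    refine ⟨‖u‖⁻¹ • u, ?_, ?_⟩
    · rw [norm_smul, norm_inv, norm_norm, inv_mul_cancel₀ h]
    · rw [smul_smul, mul_inv_cancel₀ h, one_smul]

theorem scale_Low {a H r r' : ℝ} (hH : 0 < H) (hr : r ≤ 2) (hr' : r' ≤ 2)
    (h1 : a * r ≤ H) (h2 : a * r' ≤ H) :
    ∃ σ : ℝ, (0 < σ ∧ σ ≤ 1) ∧ a * σ ≤ H ∧ r ≤ 2 * σ ∧ r' ≤ 2 * σ := by
  by_cases h : a ≤ H
  · exact ⟨1, ⟨one_pos, le_rfl⟩, by simpa using h, by simpa using hr, by simpa using hr'⟩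
  · have ha' : 0 < a := by linarith
    have h3 : H / a ≤ 1 := (div_le_one ha').2 (by linarith)
    have h0 : 0 < H / a := div_pos hH ha'
    have h4 : r ≤ H / a := by rw [le_div_iff₀ ha']; linarith
    have h5 : r' ≤ H / a := by rw [le_div_iff₀ ha']; linarith
    refine ⟨H / a, ⟨h0, h3⟩, le_of_eq ?_, by linarith, by linarith⟩
    field_simp

theorem half_cap (hd : ∀ i, 1 ≤ d i) {x y : Amb d} (hx : x ∈ obody d) (hy : y ∈ body d)
    {l : Amb d →L[ℝ] ℝ} (hl : l ≠ 0) :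
    ∃ (e : Amb d) (σ : Fin m → ℝ), (∀ i, ‖e i‖ = 1) ∧ (∀ i, 0 < σ i ∧ σ i ≤ 1) ∧
      (∀ i, rho x y i ≤ 8 * σ i) ∧
      ∀ w ∈ body d, (∀ i, rho e w i ≤ σ i / (2 * m)) → min (l x) (l y) ≤ l w := by
  obtain ⟨u, hu⟩ := riesz_Low l
  have hxb := obody_subset hx
  have hex : ∀ i, ∃ e : EuclideanSpace ℝ (Fin (d i)), ‖e‖ = 1 ∧ u i = ‖u i‖ • e :=
    fun i => unit_Low (hd i) (u i)
  choose e he1 he2 using hex
  have heb : (e : Amb d) ∈ body d := fun i => (he1 i).le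
  have key : ∀ w : Amb d, ∑ i, ‖u i‖ - l w = ∑ i, ‖u i‖ * rho e w i := by
    intro w
    rw [hu w, ← Finset.sum_sub_distrib]
    refine Finset.sum_congr rfl fun i _ => ?_
    have : ⟪u i, w i⟫_ℝ = ‖u i‖ * ⟪e i, w i⟫_ℝ := by
      conv_lhs => rw [he2 i, real_inner_smul_left]
    rw [this, rho]
    ring
  obtain ⟨i0, hi0⟩ : ∃ i, u i ≠ 0 := by
    by_contra hcon
    push Not at hcon
    apply hl
    ext1 w
    simp [hu w, hcon]
  set H : ℝ := ∑ i, ‖u i‖ - min (l x) (l y) with hH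
  have hterm : ∀ w ∈ body d, ∀ i, ‖u i‖ * rho e w i ≤ ∑ i, ‖u i‖ - l w := by
    intro w hw i
    rw [key w]
    exact Finset.single_le_sum (f := fun i => ‖u i‖ * rho e w i)
      (fun i _ => mul_nonneg (norm_nonneg _) (rho_nonneg heb hw i)) (Finset.mem_univ i)
  have hHx : ∀ i, ‖u i‖ * rho e x i ≤ H := fun i =>
    (hterm x hxb i).trans (by have := min_le_left (l x) (l y); linarith)
  have hHy : ∀ i, ‖u i‖ * rho e y i ≤ H := fun i =>
    (hterm y hy i).trans (by have := min_le_right (l x) (l y); linarith)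
  have hHpos : 0 < H := by
    refine lt_of_lt_of_le (mul_pos (norm_pos_iff.2 hi0) ?_) (hHx i0)
    have h1 := hh_le_rho x heb i0
    have h2 := hh_pos hx i0
    rw [rho_comm] at h1
    linarith
  have hj : ∀ i, ∃ σ : ℝ, (0 < σ ∧ σ ≤ 1) ∧ ‖u i‖ * σ ≤ H ∧ rho e x i ≤ 2 * σ ∧
      rho e y i ≤ 2 * σ := fun i =>
    scale_Low hHpos (rho_le_two heb hxb i) (rho_le_two heb hy i) (hHx i) (hHy i)
  choose σ hj0 hj1 hj2 hj3 using hj
  refine ⟨e, σ, he1, hj0, fun i => ?_, fun w _ hcon => ?_⟩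
  · have h1 := rho_triangle hxb hy heb i
    rw [rho_comm x e] at h1
    have h2 := hj2 i
    have h3 := hj3 i
    linarith
  · have hm : (0 : ℝ) < m := by exact_mod_cast Fin.pos i0
    have h1 : ∑ i, ‖u i‖ * rho e w i ≤ ∑ _i : Fin m, H / (2 * m) := by
      refine Finset.sum_le_sum fun i _ => ?_
      calc ‖u i‖ * rho e w i ≤ ‖u i‖ * (σ i / (2 * m)) :=
            mul_le_mul_of_nonneg_left (hcon i) (norm_nonneg _)
        _ = ‖u i‖ * σ i / (2 * m) := by ring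
        _ ≤ H / (2 * m) := div_le_div_of_nonneg_right (hj1 i) (by positivity)
    have h2 : ∑ _i : Fin m, H / (2 * m) = H / 2 := by
      rw [Finset.sum_const, Finset.card_univ, Fintype.card_fin, nsmul_eq_mul]
      field_simp
    have h4 := key w
    linarith

theorem qf_Low {k : ℕ} (z : Fin k) {s c0 : ℝ} (hs : 0 < s) (hc0 : 0 < c0) (hc : c0 ≤ 1 - s)
    {u : EuclideanSpace ℝ (Fin k)} (h : 0 < qf z s u) :
    1 ≤ 1 + (1 - s) * u z ∧ c0 * ‖u‖ ≤ 1 + (1 - s) * u z := by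
  unfold qf at h
  have h1 : ‖u z‖ ≤ ‖u‖ := PiLp.norm_apply_le _ z
  have h2 : u z ^ 2 ≤ ‖u‖ ^ 2 := by
    rw [← sq_abs, ← Real.norm_eq_abs]
    exact pow_le_pow_left₀ (norm_nonneg _) h1 2
  have h3 : 0 ≤ s * u z ^ 2 := mul_nonneg hs.le (sq_nonneg _)
  have h4 : 0 < u z := by linarith
  have h5 : ‖u‖ ^ 2 ≤ (u z + 1) ^ 2 := by nlinarith
  have h6 : ‖u‖ ≤ u z + 1 :=
    (pow_le_pow_iff_left₀ (norm_nonneg _) (by linarith) two_ne_zero).1 h5
  have h7 : c0 * ‖u‖ ≤ c0 * (u z + 1) := mul_le_mul_of_nonneg_left h6 hc0.le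
  have h8 : c0 * u z ≤ (1 - s) * u z := mul_le_mul_of_nonneg_right hc h4.le
  constructor
  · have := mul_nonneg (show 0 ≤ 1 - s by linarith) h4.le
    linarith
  · linarith

theorem ne_Low (hm : 1 ≤ m) (hd : ∀ i, 1 ≤ d i) (hβ : ∀ i, 0 ≤ β i) :
    ∃ c : ℝ, 0 < c ∧ ∀ (s : Fin m → ℝ) (c0 : ℝ), 0 < c0 → (∀ i, 0 < s i ∧ c0 ≤ 1 - s i) →
      ∀ (l : Amb d →L[ℝ] ℝ) (y : Amb d), l ≠ 0 → dn hd β s y ≠ 0 →
        c * c0 * (∏ i, s i ^ gam d β i) * ‖y‖ ≤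
          (mus hd β s).real {w | min (l (lgO hd)) (l y) ≤ l w} := by
  obtain ⟨c1, hc1, hbox⟩ := box_lower hd hβ
  have hm' : (1 : ℝ) ≤ m := by exact_mod_cast hm
  have hK : (0 : ℝ) < (16 * m : ℝ)⁻¹ := by positivity
  have hP : 0 < ∏ i, ((16 * m : ℝ)⁻¹) ^ gam d β i :=
    Finset.prod_pos fun i _ => Real.rpow_pos_of_pos hK _
  refine ⟨c1 * ∏ i, ((16 * m : ℝ)⁻¹) ^ gam d β i, mul_pos hc1 hP,
    fun s c0 hc0 hs l y hl hy => ?_⟩
  have hs' : ∀ i, 0 < s i ∧ s i ≤ 1 := fun i => ⟨(hs i).1, by linarith [(hs i).2]⟩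
  have he : ∀ i, ‖lgO hd i‖ = 1 := fun i => by simp [lgO]
  obtain ⟨L, hL, hmp⟩ := chart_mp hd hβ he hs'
  have hq : ∀ i, 0 < qf ⟨0, hd i⟩ (s i) (y i) := by
    intro i
    by_contra hcon
    exact hy (Finset.prod_eq_zero (Finset.mem_univ i) (if_neg hcon))
  have hx : lgO hd + L (lgO hd) ∈ obody d := by
    intro i
    rw [chart_o hL i, norm_smul, he i, Real.norm_eq_abs, abs_of_nonneg (by linarith [(hs' i).2])]
    linarith [(hs i).1]
  have hY : lgO hd + L y ∈ body d := by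
    intro i
    have h1 : 0 < hh (lgO hd + L y) i := by
      rw [hL.hh_eq]
      exact mul_pos (hs i).1 (hq i)
    unfold hh at h1
    have h3 := norm_nonneg ((lgO hd + L y) i)
    nlinarith
  have hrho : ∀ i, rho (lgO hd + L (lgO hd)) (lgO hd + L y) i =
      s i * (1 + (1 - s i) * y i ⟨0, hd i⟩) := by
    intro i
    have h1 := hL.rho_eq y i
    unfold rho at h1 ⊢
    rw [chart_o hL i, real_inner_smul_left]
    linear_combination (1 - s i) * h1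
  set l' : Amb d →L[ℝ] ℝ := l.comp (L.symm : Amb d →L[ℝ] Amb d) with hl'def
  have hl'app : ∀ w, l' (lgO hd + L w) = l' (lgO hd) + l w := by
    intro w
    rw [map_add]
    simp [hl'def]
  have hl' : l' ≠ 0 := by
    intro h
    apply hl
    ext1 w
    have := hl'app w
    simpa [h] using this.symm
  obtain ⟨e, σ, he1, hσ, hxy, hw⟩ := half_cap hd hx hY hl'
  have hA : MeasurableSet {W | min (l' (lgO hd + L (lgO hd))) (l' (lgO hd + L y)) ≤ l' W} :=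
    (isClosed_le continuous_const l'.continuous).measurableSet
  have hpre : (fun u => lgO hd + L u) ⁻¹'
      {W | min (l' (lgO hd + L (lgO hd))) (l' (lgO hd + L y)) ≤ l' W} =
      {w | min (l (lgO hd)) (l y) ≤ l w} := by
    ext w
    simp only [Set.mem_preimage, Set.mem_ofPred_eq, hl'app, min_add_add_left, add_le_add_iff_left]
  have hmeas := hmp.measure_preimage hA.nullMeasurableSet
  rw [hpre] at hmeas
  have hσ1 : ∀ i, 0 < σ i / (2 * m) := fun i => div_pos (hσ i).1 (by linarith)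
  have hσ2 : ∀ i, σ i / (2 * m) ≤ 1 := fun i =>
    (div_le_one (by linarith)).2 (by linarith [(hσ i).2])
  have h1 := (hbox e he1 _ hσ1 hσ2).trans (measure_mono fun w hw' => hw w hw'.1 hw'.2)
  have hprob := mus_prob hd hβ hs'
  have h2 : c1 * ∏ i, (σ i / (2 * m)) ^ gam d β i ≤
      (mus hd β s).real {w | min (l (lgO hd)) (l y) ≤ l w} := by
    rw [Measure.real, ← ENNReal.ofReal_le_iff_le_toReal (measure_ne_top _ _), hmeas]
    exact h1
  refine le_trans ?_ h2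
  have hr := fun i => qf_Low ⟨0, hd i⟩ (hs i).1 hc0 (hs i).2 (hq i)
  have : Nonempty (Fin m) := ⟨⟨0, hm⟩⟩
  obtain ⟨i0, -, hi0⟩ := Finset.exists_max_image Finset.univ (fun i => ‖y i‖) Finset.univ_nonempty
  have hy0 : ‖y‖ ≤ ‖y i0‖ :=
    (pi_norm_le_iff_of_nonneg (norm_nonneg _)).2 fun i => hi0 i (Finset.mem_univ i)
  have h3 : c0 * ‖y‖ ≤ ∏ i, (1 + (1 - s i) * y i ⟨0, hd i⟩) ^ gam d β i := by
    have h4 : ∀ i, 1 ≤ (1 + (1 - s i) * y i ⟨0, hd i⟩) ^ gam d β i := fun i =>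
      Real.one_le_rpow (hr i).1 (by linarith [one_le_gam hd hβ i])
    calc c0 * ‖y‖ ≤ c0 * ‖y i0‖ := mul_le_mul_of_nonneg_left hy0 hc0.le
      _ ≤ 1 + (1 - s i0) * y i0 ⟨0, hd i0⟩ := (hr i0).2
      _ ≤ (1 + (1 - s i0) * y i0 ⟨0, hd i0⟩) ^ gam d β i0 :=
          Real.self_le_rpow_of_one_le (hr i0).1 (one_le_gam hd hβ i0)
      _ ≤ _ := by
          rw [← Finset.mul_prod_erase Finset.univ _ (Finset.mem_univ i0)]
          exact le_mul_of_one_le_right (by linarith [h4 i0])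
            (Finset.one_le_prod fun i _ => h4 i)
  have h5 : ∏ i, ((16 * m : ℝ)⁻¹ * s i * (1 + (1 - s i) * y i ⟨0, hd i⟩)) ^ gam d β i ≤
      ∏ i, (σ i / (2 * m)) ^ gam d β i := by
    refine Finset.prod_le_prod (fun i _ => Real.rpow_nonneg ?_ _) fun i _ =>
      Real.rpow_le_rpow ?_ ?_ (by linarith [one_le_gam hd hβ i])
    · exact mul_nonneg (mul_pos hK (hs i).1).le (by linarith [(hr i).1])
    · exact mul_nonneg (mul_pos hK (hs i).1).le (by linarith [(hr i).1])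
    · have h6 := hxy i
      rw [hrho] at h6
      have h7 : σ i / (2 * m) = (16 * m : ℝ)⁻¹ * (8 * σ i) := by
        field_simp
        ring
      rw [h7, mul_assoc]
      exact mul_le_mul_of_nonneg_left h6 hK.le
  have h8 : ∏ i, ((16 * m : ℝ)⁻¹ * s i * (1 + (1 - s i) * y i ⟨0, hd i⟩)) ^ gam d β i =
      (∏ i, ((16 * m : ℝ)⁻¹) ^ gam d β i) * (∏ i, s i ^ gam d β i) *
        ∏ i, (1 + (1 - s i) * y i ⟨0, hd i⟩) ^ gam d β i := by
    rw [← Finset.prod_mul_distrib, ← Finset.prod_mul_distrib]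
    refine Finset.prod_congr rfl fun i _ => ?_
    rw [Real.mul_rpow (mul_pos hK (hs i).1).le (by linarith [(hr i).1]),
      Real.mul_rpow hK.le (hs i).1.le]
  have hS : 0 < ∏ i, s i ^ gam d β i :=
    Finset.prod_pos fun i _ => Real.rpow_pos_of_pos (hs i).1 _
  calc c1 * (∏ i, ((16 * m : ℝ)⁻¹) ^ gam d β i) * c0 * (∏ i, s i ^ gam d β i) * ‖y‖
      = c1 * ((∏ i, ((16 * m : ℝ)⁻¹) ^ gam d β i) * (∏ i, s i ^ gam d β i) * (c0 * ‖y‖)) := by
        ring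
    _ ≤ c1 * ((∏ i, ((16 * m : ℝ)⁻¹) ^ gam d β i) * (∏ i, s i ^ gam d β i) *
        ∏ i, (1 + (1 - s i) * y i ⟨0, hd i⟩) ^ gam d β i) :=
        mul_le_mul_of_nonneg_left (mul_le_mul_of_nonneg_left h3 (mul_pos hP hS).le) hc1.le
    _ ≤ _ := by
        rw [← h8]
        exact mul_le_mul_of_nonneg_left h5 hc1.le

theorem mus_low (hm : 1 ≤ m) (hd : ∀ i, 1 ≤ d i) (hβ : ∀ i, 0 ≤ β i) :
    ∃ c : ℝ, 0 < c ∧ ∀ (s : Fin m → ℝ) (c0 : ℝ), 0 < c0 → (∀ i, 0 < s i ∧ c0 ≤ 1 - s i) →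
      ∀ (l : Amb d →L[ℝ] ℝ) (y : Amb d), dn hd β s y ≠ 0 →
        c * c0 * (∏ i, s i ^ gam d β i) * ‖y‖ ≤
          (mus hd β s).real {w | min (l (lgO hd)) (l y) ≤ l w} := by
  obtain ⟨c, hc, h⟩ := ne_Low hm hd hβ
  refine ⟨c, hc, fun s c0 hc0 hs l y hy => ?_⟩
  by_cases hl : l = 0
  · have hprob := mus_prob hd hβ (s := s) fun i => ⟨(hs i).1, by linarith [(hs i).2]⟩
    refine (h s c0 hc0 hs (lgT hd) y (lgT_ne hm hd) hy).trans (measureReal_mono ?_)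
    intro w _
    simp [hl]
  · exact h s c0 hc0 hs l y hl hy

end Pool.Agent.Lib.MP_258d0c_pr.Lim
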