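import Pool.Agent.Lib.MP_258d0c_pr.Lim.Cv

/-! The outer integral: an affine change of variables and dominated convergence. -/

open MeasureTheory ProbabilityTheory Filter Topology
open scoped ENNReal Classical InnerProductSpace

namespace Pool.Agent.Lib.MP_258d0c_pr.Lim

/-- the affine change of variables -/
noncomputable def aff_outer {m : ℕ} (γ s : Fin m → ℝ) (i0 : Fin m) (l : ℝ) (z : Fin m → ℝ) :
    Fin m → ℝ := fun i =>
  if i = i0 then (l - ∑ k, (if k = i0 then 1 else γ k) * (s k * z k)) / γ i0 else s i * z i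

theorem meas_outer {m : ℕ} (γ s : Fin m → ℝ) (i0 : Fin m) (l : ℝ) :
    Measurable (aff_outer γ s i0 l) := by
  refine measurable_pi_lambda _ fun i => ?_
  unfold aff_outer
  by_cases h : i = i0
  · simp only [h, if_true]
    fun_prop
  · simp only [h, if_false]
    fun_prop

theorem cov_outer {m : ℕ} (γ s : Fin m → ℝ) (i0 : Fin m) (l : ℝ) (hγ : 0 < γ i0)
    (hs : ∀ i, 0 < s i) (f : (Fin m → ℝ) → ℝ) (hf : Measurable f) :
    ∫ t, f t = (∏ i, s i) / γ i0 * ∫ z, f (aff_outer γ s i0 l z) := by
  set c : Fin m → ℝ := fun k => -((if k = i0 then 1 else γ k) / γ i0) with hc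
  set M : Matrix (Fin m) (Fin m) ℝ :=
    (Matrix.diagonal s).updateRow i0 (∑ k, c k • (Matrix.diagonal s) k) with hM
  have hP : 0 < ∏ i, s i := Finset.prod_pos fun i _ => hs i
  have hdet : M.det = -((∏ i, s i) / γ i0) := by
    rw [hM, Matrix.det_updateRow_sum, Matrix.det_diagonal, hc]
    simp only [if_true, smul_eq_mul]
    ring
  have hpos : 0 < (∏ i, s i) / γ i0 := div_pos hP hγ
  have hne : M.det ≠ 0 := by rw [hdet]; linarith
  set v : Fin m → ℝ := fun i => if i = i0 then l / γ i0 else 0 with hv
  have hT : ∀ z, aff_outer γ s i0 l z = Matrix.toLin' M z + v := by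
    intro z
    funext i
    simp only [aff_outer, Matrix.toLin'_apply, Pi.add_apply, hv, hM]
    by_cases h : i = i0
    · subst h
      simp only [if_true, Matrix.mulVec, Matrix.updateRow_self, sum_dotProduct, smul_dotProduct,
        diagonal_dotProduct, smul_eq_mul, hc]
      rw [sub_div, Finset.sum_div, sub_eq_neg_add, ← Finset.sum_neg_distrib]
      congr 1
      exact Finset.sum_congr rfl fun k _ => by ring
    · simp only [h, if_false, Matrix.mulVec, Matrix.updateRow_ne h, diagonal_dotProduct,
        add_zero]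
  have hg : Measurable fun y : Fin m → ℝ => f (y + v) := hf.comp (measurable_add_const v)
  have h1 : ∫ z, f (aff_outer γ s i0 l z) =
      ∫ y, f (y + v) ∂(Measure.map (Matrix.toLin' M) volume) := by
    rw [integral_map (Matrix.toLin' M).continuous_of_finiteDimensional.measurable.aemeasurable
      hg.aestronglyMeasurable]
    exact integral_congr_ae (Eventually.of_forall fun z => by simp only [hT])
  rw [h1, Real.map_matrix_volume_pi_eq_smul_volume_pi hne, integral_smul_measure,
    integral_add_right_eq_self, ENNReal.toReal_ofReal (abs_nonneg _), hdet, smul_eq_mul,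
    abs_inv, abs_neg, abs_of_pos hpos, ← mul_assoc, mul_inv_cancel₀ hpos.ne', one_mul]

theorem sum_outer {m : ℕ} (γ s : Fin m → ℝ) (i0 : Fin m) (l : ℝ) (hγ : 0 < γ i0)
    (hs : s i0 = 1) (z : Fin m → ℝ) :
    ∑ i, γ i * aff_outer γ s i0 l z i = l - z i0 := by
  rw [← Finset.add_sum_erase _ _ (Finset.mem_univ i0)]
  have h1 : ∑ i ∈ Finset.univ.erase i0, γ i * aff_outer γ s i0 l z i
      = ∑ i ∈ Finset.univ.erase i0, (if i = i0 then 1 else γ i) * (s i * z i) :=
    Finset.sum_congr rfl fun i hi => by
      simp only [aff_outer, Finset.ne_of_mem_erase hi, if_false]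
  rw [h1]
  simp only [aff_outer, if_true]
  rw [← Finset.add_sum_erase _ _ (Finset.mem_univ i0), mul_div_cancel₀ _ hγ.ne']
  simp only [if_true, hs]
  ring

theorem tri_outer (A B : ℝ) :
    (∀ᶠ n : ℕ in atTop, A * Real.log n + B ≤ 0) ∨
      ((∀ᶠ n : ℕ in atTop, 0 < A * Real.log n + B) ∧
        (Tendsto (fun n : ℕ => A * Real.log n + B) atTop atTop ∨
          ∃ a, ∀ᶠ n : ℕ in atTop, A * Real.log n + B = a)) := by
  have hl : Tendsto (fun n : ℕ => Real.log n) atTop atTop :=
    Real.tendsto_log_atTop.comp tendsto_natCast_atTop_atTop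
  rcases lt_trichotomy A 0 with h | h | h
  · left
    exact (tendsto_atBot_add_const_right _ B (hl.const_mul_atTop_of_neg h)).eventually
      (eventually_le_atBot 0)
  · subst h
    rcases le_or_gt B 0 with hB | hB
    · left
      exact Eventually.of_forall fun n => by simpa using hB
    · right
      exact ⟨Eventually.of_forall fun n => by simpa using hB,
        Or.inr ⟨B, Eventually.of_forall fun n => by simp⟩⟩
  · right
    have := tendsto_atTop_add_const_right _ B (hl.const_mul_atTop h)
    exact ⟨this.eventually (eventually_gt_atTop 0), Or.inl this⟩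

theorem int1_outer {e : ℝ} (he : 0 < e) : Integrable fun x : ℝ => Real.exp (-(e * |x|)) := by
  rw [← integrableOn_univ, ← Set.Iic_union_Ioi (a := (0 : ℝ))]
  refine IntegrableOn.union ?_ ?_
  · refine (integrableOn_exp_mul_Iic he 0).congr_fun (fun x hx => ?_) measurableSet_Iic
    simp only [abs_of_nonpos (Set.mem_Iic.1 hx)]
    congr 1
    ring
  · refine (integrableOn_exp_mul_Ioi (neg_lt_zero.2 he) 0).congr_fun (fun x hx => ?_)
      measurableSet_Ioi
    simp only [abs_of_pos (Set.mem_Ioi.1 hx)]
    congr 1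
    ring

theorem outer_cv {m : ℕ} (α γ : Fin m → ℝ) (hγ : ∀ i, 0 < γ i) {κ : ℝ} (hκ0 : 0 < κ)
    (hκ : ∀ i, κ * γ i ≤ α i) (hex : ∃ i, κ * γ i = α i) (w : Fin m → ℝ → ℝ)
    (hwm : ∀ i, Measurable (w i)) (Cw : Fin m → ℝ) (hw0 : ∀ i t, 0 ≤ w i t ∧ w i t ≤ Cw i)
    (hwn : ∀ i t, t ≤ 0 → w i t = 0) (hwl : ∀ i, ∃ L, Tendsto (w i) atTop (𝓝 L))
    (Γ : ℕ → (Fin m → ℝ) → ℝ) (hΓ : ∀ n, Measurable (Γ n))
    (hb : ∀ lam : ℝ, 0 < lam → ∃ C : ℝ, ∀ᶠ n : ℕ in atTop, ∀ t : Fin m → ℝ, (∀ i, 0 < t i) →
      |Γ n t| ≤ C * Real.exp (-(lam * (Real.log n - ∑ i, γ i * t i))))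
    (hc : ∀ (t : ℕ → Fin m → ℝ) (ζ : ℝ),
      (∀ᶠ n : ℕ in atTop, (∀ i, 0 < t n i) ∧ ∑ i, γ i * t n i = Real.log n - ζ) →
      (∀ i, Tendsto (fun n => t n i) atTop atTop ∨ ∃ a, ∀ᶠ n in atTop, t n i = a) →
      Cv fun n => Γ n (t n)) :
    Cv fun n : ℕ => n / ((n : ℝ) ^ (1 - κ) *
        Real.log n ^ ((Finset.univ.filter fun i => κ * γ i = α i).card - 1)) *
      ∫ t : Fin m → ℝ, (∏ i, w i (t i) * Real.exp (-(α i * t i))) * Γ n t := by
  obtain ⟨i0, hi0⟩ := hex
  -- indicator of the scaled coordinates
  set a : Fin m → ℝ := fun i => if i ≠ i0 ∧ κ * γ i = α i then 1 else 0 with ha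
  set s : ℝ → Fin m → ℝ := fun l i => if i ≠ i0 ∧ κ * γ i = α i then l else 1 with hs
  have hsa : ∀ l i, s l i = a i * l + (1 - a i) := fun l i => by
    simp only [hs, ha]
    split_ifs <;> ring
  have ha0 : ∀ i, 0 ≤ a i := fun i => by
    simp only [ha]
    split_ifs <;> norm_num
  have ha1 : ∀ i, a i ≤ 1 := fun i => by
    simp only [ha]
    split_ifs <;> norm_num
  have hs0 : ∀ l, s l i0 = 1 := fun l => by simp [hs]
  have hspos : ∀ l, 0 < l → ∀ i, 0 < s l i := fun l hl i => by
    simp only [hs]
    split_ifs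
    · exact hl
    · exact one_pos
  have hprod : ∀ l, ∏ i, s l i =
      l ^ ((Finset.univ.filter fun i => κ * γ i = α i).card - 1) := fun l => by
    simp only [hs]
    rw [Finset.prod_ite, Finset.prod_const_one, mul_one, Finset.prod_const,
      ← Finset.card_erase_of_mem (a := i0) (by simp [hi0])]
    congr 2
    ext i
    simp
  set T : ℕ → (Fin m → ℝ) → Fin m → ℝ :=
    fun n z => aff_outer γ (s (Real.log n)) i0 (Real.log n) z with hT
  set δ : Fin m → ℝ := fun i => α i - κ * γ i with hδ
  have hδ0 : ∀ i, 0 ≤ δ i := fun i => sub_nonneg.2 (hκ i)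
  have hδi0 : δ i0 = 0 := by simp [hδ, hi0]
  have hδT : ∀ n z i, δ i * T n z i = δ i * z i := fun n z i => by
    by_cases h : κ * γ i = α i
    · simp [hδ, h]
    · have h' : i ≠ i0 := fun e => h (e ▸ hi0)
      simp [hT, aff_outer, hs, h, h']
  have hsum : ∀ n z, ∑ i, γ i * T n z i = Real.log n - z i0 := fun n z =>
    sum_outer γ _ i0 _ (hγ i0) (hs0 _) z
  set G : ℕ → (Fin m → ℝ) → ℝ := fun n z =>
    Real.exp (κ * z i0 - ∑ i, δ i * z i) * ((∏ i, w i (T n z i)) * Γ n (T n z)) with hG
  have hlog : ∀ᶠ n : ℕ in atTop, 1 ≤ Real.log n :=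
    (Real.tendsto_log_atTop.comp tendsto_natCast_atTop_atTop).eventually (eventually_ge_atTop 1)
  have hG0 : ∀ n z i, T n z i ≤ 0 → G n z = 0 := fun n z i h => by
    simp only [hG]
    rw [Finset.prod_eq_zero (Finset.mem_univ i) (hwn i _ h), zero_mul, mul_zero]
  have key : Cv fun n => ∫ z, G n z := by
    obtain ⟨C1, h1⟩ := hb (2 * κ) (by positivity)
    obtain ⟨C2, h2⟩ := hb (κ / 3) (by positivity)
    set ε : Fin m → ℝ := fun i => if i = i0 then κ / 3 else δ i + κ / 3 * (γ i * a i) with hε
    have hε0 : ∀ i, 0 < ε i := fun i => by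
      simp only [hε]
      split_ifs with h
      · positivity
      · by_cases h' : κ * γ i = α i
        · have : a i = 1 := by simp [ha, h, h']
          rw [this]
          have := hδ0 i
          have := hγ i
          positivity
        · have h3 : a i = 0 := by simp [ha, h']
          have h4 : 0 < δ i := sub_pos.2 (lt_of_le_of_ne (hκ i) h')
          rw [h3]
          simpa using h4
    have hCw : 0 ≤ ∏ i, Cw i := Finset.prod_nonneg fun i _ => (hw0 i 0).1.trans (hw0 i 0).2
    set K : ℝ := Real.exp (κ / 3) * ((∏ i, Cw i) * (|C1| + |C2|)) with hK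
    refine Cv.integral volume (b := fun z => K * ∏ i, Real.exp (-(ε i * |z i|)))
      (Eventually.of_forall fun n => Measurable.aestronglyMeasurable ?_)
      (Integrable.const_mul (Integrable.fintype_prod (f := fun i x => Real.exp (-(ε i * |x|)))
        fun i => int1_outer (hε0 i)) K) ?_ (Eventually.of_forall fun z => ?_)
    · have hm := meas_outer γ (s (Real.log n)) i0 (Real.log n)
      refine Measurable.mul (by fun_prop) (Measurable.mul ?_ ((hΓ n).comp hm))
      exact Finset.measurable_prod _ fun i _ => (hwm i).comp ((measurable_pi_apply i).comp hm)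
    · filter_upwards [h1, h2, hlog] with n h1 h2 hl
      refine Eventually.of_forall fun z => ?_
      by_cases hz : ∃ i, T n z i ≤ 0
      · obtain ⟨i, hi⟩ := hz
        rw [hG0 n z i hi, abs_zero]
        positivity
      push Not at hz
      have hzp : ∀ i, i ≠ i0 → 0 < z i := fun i hi => by
        have h3 := hz i
        simp only [hT, aff_outer, hi, if_false] at h3
        exact (mul_pos_iff_of_pos_left (hspos _ (by linarith) i)).1 h3
      set S : ℝ := ∑ i ∈ Finset.univ.erase i0, γ i * a i * z i with hS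
      set P : ℝ := ∑ i ∈ Finset.univ.erase i0, δ i * z i with hP
      have e1 : ∑ i, δ i * z i = P := by
        rw [← Finset.add_sum_erase _ _ (Finset.mem_univ i0), hδi0, zero_mul, zero_add]
      have e2 : ∑ i, ε i * |z i| = κ / 3 * |z i0| + (P + κ / 3 * S) := by
        rw [← Finset.add_sum_erase _ _ (Finset.mem_univ i0), hP, hS, Finset.mul_sum,
          ← Finset.sum_add_distrib]
        congr 1
        · simp [hε]
        · refine Finset.sum_congr rfl fun i hi => ?_
          have h3 := Finset.ne_of_mem_erase hi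
          simp only [hε, h3, if_false, abs_of_pos (hzp i h3)]
          ring
      have e3 : Real.log n * S ≤ Real.log n - z i0 := by
        rw [← hsum n z, ← Finset.add_sum_erase _ _ (Finset.mem_univ i0), hS, Finset.mul_sum]
        refine le_add_of_nonneg_of_le (mul_pos (hγ i0) (hz i0)).le
          (Finset.sum_le_sum fun i hi => ?_)
        have h3 := Finset.ne_of_mem_erase hi
        simp only [hT, aff_outer, h3, if_false, hsa]
        have h4 := mul_nonneg (mul_nonneg (hγ i).le (sub_nonneg.2 (ha1 i))) (hzp i h3).le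
        nlinarith
      have hw : |∏ i, w i (T n z i)| ≤ ∏ i, Cw i := by
        rw [abs_of_nonneg (Finset.prod_nonneg fun i _ => (hw0 i _).1)]
        exact Finset.prod_le_prod (fun i _ => (hw0 i _).1) fun i _ => (hw0 i _).2
      have main : ∀ lam C : ℝ, |C| ≤ |C1| + |C2| →
          |Γ n (T n z)| ≤ C * Real.exp (-(lam * (Real.log n - ∑ i, γ i * T n z i))) →
          (κ - lam) * z i0 + κ / 3 * |z i0| + κ / 3 * S ≤ κ / 3 →
          |G n z| ≤ K * ∏ i, Real.exp (-(ε i * |z i|)) := by
        intro lam C hC h3 h4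
        rw [hsum, sub_sub_cancel] at h3
        have h5 : |Γ n (T n z)| ≤ (|C1| + |C2|) * Real.exp (-(lam * z i0)) :=
          h3.trans (mul_le_mul_of_nonneg_right ((le_abs_self C).trans hC) (Real.exp_pos _).le)
        rw [← Real.exp_sum, Finset.sum_neg_distrib, e2]
        simp only [hG]
        rw [abs_mul, abs_mul, abs_of_pos (Real.exp_pos _), e1]
        calc Real.exp (κ * z i0 - P) * (|∏ i, w i (T n z i)| * |Γ n (T n z)|)
            ≤ Real.exp (κ * z i0 - P) *
              ((∏ i, Cw i) * ((|C1| + |C2|) * Real.exp (-(lam * z i0)))) :=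
              mul_le_mul_of_nonneg_left (mul_le_mul hw h5 (abs_nonneg _) hCw) (Real.exp_pos _).le
          _ = ((∏ i, Cw i) * (|C1| + |C2|)) * Real.exp (κ * z i0 - P + -(lam * z i0)) := by
              rw [Real.exp_add]
              ring
          _ ≤ ((∏ i, Cw i) * (|C1| + |C2|)) *
              Real.exp (κ / 3 + -(κ / 3 * |z i0| + (P + κ / 3 * S))) :=
              mul_le_mul_of_nonneg_left (Real.exp_le_exp.2 (by linarith)) (by positivity)
          _ = _ := by
              rw [Real.exp_add, hK]
              ring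
      rcases le_or_gt 0 (z i0) with h3 | h3
      · refine main _ C1 (le_add_of_nonneg_right (abs_nonneg _)) (h1 _ hz) ?_
        have h4 : S ≤ 1 := by
          by_contra h5
          push Not at h5
          nlinarith
        rw [abs_of_nonneg h3]
        nlinarith
      · refine main _ C2 (le_add_of_nonneg_left (abs_nonneg _)) (h2 _ hz) ?_
        have h4 : S ≤ 1 - z i0 := by
          by_contra h5
          push Not at h5
          nlinarith
        rw [abs_of_neg h3]
        nlinarith
    · have haff : ∀ i, ∃ A B : ℝ, ∀ n : ℕ, T n z i = A * Real.log n + B := fun i => by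
        by_cases h : i = i0
        · refine ⟨(1 - ∑ k, (if k = i0 then 1 else γ k) * (a k * z k)) / γ i0,
            -(∑ k, (if k = i0 then 1 else γ k) * ((1 - a k) * z k)) / γ i0, fun n => ?_⟩
          simp only [hT, aff_outer, h, if_true, hsa]
          rw [div_mul_eq_mul_div, ← add_div, sub_mul, Finset.sum_mul, one_mul, ← sub_eq_add_neg,
            sub_sub, ← Finset.sum_add_distrib]
          congr 2
          exact Finset.sum_congr rfl fun k _ => by ring
        · refine ⟨a i * z i, (1 - a i) * z i, fun n => ?_⟩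
          simp only [hT, aff_outer, h, if_false, hsa]
          ring
      choose A B hAB using haff
      by_cases hz : ∃ i, ∀ᶠ n : ℕ in atTop, A i * Real.log n + B i ≤ 0
      · obtain ⟨i, hi⟩ := hz
        refine (Cv.const 0).congr ?_
        filter_upwards [hi] with n hn
        exact (hG0 n z i (by rw [hAB]; exact hn)).symm
      have hgood := fun i => (tri_outer (A i) (B i)).resolve_left fun h => hz ⟨i, h⟩
      have halt : ∀ i, Tendsto (fun n => T n z i) atTop atTop ∨
          ∃ a, ∀ᶠ n in atTop, T n z i = a := fun i => by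
        simp only [hAB]
        exact (hgood i).2
      refine (Cv.const _).mul (Cv.mul (Cv.prod _ fun i _ => ?_) (hc (fun n => T n z) (z i0) ?_ halt))
      · rcases halt i with h | ⟨c, h⟩
        · obtain ⟨L, hL⟩ := hwl i
          exact ⟨L, hL.comp h⟩
        · refine (Cv.const (w i c)).congr ?_
          filter_upwards [h] with n hn
          rw [hn]
      · filter_upwards [eventually_all.2 fun i => (hgood i).1] with n hn
        exact ⟨fun i => by rw [hAB]; exact hn i, hsum n z⟩
  refine ((Cv.const (γ i0)⁻¹).mul key).congr ?_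
  filter_upwards [hlog, eventually_gt_atTop 0] with n hl hn
  have hn' : (0 : ℝ) < n := by exact_mod_cast hn
  have hl' : 0 < Real.log n := by linarith
  have hf : Measurable fun t : Fin m → ℝ =>
      (∏ i, w i (t i) * Real.exp (-(α i * t i))) * Γ n t :=
    Measurable.mul (Finset.measurable_prod _ fun i _ =>
      ((hwm i).comp (measurable_pi_apply i)).mul (by fun_prop)) (hΓ n)
  rw [cov_outer γ (s (Real.log n)) i0 (Real.log n) (hγ i0) (hspos _ hl') _ hf, hprod]
  have e1 : ∀ z, G n z = Real.exp (κ * Real.log n) *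
      ((∏ i, w i (T n z i) * Real.exp (-(α i * T n z i))) * Γ n (T n z)) := fun z => by
    have e2 : ∑ i, -(α i * T n z i) = -(κ * (Real.log n - z i0) + ∑ i, δ i * z i) := by
      rw [← hsum n z, Finset.mul_sum, ← Finset.sum_add_distrib, ← Finset.sum_neg_distrib]
      refine Finset.sum_congr rfl fun i _ => ?_
      rw [← hδT n z i]
      simp only [hδ]
      ring
    simp only [hG]
    rw [Finset.prod_mul_distrib, ← Real.exp_sum, e2,
      show κ * z i0 - ∑ i, δ i * z i =
        κ * Real.log n + -(κ * (Real.log n - z i0) + ∑ i, δ i * z i) by ring, Real.exp_add]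
    ring
  have e3 : (n : ℝ) ^ (1 - κ) * Real.exp (κ * Real.log n) = n := by
    rw [Real.rpow_def_of_pos hn', ← Real.exp_add,
      show Real.log n * (1 - κ) + κ * Real.log n = Real.log n by ring, Real.exp_log hn']
  have e4 : (0 : ℝ) < (n : ℝ) ^ (1 - κ) := Real.rpow_pos_of_pos hn' _
  have e5 : Real.exp (κ * Real.log n) = n / (n : ℝ) ^ (1 - κ) := by
    rw [eq_div_iff e4.ne', mul_comm, e3]
  simp only [e1]
  rw [integral_const_mul, e5]
  have e6 := (hγ i0).ne'
  simp only [hT]
  field_simp

end Pool.Agent.Lib.MP_258d0c_pr.Lim
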