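import Pool.Agent.Lib.MP_258d0c_pr.Lim.Cv

/-! The law of the logarithmic depths. -/

open MeasureTheory ProbabilityTheory Filter Topology
open scoped ENNReal Classical InnerProductSpace

namespace Pool.Agent.Lib.MP_258d0c_pr.Lim

variable {m : ℕ} {d : Fin m → ℕ} {β : Fin m → ℝ}

theorem measurable_om (k : ℕ) (b c : ℝ) : Measurable (om k b c) := by
  unfold om
  refine Measurable.ite measurableSet_Ioi ?_ measurable_const
  exact (measurable_const.mul (by fun_prop)).mul
    (Measurable.pow_const (by fun_prop) b)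

theorem om_bounds (k : ℕ) {b c : ℝ} (hb : 0 ≤ b) (hc : 0 ≤ c) (t : ℝ) :
    0 ≤ om k b c t ∧ om k b c t ≤ c * 2 ^ b := by
  unfold om
  split_ifs with ht
  · have h0 := Real.exp_pos (-t)
    have h1 : Real.exp (-t) ≤ 1 := Real.exp_le_one_iff.mpr (by linarith)
    have h2 : 0 ≤ (1 - Real.exp (-t)) ^ (k - 1) := pow_nonneg (by linarith) _
    have h3 : (1 - Real.exp (-t)) ^ (k - 1) ≤ 1 := pow_le_one₀ (by linarith) (by linarith)
    have h4 : 0 ≤ (2 - Real.exp (-t)) ^ b := Real.rpow_nonneg (by linarith) _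
    have h5 : (2 - Real.exp (-t)) ^ b ≤ 2 ^ b := Real.rpow_le_rpow (by linarith) (by linarith) hb
    refine ⟨by positivity, ?_⟩
    rw [mul_assoc]
    refine mul_le_mul_of_nonneg_left ?_ hc
    calc _ ≤ 1 * (2 - Real.exp (-t)) ^ b := mul_le_mul_of_nonneg_right h3 h4
      _ ≤ 2 ^ b := by rw [one_mul]; exact h5
  · exact ⟨le_rfl, by positivity⟩

theorem om_tendsto (k : ℕ) (b c : ℝ) : Tendsto (om k b c) atTop (𝓝 (c * 2 ^ b)) := by
  have h0 : Tendsto (fun t : ℝ => Real.exp (-t)) atTop (𝓝 0) := Real.tendsto_exp_neg_atTop_nhds_zero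
  have h1 : Tendsto (fun t : ℝ => (1 - Real.exp (-t)) ^ (k - 1)) atTop (𝓝 ((1 - 0) ^ (k - 1))) :=
    (tendsto_const_nhds.sub h0).pow _
  have h2 : Tendsto (fun t : ℝ => (2 - Real.exp (-t)) ^ b) atTop (𝓝 ((2 - 0) ^ b)) :=
    (tendsto_const_nhds.sub h0).rpow_const (Or.inl (by norm_num))
  have h3 := ((tendsto_const_nhds (x := c)).mul h1).mul h2
  simp only [sub_zero, one_pow, mul_one] at h3
  refine h3.congr' ?_
  filter_upwards [eventually_gt_atTop (0 : ℝ)] with t ht
  rw [om, if_pos ht]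

theorem lintegral_norm_Radial {k : ℕ} (hk : 1 ≤ k) (f : ℝ → ℝ≥0∞) (hf : Measurable f) :
    ∫⁻ x : EuclideanSpace ℝ (Fin k), f ‖x‖ =
      (volume : Measure (EuclideanSpace ℝ (Fin k))).toSphere Set.univ *
        ∫⁻ r in Set.Ioi (0 : ℝ), ENNReal.ofReal (r ^ (k - 1)) * f r := by
  have : Nonempty (Fin k) := ⟨⟨0, hk⟩⟩
  have hm : Measurable fun y : Metric.sphere (0 : EuclideanSpace ℝ (Fin k)) 1 × Set.Ioi (0 : ℝ) =>
      f y.2.1 := hf.comp (measurable_subtype_coe.comp measurable_snd)
  have h1 := (volume : Measure (EuclideanSpace ℝ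
    (Fin k))).measurePreserving_homeomorphUnitSphereProd.lintegral_comp hm
  simp only [homeomorphUnitSphereProd_apply_snd_coe, finrank_euclideanSpace,
    Fintype.card_fin] at h1
  rw [lintegral_subtype_comap (measurableSet_singleton _).compl
    (fun x : EuclideanSpace ℝ (Fin k) => f ‖x‖), restrict_compl_singleton] at h1
  rw [h1, lintegral_prod _ hm.aemeasurable]
  simp only [lintegral_const]
  have hf' : Measurable fun y : Set.Ioi (0 : ℝ) => f y.1 := hf.comp measurable_subtype_coe
  rw [mul_comm, Measure.volumeIoiPow,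
    lintegral_withDensity_eq_lintegral_mul _ (by fun_prop) hf']
  congr 1
  exact lintegral_subtype_comap measurableSet_Ioi
    (fun r : ℝ => ENNReal.ofReal (r ^ (k - 1)) * f r)

theorem image_exp_Radial :
    (fun t : ℝ => 1 - Real.exp (-t)) '' Set.Ioi 0 = Set.Ioo 0 1 := by
  ext r
  constructor
  · rintro ⟨t, ht, rfl⟩
    have h0 := Real.exp_pos (-t)
    have h1 : Real.exp (-t) < 1 := Real.exp_lt_one_iff.mpr (by simpa using ht)
    exact ⟨by simp only; linarith, by simp only; linarith⟩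
  · rintro ⟨h0, h1⟩
    refine ⟨-Real.log (1 - r), ?_, ?_⟩
    · have := Real.log_neg (show 0 < 1 - r by linarith) (by linarith)
      simpa using this
    · simp only [neg_neg]
      rw [Real.exp_log (by linarith)]
      ring

theorem radial_one {k : ℕ} (hk : 1 ≤ k) {b : ℝ} (hb : 0 ≤ b) : ∃ c : ℝ, 0 ≤ c ∧
    (oneBlock k b).map (fun x => -Real.log (1 - ‖x‖)) =
      volume.withDensity fun t => ENNReal.ofReal (om k b c t * Real.exp (-((1 + b) * t))) := by
  obtain ⟨c0, hc0, hone⟩ := oneBlock_eq k hb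
  set T : ℝ≥0∞ := (volume : Measure (EuclideanSpace ℝ (Fin k))).toSphere Set.univ with hT
  have hTt : T ≠ ⊤ := measure_ne_top _ _
  refine ⟨c0 * T.toReal, by positivity, Measure.ext fun s hs => ?_⟩
  have hψ : Measurable fun r : ℝ => -Real.log (1 - r) := by fun_prop
  have hφ : Measurable fun x : EuclideanSpace ℝ (Fin k) => -Real.log (1 - ‖x‖) :=
    hψ.comp measurable_norm
  have hg : Measurable fun r : ℝ => ENNReal.ofReal ((1 - r ^ 2) ^ b) :=
    ENNReal.measurable_ofReal.comp (Measurable.pow_const (by fun_prop) b)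
  set g : ℝ → ℝ≥0∞ := ((fun r : ℝ => -Real.log (1 - r)) ⁻¹' s).indicator
    fun r => ENNReal.ofReal ((1 - r ^ 2) ^ b) with hgdef
  have hgm : Measurable g := hg.indicator (hψ hs)
  have e1 : ∫⁻ x in (fun x : EuclideanSpace ℝ (Fin k) => -Real.log (1 - ‖x‖)) ⁻¹' s,
      ENNReal.ofReal ((1 - ‖x‖ ^ 2) ^ b) ∂(volume.restrict (Metric.closedBall 0 1)) =
      ∫⁻ x : EuclideanSpace ℝ (Fin k), (Set.Iic (1 : ℝ)).indicator g ‖x‖ := by
    rw [← lintegral_indicator (hφ hs), ← lintegral_indicator measurableSet_closedBall]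
    refine lintegral_congr fun x => ?_
    by_cases hx : ‖x‖ ≤ 1
    · rw [Set.indicator_of_mem (mem_closedBall_zero_iff.mpr hx),
        Set.indicator_of_mem (Set.mem_Iic.mpr hx)]
      rfl
    · rw [Set.indicator_of_notMem (fun h => hx (mem_closedBall_zero_iff.mp h)),
        Set.indicator_of_notMem (fun h => hx (Set.mem_Iic.mp h))]
  have e2 : ∫⁻ r in Set.Ioi (0 : ℝ), ENNReal.ofReal (r ^ (k - 1)) *
      (Set.Iic (1 : ℝ)).indicator g r =
      ∫⁻ r in Set.Ioo (0 : ℝ) 1, ENNReal.ofReal (r ^ (k - 1)) * g r := by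
    rw [setLIntegral_congr Ioo_ae_eq_Ioc, ← Set.Iic_inter_Ioi,
      ← Measure.restrict_restrict measurableSet_Iic, ← lintegral_indicator measurableSet_Iic]
    refine lintegral_congr fun r => ?_
    by_cases hr : r ∈ Set.Iic (1 : ℝ)
    · rw [Set.indicator_of_mem hr, Set.indicator_of_mem hr]
    · rw [Set.indicator_of_notMem hr, Set.indicator_of_notMem hr, mul_zero]
  have e3 := lintegral_image_eq_lintegral_abs_deriv_mul (s := Set.Ioi (0 : ℝ))
    (f := fun t : ℝ => 1 - Real.exp (-t)) (f' := fun t => Real.exp (-t)) measurableSet_Ioi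
    (fun t _ => by
      have := ((hasDerivAt_neg t).exp.const_sub 1).hasDerivWithinAt (s := Set.Ioi (0 : ℝ))
      simpa using this)
    (fun t _ u _ h => by
      have h' : Real.exp (-t) = Real.exp (-u) := by simp only at h; linarith
      exact neg_injective (Real.exp_injective h'))
    (fun r => ENNReal.ofReal (r ^ (k - 1)) * g r)
  rw [image_exp_Radial] at e3
  rw [Measure.map_apply hφ hs, hone, Measure.smul_apply, smul_eq_mul, withDensity_apply _ (hφ hs),
    e1, lintegral_norm_Radial hk _ (hgm.indicator measurableSet_Iic), e2, e3, ← hT, ← mul_assoc,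
    ← lintegral_const_mul' _ _ (ENNReal.mul_ne_top ENNReal.ofReal_ne_top hTt),
    withDensity_apply _ hs, ← lintegral_indicator hs, ← lintegral_indicator measurableSet_Ioi]
  refine lintegral_congr fun t => ?_
  by_cases ht : 0 < t
  · rw [Set.indicator_of_mem (Set.mem_Ioi.mpr ht)]
    have h0 := Real.exp_pos (-t)
    have h1 : Real.exp (-t) ≤ 1 := Real.exp_le_one_iff.mpr (by linarith)
    have hl : -Real.log (1 - (1 - Real.exp (-t))) = t := by
      rw [sub_sub_cancel, Real.log_exp, neg_neg]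
    by_cases hts : t ∈ s
    · rw [Set.indicator_of_mem hts, hgdef,
        Set.indicator_of_mem (show 1 - Real.exp (-t) ∈ _ by rw [Set.mem_preimage, hl]; exact hts),
        om, if_pos ht, abs_of_pos h0]
      have h2 : 0 ≤ (1 - Real.exp (-t)) ^ (k - 1) := pow_nonneg (by linarith) _
      have h3 : (1 - (1 - Real.exp (-t)) ^ 2) ^ b = Real.exp (-(b * t)) * (2 - Real.exp (-t)) ^ b := by
        rw [show 1 - (1 - Real.exp (-t)) ^ 2 = Real.exp (-t) * (2 - Real.exp (-t)) by ring,
          Real.mul_rpow h0.le (by linarith), ← Real.exp_mul]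
        congr 2
        ring
      have h4 : Real.exp (-((1 + b) * t)) = Real.exp (-t) * Real.exp (-(b * t)) := by
        rw [← Real.exp_add]
        congr 1
        ring
      conv_lhs => rw [← ENNReal.ofReal_toReal hTt]
      rw [← ENNReal.ofReal_mul hc0.le, ← ENNReal.ofReal_mul h2, ← ENNReal.ofReal_mul h0.le,
        ← ENNReal.ofReal_mul (by positivity), h3, h4]
      congr 1
      ring
    · rw [Set.indicator_of_notMem hts, hgdef,
        Set.indicator_of_notMem (show 1 - Real.exp (-t) ∉ _ by rw [Set.mem_preimage, hl]; exact hts)]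
      simp
  · rw [Set.indicator_of_notMem (fun h => ht (Set.mem_Ioi.mp h))]
    by_cases hts : t ∈ s
    · rw [Set.indicator_of_mem hts, om, if_neg ht]
      simp
    · rw [Set.indicator_of_notMem hts]

theorem radial (hd : ∀ i, 1 ≤ d i) (hβ : ∀ i, 0 ≤ β i) : ∃ c : Fin m → ℝ, (∀ i, 0 ≤ c i) ∧
    ∀ F : (Fin m → ℝ) → ℝ, Measurable F →
      ∫ x, F (fun i => -Real.log (1 - ‖x i‖)) ∂(blockBeta d β) =
        ∫ t : Fin m → ℝ, (∏ i, om (d i) (β i) (c i) (t i) * Real.exp (-(alp β i * t i))) * F t := by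
  choose c hc h using fun i => radial_one (hd i) (hβ i)
  refine ⟨c, hc, fun F hF => ?_⟩
  have := fun i => oneBlock_prob (d i) (hβ i)
  have hf : ∀ i, Measurable fun t : ℝ =>
      om (d i) (β i) (c i) t * Real.exp (-((1 + β i) * t)) := fun i =>
    (measurable_om _ _ _).mul (by fun_prop)
  have h0 : ∀ i (t : ℝ), 0 ≤ om (d i) (β i) (c i) t * Real.exp (-((1 + β i) * t)) := fun i t =>
    mul_nonneg (om_bounds _ (hβ i) (hc i) t).1 (Real.exp_pos _).le
  have hmp : ∀ i, MeasurePreserving
      (fun x : EuclideanSpace ℝ (Fin (d i)) => -Real.log (1 - ‖x‖)) (oneBlock (d i) (β i))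
      (volume.withDensity fun t =>
        ENNReal.ofReal (om (d i) (β i) (c i) t * Real.exp (-((1 + β i) * t)))) := fun i =>
    ⟨by fun_prop, h i⟩
  have hp := measurePreserving_pi _ _ hmp
  rw [pi_withDensity (fun _ => volume) _ hf h0] at hp
  have hP : Measurable fun t : Fin m → ℝ =>
      ∏ i, om (d i) (β i) (c i) (t i) * Real.exp (-((1 + β i) * t i)) :=
    Finset.measurable_prod _ fun i _ => (hf i).comp (measurable_pi_apply i)
  rw [blockBeta_eq_pi d hβ, ← integral_map hp.measurable.aemeasurable hF.aestronglyMeasurable,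
    hp.map_eq, integral_withDensity_eq_integral_toReal_smul hP.ennreal_ofReal
      (Eventually.of_forall fun _ => ENNReal.ofReal_lt_top)]
  refine integral_congr_ae (Eventually.of_forall fun t => ?_)
  simp only [smul_eq_mul, alp]
  rw [ENNReal.toReal_ofReal (Finset.prod_nonneg fun i _ => h0 i (t i))]

end Pool.Agent.Lib.MP_258d0c_pr.Lim
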