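import Pool.Agent.Lib.MP_258d0c_pr.Lim.Bound
import Pool.Agent.Lib.MP_258d0c_pr.Lim.LocM
import Pool.Agent.Lib.MP_258d0c_pr.Lim.Radial
import Pool.Agent.Lib.MP_258d0c_pr.Lim.Outer

/-! The normalised variance converges. -/

open MeasureTheory ProbabilityTheory Filter Topology
open scoped ENNReal Classical InnerProductSpace

namespace Pool.Agent.Lib.MP_258d0c_pr.Lim

variable {m : ℕ} {d : Fin m → ℕ} {β : Fin m → ℝ}

/-- the point with logarithmic depths `t` on the reference ray -/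
noncomputable def xs (hd : ∀ i, 1 ≤ d i) (t : Fin m → ℝ) : Amb d :=
  fun i => (1 - Real.exp (-t i)) • lgO hd i

theorem xs_norm (hd : ∀ i, 1 ≤ d i) {t : Fin m → ℝ} (ht : ∀ i, 0 ≤ t i) (i : Fin m) :
    ‖xs hd t i‖ = 1 - Real.exp (-t i) := by
  have h : Real.exp (-t i) ≤ 1 := Real.exp_le_one_iff.2 (by linarith [ht i])
  simp [xs, lgO, norm_smul, abs_of_nonneg (sub_nonneg.2 h)]

theorem xs_cont (hd : ∀ i, 1 ≤ d i) : Continuous (xs hd) := by
  unfold xs
  fun_prop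

theorem exp_ok {t : Fin m → ℝ} (ht : ∀ i, 0 ≤ t i) (i : Fin m) :
    0 < Real.exp (-t i) ∧ Real.exp (-t i) ≤ 1 :=
  ⟨Real.exp_pos _, Real.exp_le_one_iff.2 (by linarith [ht i])⟩

theorem prod_exp (γ t : Fin m → ℝ) :
    ∏ i, Real.exp (-t i) ^ γ i = Real.exp (-∑ i, γ i * t i) := by
  rw [← Finset.sum_neg_distrib, Real.exp_sum]
  refine Finset.prod_congr rfl fun i _ => ?_
  rw [← Real.exp_mul]
  ring_nf

theorem bj_xs_le (hm : 1 ≤ m) (hd : ∀ i, 1 ≤ d i) (hβ : ∀ i, 0 ≤ β i) {D : ℕ} (hD : 1 ≤ D)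
    {lam : ℝ} (hlam : 0 < lam) : ∃ C : ℝ, 0 ≤ C ∧ ∀ n : ℕ, D + 6 ≤ n → ∀ (j : ℕ) (t : Fin m → ℝ),
      (∀ i, 0 < t i) → |bj (blockBeta d β) D n j (xs hd t)| ≤
        C * Real.exp (-(lam * (Real.log n - ∑ i, gam d β i * t i))) := by
  obtain ⟨C, hC, h⟩ := bj_bound hm hd hβ hD hlam
  refine ⟨C, hC, fun n hn j t ht => ?_⟩
  have ht' : ∀ i, 0 ≤ t i := fun i => (ht i).le
  have hn0 : (0 : ℝ) < n := by exact_mod_cast (by omega : 0 < n)
  refine (h n hn j _ fun i => ?_).trans (mul_le_mul_of_nonneg_left ?_ hC)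
  · rw [xs_norm hd ht']
    linarith [Real.exp_pos (-t i)]
  have e1 : Real.exp (Real.log n - ∑ i, gam d β i * t i) ≤ n * tau (gam d β) (xs hd t) := by
    rw [sub_eq_add_neg, Real.exp_add, Real.exp_log hn0, ← prod_exp]
    refine mul_le_mul_of_nonneg_left (Finset.prod_le_prod
      (fun i _ => Real.rpow_nonneg (Real.exp_pos _).le _) fun i _ => ?_) hn0.le
    refine Real.rpow_le_rpow (Real.exp_pos _).le ?_ (zero_le_one.trans (one_le_gam hd hβ i))
    obtain ⟨a1, a2⟩ := exp_ok ht' i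
    rw [hh, xs_norm hd ht']
    nlinarith
  refine (Real.rpow_le_rpow_of_nonpos (Real.exp_pos _) e1 (by linarith)).trans (le_of_eq ?_)
  rw [← Real.exp_mul]
  ring_nf

/-- the averaged one-point term -/
noncomputable def Gam (hd : ∀ i, 1 ≤ d i) (β : Fin m → ℝ) (n : ℕ) (t : Fin m → ℝ) : ℝ :=
  (∑ j ∈ Finset.range n, bj (blockBeta d β) (∑ i, d i) n j (xs hd t)) / n

theorem Gam_cv (hm : 1 ≤ m) (hd : ∀ i, 1 ≤ d i) (hβ : ∀ i, 0 ≤ β i) (t : ℕ → Fin m → ℝ) (ζ : ℝ)
    (h1 : ∀ᶠ n : ℕ in atTop, (∀ i, 0 < t n i) ∧ ∑ i, gam d β i * t n i = Real.log n - ζ)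
    (h2 : ∀ i, Tendsto (fun n => t n i) atTop atTop ∨ ∃ a, ∀ᶠ n in atTop, t n i = a) :
    Cv fun n => Gam hd β n (t n) := by
  have hD := one_le_sum hm hd
  have hs : ∀ i, ∃ s0 : ℝ, 0 ≤ s0 ∧ (∀ᶠ n in atTop, s0 ≤ Real.exp (-t n i)) ∧
      Tendsto (fun n => Real.exp (-t n i)) atTop (𝓝 s0) := fun i => by
    rcases h2 i with h | ⟨a, h⟩
    · exact ⟨0, le_rfl, Eventually.of_forall fun n => (Real.exp_pos _).le,
        Real.tendsto_exp_neg_atTop_nhds_zero.comp h⟩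
    · exact ⟨Real.exp (-a), (Real.exp_pos _).le, h.mono fun n e => by rw [e],
        tendsto_const_nhds.congr' (h.mono fun n e => by simp only [e])⟩
  choose s0 a1 a2 a3 using hs
  have hL := loc_mus hm hd hβ (s := fun n i => Real.exp (-t n i)) (Real.exp_pos ζ) a1 (by
    filter_upwards [h1, eventually_all.2 a2, eventually_gt_atTop 0] with n b1 b2 b3
    have hn0 : (0 : ℝ) < n := by exact_mod_cast b3
    refine ⟨fun i => ⟨Real.exp_pos _, Real.exp_lt_one_iff.2 (by linarith [b1.1 i]), b2 i⟩, ?_⟩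
    rw [prod_exp, b1.2, neg_sub, Real.exp_sub, Real.exp_log hn0]
    field_simp) a3
  obtain ⟨C, -, hC⟩ := bj_xs_le hm hd hβ hD one_pos
  refine Cv.average (b := fun n j => bj (blockBeta d β) (∑ i, d i) n j (xs hd (t n)))
    (C := C * Real.exp (-ζ)) ?_ fun u hu0 hu1 => ?_
  · filter_upwards [h1, eventually_ge_atTop (∑ i, d i + 6)] with n b1 b2 j
    refine (hC n b2 j _ b1.1).trans (le_of_eq ?_)
    rw [b1.2]
    ring_nf
  · have h := bj_cv hL (by rw [finrank_amb]; exact hD) hu0 hu1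
    rw [finrank_amb] at h
    refine h.congr (h1.mono fun n b1 => ?_)
    have ht' : ∀ i, 0 ≤ t n i := fun i => (b1.1 i).le
    exact (bj_chart hd hβ (xs_norm hd ht') (exp_ok ht') _ _ _).symm

theorem sum_bj_eq (hd : ∀ i, 1 ≤ d i) (hβ : ∀ i, 0 ≤ β i) {n : ℕ} (hn : 0 < n) :
    ∑ j ∈ Finset.range n, ∫ x, bj (blockBeta d β) (∑ i, d i) n j x ∂(blockBeta d β) =
      n * ∫ x, Gam hd β n (fun i => -Real.log (1 - ‖x i‖)) ∂(blockBeta d β) := by
  have := blockBeta_prob d hβ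
  have hn0 : (n : ℝ) ≠ 0 := by exact_mod_cast hn.ne'
  rw [← integral_finsetSum _ fun j _ => Integrable.of_bound
    (measurable_bj _ _ n j).aestronglyMeasurable _
    (Eventually.of_forall fun x => abs_bj_le _ _ n j x), ← integral_const_mul]
  refine integral_congr_ae ?_
  filter_upwards [ints_ae hd hβ] with x hx
  rw [Gam, mul_div_cancel₀ _ hn0]
  refine Finset.sum_congr rfl fun j _ => ?_
  have e : ∀ i, Real.exp (- -Real.log (1 - ‖x i‖)) = 1 - ‖x i‖ := fun i => by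
    rw [neg_neg, Real.exp_log (by linarith [hx i])]
  have ht : ∀ i, 0 ≤ -Real.log (1 - ‖x i‖) := fun i => neg_nonneg.2
    (Real.log_nonpos (by linarith [hx i]) (by linarith [norm_nonneg (x i)]))
  rw [bj_chart hd hβ (xs_norm hd ht) (exp_ok ht),
    bj_chart hd hβ (x := x) (fun i => by rw [e]; ring) (exp_ok ht)]

theorem order_div (hm : 1 ≤ m) (hd : ∀ i, 1 ≤ d i) (hβ : ∀ i, 0 ≤ β i) :
    Tendsto (fun n : ℕ => order d β n / n) atTop (𝓝 0) := by
  have hk := kap_pos hm hd hβ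
  have h := (isLittleO_log_rpow_rpow_atTop ((kMult d β - 1 : ℕ) : ℝ) hk).tendsto_div_nhds_zero
  refine (h.comp tendsto_natCast_atTop_atTop).congr' ?_
  filter_upwards [eventually_gt_atTop 0] with n hn
  have hn0 : (0 : ℝ) < n := by exact_mod_cast hn
  simp only [Function.comp, Real.rpow_natCast]
  rw [order_eq hm hd hβ, Real.rpow_sub hn0, Real.rpow_one]
  field_simp

theorem var_limit (hm : 1 ≤ m) (hd : ∀ i, 1 ≤ d i) (hβ : ∀ i, 0 ≤ β i) (h2 : 2 ≤ ∑ i, d i) :
    ∃ v : ℝ, 0 < v ∧ Tendsto (fun n : ℕ =>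
      Var[fun X : Fin n → Amb d => facets X; sample d β n] / order d β n) atTop (𝓝 v) := by
  have := blockBeta_prob d hβ
  have hD := one_le_sum hm hd
  obtain ⟨c, hc0, hc⟩ := radial hd hβ
  have hΓ : ∀ n, Measurable (Gam hd β n) := fun n =>
    (Finset.measurable_sum _ fun j _ =>
      (measurable_bj _ _ n j).comp (xs_cont hd).measurable).div_const _
  obtain ⟨v, hv⟩ := outer_cv (alp β) (gam d β) (fun i => one_pos.trans_le (one_le_gam hd hβ i))
    (kap_pos hm hd hβ) (kap_mul_le hm hd hβ) (exists_kap_eq hm hd hβ)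
    (fun i => om (d i) (β i) (c i)) (fun i => measurable_om _ _ _) (fun i => c i * 2 ^ β i)
    (fun i t => om_bounds _ (hβ i) (hc0 i) t) (fun i t ht => if_neg ht.not_gt)
    (fun i => ⟨_, om_tendsto _ _ _⟩) (Gam hd β) hΓ (fun lam hlam => by
      obtain ⟨C, -, hC⟩ := bj_xs_le hm hd hβ hD hlam
      refine ⟨C, ?_⟩
      filter_upwards [eventually_ge_atTop (∑ i, d i + 6)] with n hn t ht
      have hn0 : (0 : ℝ) < n := by exact_mod_cast (by omega : 0 < n)
      rw [Gam, abs_div, abs_of_pos hn0, div_le_iff₀ hn0]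
      refine (Finset.abs_sum_le_sum_abs _ _).trans
        ((Finset.sum_le_card_nsmul _ _ _ fun j _ => hC n hn j t ht).trans (le_of_eq ?_))
      rw [Finset.card_range, nsmul_eq_mul, mul_comm]) (Gam_cv hm hd hβ)
  obtain ⟨A, B, -, -, hB⟩ := exists_bounds hm hd hβ (∑ i, d i)
  have herr : Tendsto (fun n : ℕ =>
      (Var[fun X : Fin n → Amb d => facets X; sample d β n] -
        ∑ j ∈ Finset.range n, ∫ x, bj (blockBeta d β) (∑ i, d i) n j x ∂(blockBeta d β)) /
          order d β n) atTop (𝓝 0) := by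
    refine squeeze_zero_norm' ?_ (by simpa using (order_div hm hd hβ).const_mul (B ^ 2))
    filter_upwards [eventually_ge_atTop (∑ i, d i + 6)] with n hn
    obtain ⟨K, w, hb⟩ := hB n (by omega)
    have ho := order_pos d β (n := n) (by omega)
    rw [var_facets_eq hm hd hβ (by omega), Real.norm_eq_abs, abs_div, abs_of_pos ho,
      div_le_iff₀ ho]
    refine (var_split hb hD hn).trans (le_of_eq ?_)
    ring
  have hlim : Tendsto (fun n : ℕ =>
      Var[fun X : Fin n → Amb d => facets X; sample d β n] / order d β n) atTop (𝓝 v) := by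
    have h := herr.add hv
    rw [zero_add] at h
    refine h.congr' ?_
    filter_upwards [eventually_gt_atTop 0] with n hn
    rw [sum_bj_eq hd hβ hn, hc _ (hΓ n), ← kMult_eq hm hd hβ, ← order_eq hm hd hβ]
    ring
  obtain ⟨c1, C1, hc1, n0, hn0⟩ := var_two_sided hm hd hβ h2
  refine ⟨v, hc1.trans_le (ge_of_tendsto hlim ?_), hlim⟩
  filter_upwards [eventually_ge_atTop n0, eventually_ge_atTop 2] with n b1 b2
  rw [le_div_iff₀ (order_pos d β b2)]
  exact (hn0 n b1).1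

end Pool.Agent.Lib.MP_258d0c_pr.Lim
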