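import Pool.Agent.Lib.MP_258d0c_pr.Lim.Cv

/-! Conditioning on the marked points; counting labelled embeddings. -/

open MeasureTheory ProbabilityTheory Filter Topology
open scoped ENNReal Classical InnerProductSpace

namespace Pool.Agent.Lib.MP_258d0c_pr.Lim

theorem mecke {E : Type} [MeasurableSpace E] (μ : Measure E) [IsProbabilityMeasure μ]
    {P ι : Type} [Fintype P] [Fintype ι] (e : P ↪ ι) {χ : Set (P → E)} (hχ : MeasurableSet χ)
    (A : ι → Set ((P → E) × E)) (hA : ∀ i, MeasurableSet (A i)) :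
    (iid ι μ).real {U | (fun p => U (e p)) ∈ χ ∧
        ∀ i, (∀ p, e p ≠ i) → ((fun p => U (e p)), U i) ∉ A i} =
      ∫ y in χ, ∏ i ∈ Finset.univ.filter (fun i => ∀ p, e p ≠ i),
        (1 - μ.real {w | (y, w) ∈ A i}) ∂(iid P μ) := by
  let J : Type := {i : ι // ∀ p, e p ≠ i}
  have hσ : Function.Injective (Sum.elim e Subtype.val : P ⊕ J → ι) :=
    e.injective.sumElim Subtype.val_injective fun p j => j.2 p
  have hΦ := (measurePreserving_sumPiEquivProdPi (fun _ : P ⊕ J => μ)).comp
    (cov_reindex μ _ hσ)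
  let S : Set ((P → E) × (J → E)) := {q | q.1 ∈ χ ∧ ∀ j : J, (q.1, q.2 j) ∉ A j}
  have hS : MeasurableSet S := by
    refine (measurable_fst hχ).inter ?_
    show MeasurableSet {q : (P → E) × (J → E) | ∀ j : J, (q.1, q.2 j) ∉ A j}
    rw [Set.ofPred_forall]
    exact MeasurableSet.iInter fun j =>
      ((measurable_fst.prodMk ((measurable_pi_apply j).comp measurable_snd)) (hA j)).compl
  have h1 := hΦ.measure_preimage hS.nullMeasurableSet
  have h2 : {U : ι → E | (fun p => U (e p)) ∈ χ ∧
      ∀ i, (∀ p, e p ≠ i) → ((fun p => U (e p)), U i) ∉ A i} =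
      (MeasurableEquiv.sumPiEquivProdPi (fun _ : P ⊕ J => E) ∘
        fun (U : ι → E) (k : P ⊕ J) => U (Sum.elim e Subtype.val k)) ⁻¹' S := by
    ext U
    exact and_congr Iff.rfl ⟨fun h j => h j.1 j.2, fun h i hi => h ⟨i, hi⟩⟩
  rw [h2, measureReal_def, h1, Measure.prod_apply hS,
    ← integral_toReal (measurable_measure_prodMk_left hS).aemeasurable
      (ae_of_all _ fun y => measure_lt_top _ _), ← integral_indicator hχ]
  refine integral_congr_ae (ae_of_all _ fun y => ?_)
  by_cases hy : y ∈ χ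
  · have h3 : Prod.mk y ⁻¹' S = Set.univ.pi fun j : J => {w | (y, w) ∈ A j}ᶜ := by
      ext V
      exact ⟨fun h j _ => h.2 j, fun h => ⟨hy, fun j => h j trivial⟩⟩
    simp only
    rw [Set.indicator_of_mem hy, h3, Measure.pi_pi, ENNReal.toReal_prod,
      Finset.prod_subtype (p := fun i => ∀ p, e p ≠ i) (F := inferInstance) _ (by simp)]
    refine Finset.prod_congr rfl fun j _ => ?_
    exact probReal_compl_eq_one_sub (measurable_prodMk_left (hA j))
  · have h3 : Prod.mk y ⁻¹' S = ∅ := Set.eq_empty_of_forall_notMem fun V h => hy h.1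
    simp only
    rw [Set.indicator_of_notMem hy, h3, measure_empty, ENNReal.toReal_zero]

theorem prod_lab {P ι L : Type} [Fintype P] [Fintype ι] [Fintype L] (lab : ι → L) (lam : P → L)
    (e : P ↪ ι) (he : ∀ p, lab (e p) = lam p) (f : L → ℝ) :
    ∏ i ∈ Finset.univ.filter (fun i => ∀ p, e p ≠ i), f (lab i) =
      ∏ t, f t ^ ((Finset.univ.filter fun i => lab i = t).card -
        (Finset.univ.filter fun p => lam p = t).card) := by
  rw [← Finset.prod_fiberwise _ lab]
  refine Finset.prod_congr rfl fun t _ => ?_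
  rw [Finset.prod_congr rfl (g := fun _ => f t) fun i hi => by rw [(Finset.mem_filter.1 hi).2],
    Finset.prod_const]
  congr 1
  have hs : (Finset.univ.filter fun p => lam p = t).map e ⊆
      Finset.univ.filter fun i => lab i = t := by
    intro i hi
    obtain ⟨p, hp, rfl⟩ := Finset.mem_map.1 hi
    simpa [he] using hp
  rw [← Finset.card_map e, ← Finset.card_sdiff_of_subset hs]
  congr 1
  ext i
  simp only [Finset.mem_filter, Finset.mem_univ, true_and, Finset.mem_sdiff, Finset.mem_map,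
    not_exists, not_and]
  exact ⟨fun h => ⟨h.2, fun p _ => h.1 p⟩,
    fun h => ⟨fun p hp => h.2 p (by rw [← he, hp, h.1]) hp, h.1⟩⟩

theorem card_mecke {P ι L : Type} [Fintype P] [Fintype ι] [Fintype L] (lab : ι → L)
    (lam : P → L) : (Finset.univ.filter fun e : P ↪ ι => ∀ p, lab (e p) = lam p).card =
      ∏ t, ((Finset.univ.filter fun i => lab i = t).card).descFactorial
        (Finset.univ.filter fun p => lam p = t).card := by
  let Φ : {e : P ↪ ι // ∀ p, lab (e p) = lam p} ≃
      (∀ t, {p // lam p = t} ↪ {i // lab i = t}) :=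
    { toFun := fun e t => ⟨fun p => ⟨e.1 p.1, (e.2 p.1).trans p.2⟩,
        fun p q h => Subtype.ext (e.1.injective (congrArg Subtype.val h))⟩
      invFun := fun g => ⟨⟨fun p => (g (lam p) ⟨p, rfl⟩).1, fun p q h => by
          have h1 : lam q = lam p := by
            rw [← (g (lam p) ⟨p, rfl⟩).2, ← (g (lam q) ⟨q, rfl⟩).2]
            exact congrArg lab h.symm
          have h2 : ∀ t (hq : lam q = t), (g t ⟨q, hq⟩).1 = (g (lam q) ⟨q, rfl⟩).1 := by
            rintro _ rfl; rfl
          exact congrArg Subtype.val ((g (lam p)).injective (a₁ := ⟨p, rfl⟩) (a₂ := ⟨q, h1⟩)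
            (Subtype.ext (h.trans (h2 _ h1).symm)))⟩, fun p => (g (lam p) ⟨p, rfl⟩).2⟩
      left_inv := fun e => rfl
      right_inv := fun g => by
        funext t
        ext ⟨p, rfl⟩
        rfl }
  rw [← Fintype.card_subtype, Fintype.card_congr Φ, Fintype.card_pi]
  refine Finset.prod_congr rfl fun t _ => ?_
  rw [Fintype.card_embedding_eq, Fintype.card_subtype, Fintype.card_subtype]

theorem sub_mecke {N : ℕ → ℕ} {u : ℝ} (h : Tendsto (fun n : ℕ => (N n : ℝ) / n) atTop (𝓝 u))
    (hu : 0 < u) (i : ℕ) : Cv fun n : ℕ => ((N n - i : ℕ) : ℝ) / n := by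
  have h0 : Tendsto (fun n : ℕ => (i : ℝ) / n) atTop (𝓝 0) := tendsto_const_div_atTop_nhds_zero_nat _
  have h1 := h.sub h0
  refine ⟨u - 0, h1.congr' ?_⟩
  filter_upwards [h1.eventually (lt_mem_nhds (show 0 < u - 0 by linarith)),
    eventually_gt_atTop 0] with n h2 h3
  have h4 : (0 : ℝ) < n := by exact_mod_cast h3
  rw [← sub_div] at h2 ⊢
  have h5 : i ≤ N n := by
    have := (div_pos_iff_of_pos_right h4).1 h2
    exact_mod_cast (sub_pos.1 this).le
  rw [Nat.cast_sub h5]

theorem count_cv {P L : Type} [Fintype P] [Fintype L] (lam : P → L) (ι : ℕ → Type)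
    [∀ n, Fintype (ι n)] (lab : ∀ n, ι n → L) (u : L → ℝ)
    (hN : ∀ t, Tendsto (fun n : ℕ => ((Finset.univ.filter fun i => lab n i = t).card : ℝ) / n)
      atTop (𝓝 (u t))) (hu : ∀ t, 0 < u t) :
    Cv fun n : ℕ => ((Finset.univ.filter fun e : P ↪ ι n => ∀ p, lab n (e p) = lam p).card : ℝ) /
      (n : ℝ) ^ Fintype.card P := by
  have hP : Fintype.card P = ∑ t, (Finset.univ.filter fun p => lam p = t).card :=
    Finset.card_eq_sum_card_fiberwise fun _ _ => Finset.mem_univ _
  refine (Cv.prod Finset.univ fun t _ => Cv.prod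
    (Finset.range (Finset.univ.filter fun p => lam p = t).card) fun i _ =>
      sub_mecke (hN t) (hu t) i).congr (Eventually.of_forall fun n => ?_)
  rw [card_mecke, hP, ← Finset.prod_pow_eq_pow_sum, Nat.cast_prod, ← Finset.prod_div_distrib]
  refine Finset.prod_congr rfl fun t _ => ?_
  rw [Finset.prod_div_distrib, Finset.prod_const, Finset.card_range,
    Nat.descFactorial_eq_prod_range, Nat.cast_prod]

end Pool.Agent.Lib.MP_258d0c_pr.Lim
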