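import Pool.Agent.Lib.MP_258d0c_pr.Lim.Mecke

/-! Dominated convergence for one pattern of marked points. -/

open MeasureTheory ProbabilityTheory Filter Topology
open scoped ENNReal Classical InnerProductSpace

namespace Pool.Agent.Lib.MP_258d0c_pr.Lim

variable {E : Type} [NormedAddCommGroup E] [NormedSpace ℝ E] [MeasurableSpace E] [BorelSpace E]
  {vol : Measure E} [SigmaFinite vol] {x : E} {μ : ℕ → Measure E} {ρ : ℕ → E → ℝ} {R : E → ℝ}

omit [BorelSpace E] [SigmaFinite vol] in
theorem mass_slot (h : Loc vol x μ ρ R) {S : Set E} (hS : MeasurableSet S) :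
    Tendsto (fun n : ℕ => ENNReal.ofReal (n * (μ n).real S)) atTop
      (𝓝 (∫⁻ w in S, ENNReal.ofReal (R w) ∂vol)) := by
  have h1 : ∀ n, Measurable fun w => ENNReal.ofReal (ρ n w) := fun n => (h.meas n).ennreal_ofReal
  have h2 : Tendsto (fun n : ℕ => ∫⁻ w in S, ENNReal.ofReal (ρ n w) ∂vol) atTop
      (𝓝 (∫⁻ w in S, ENNReal.ofReal (R w) ∂vol)) := by
    refine tendsto_of_le_liminf_of_limsup_le (le_trans (le_of_eq ?_) (lintegral_liminf_le h1))
      (limsup_le_of_le (by isBoundedDefault) (h.le.mono fun n hn =>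
        lintegral_mono fun w => ENNReal.ofReal_le_ofReal (hn w)))
    exact lintegral_congr fun w => (ENNReal.tendsto_ofReal (h.lim w)).liminf_eq.symm
  refine h2.congr' ((h.dens.and (eventually_gt_atTop 0)).mono fun n ⟨⟨h3, h4⟩, hn⟩ => ?_)
  have h5 : (0 : ℝ) < n := by exact_mod_cast hn
  beta_reduce
  rw [ENNReal.ofReal_mul h5.le, ofReal_measureReal, h4, withDensity_apply _ hS,
    ← lintegral_const_mul _ ((h.meas n).div_const _).ennreal_ofReal]
  refine lintegral_congr fun w => ?_
  rw [← ENNReal.ofReal_mul h5.le, mul_div_cancel₀ _ h5.ne']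

theorem root_slot {P : Type} [Fintype P] {g c : ℝ} {r : P → ℝ} (h0 : 0 ≤ g) (h1 : g ≤ 1)
    (h : ∀ p, g ≤ Real.exp (-(c * r p))) :
    g ≤ ∏ p, Real.exp (-(c / (Fintype.card P + 1) * r p)) := by
  refine le_of_pow_le_pow_left₀ (n := Fintype.card P + 1) (by omega) (by positivity) ?_
  calc g ^ (Fintype.card P + 1) ≤ ∏ _p : P, g := by
        rw [Finset.prod_const, Finset.card_univ]
        exact pow_le_pow_of_le_one h0 h1 (by omega)
    _ ≤ ∏ p, Real.exp (-(c * r p)) := Finset.prod_le_prod (fun _ _ => h0) fun p _ => h p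
    _ = _ := by
        rw [← Finset.prod_pow]
        refine Finset.prod_congr rfl fun p _ => ?_
        rw [← Real.exp_nat_mul]
        congr 1
        push_cast
        field_simp

theorem slot_core (h : Loc vol x μ ρ R) {P L : Type} [Fintype P] [Fintype L]
    {χ : Set (P → E)} (hχ : MeasurableSet χ) (B : L → Set ((P → E) × E))
    (hB : ∀ t, MeasurableSet (B t))
    (hhalf : ∀ y ∈ χ, ∀ p, ∃ (t : L) (l : E →L[ℝ] ℝ),
      ∀ w, min (l x) (l (y p)) ≤ l w → (y, w) ∈ B t)
    (N : ℕ → L → ℕ) (u : L → ℝ) (hu : ∀ t, 0 < u t)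
    (hN : ∀ t, Tendsto (fun n : ℕ => (N n t : ℝ) / n) atTop (𝓝 (u t))) :
    Cv fun n : ℕ => (n : ℝ) ^ Fintype.card P *
      ∫ y in χ, ∏ t, (1 - (μ n).real {w | (y, w) ∈ B t}) ^ N n t ∂(iid P (μ n)) := by
  have hS : ∀ (y : P → E) t, MeasurableSet {w | (y, w) ∈ B t} := fun y t =>
    measurable_prodMk_left (hB t)
  obtain ⟨a, ha, hlow⟩ := h.low
  obtain ⟨u0, h1, h2⟩ := ((eventually_all.2 fun t => (eventually_lt_nhds (hu t)).filter_mono
    nhdsWithin_le_nhds).and (self_mem_nhdsWithin : ∀ᶠ z in 𝓝[>] (0 : ℝ), z ∈ Set.Ioi 0)).exists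
  replace h2 : 0 < u0 := h2
  have h3 : ∀ᶠ n : ℕ in atTop, ∀ t, u0 < (N n t : ℝ) / n :=
    eventually_all.2 fun t => (hN t).eventually (eventually_gt_nhds (h1 t))
  have hR : ∀ w, 0 ≤ R w := fun w => ge_of_tendsto' (h.lim w) fun n => h.nonneg n w
  let g : ℕ → (P → E) → ℝ := fun n y => ∏ t, (1 - (μ n).real {w | (y, w) ∈ B t}) ^ N n t
  refine Cv.congr (Cv.integral (Measure.pi fun _ : P => vol)
    (F := fun n => χ.indicator fun y => (∏ p, ρ n (y p)) * g n y)
    (b := fun y => ∏ p, R (y p) * Real.exp (-(u0 * a / (Fintype.card P + 1) * ‖y p‖)))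
    (h.dens.mono fun n hn => ?_) (Integrable.fintype_prod fun _ => h.int _ (by positivity))
    ?_ (Eventually.of_forall fun y => ?_)) ?_
  · have := hn.1
    exact (((Finset.measurable_prod _ fun p _ => (h.meas n).comp (measurable_pi_apply p)).mul
      (Finset.measurable_prod _ fun t _ => (measurable_const.sub
        (measurable_measure_prodMk_left (hB t)).ennreal_toReal).pow_const _)).indicator
          hχ).aestronglyMeasurable
  · filter_upwards [h.dens, h.le, hlow, h3, eventually_gt_atTop 0] with n hn h4 h5 h6 h7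
    have := hn.1
    have h8 : (0 : ℝ) < n := by exact_mod_cast h7
    refine Eventually.of_forall fun y => ?_
    have b0 : 0 ≤ ∏ p, R (y p) * Real.exp (-(u0 * a / (Fintype.card P + 1) * ‖y p‖)) :=
      Finset.prod_nonneg fun p _ => mul_nonneg (hR _) (Real.exp_pos _).le
    by_cases hy : y ∈ χ
    swap
    · simpa [hy] using b0
    by_cases h9 : ∃ p, ρ n (y p) = 0
    · obtain ⟨p, hp⟩ := h9
      simpa [hy, Finset.prod_eq_zero (Finset.mem_univ p) (f := fun p => ρ n (y p)) hp] using b0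
    push Not at h9
    have b1 : ∀ t, 0 ≤ 1 - (μ n).real {w | (y, w) ∈ B t} := fun t =>
      sub_nonneg.2 measureReal_le_one
    have b2 : ∀ t, (1 - (μ n).real {w | (y, w) ∈ B t}) ^ N n t ≤ 1 := fun t =>
      pow_le_one₀ (b1 t) (sub_le_self _ measureReal_nonneg)
    have b3 : 0 ≤ g n y := Finset.prod_nonneg fun t _ => pow_nonneg (b1 t) _
    have b4 : g n y ≤ 1 := Finset.prod_le_one (fun t _ => pow_nonneg (b1 t) _) fun t _ => b2 t
    have b5 : ∀ p, g n y ≤ Real.exp (-(u0 * a * ‖y p‖)) := fun p => by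
      obtain ⟨t, l, hl⟩ := hhalf y hy p
      have c1 : a * ‖y p‖ ≤ n * (μ n).real {w | (y, w) ∈ B t} := (h5 l _ (h9 p)).trans
        (mul_le_mul_of_nonneg_left (measureReal_mono fun w hw => hl w hw) h8.le)
      have c2 := (lt_div_iff₀ h8).1 (h6 t)
      calc g n y ≤ (1 - (μ n).real {w | (y, w) ∈ B t}) ^ N n t := by
            simp only [g]
            rw [← Finset.mul_prod_erase _ _ (Finset.mem_univ t)]
            exact mul_le_of_le_one_right (pow_nonneg (b1 t) _)
              (Finset.prod_le_one (fun t _ => pow_nonneg (b1 t) _) fun t _ => b2 t)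
        _ ≤ Real.exp (-(μ n).real {w | (y, w) ∈ B t}) ^ N n t :=
            pow_le_pow_left₀ (b1 t) (Real.one_sub_le_exp_neg _) _
        _ ≤ _ := by
            rw [← Real.exp_nat_mul, Real.exp_le_exp]
            have c3 : 0 ≤ (μ n).real {w | (y, w) ∈ B t} := measureReal_nonneg
            nlinarith [mul_le_mul_of_nonneg_left c1 h2.le, mul_le_mul_of_nonneg_right c2.le c3]
    have b6 : 0 ≤ ∏ p, ρ n (y p) := Finset.prod_nonneg fun p _ => h.nonneg _ _
    rw [Set.indicator_of_mem hy, abs_of_nonneg (mul_nonneg b6 b3), Finset.prod_mul_distrib]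
    exact mul_le_mul (Finset.prod_le_prod (fun p _ => h.nonneg _ _) fun p _ => h4 _)
      (root_slot b3 b4 b5) b3 (Finset.prod_nonneg fun p _ => hR _)
  · by_cases hy : y ∈ χ
    swap
    · simpa [hy] using Cv.const 0
    simp only [Set.indicator_of_mem hy]
    refine (Cv.prod _ fun p _ => ⟨_, h.lim (y p)⟩).mul (Cv.prod _ fun t _ =>
      Cv.pow (hu t) (h.dens.mono fun n hn => ?_) (mass_slot h (hS y t)) (hN t))
    have := hn.1
    exact ⟨measureReal_nonneg, measureReal_le_one⟩
  · filter_upwards [h.dens, eventually_gt_atTop 0] with n hn h7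
    have h8 : (0 : ℝ) < n := by exact_mod_cast h7
    have b1 : iid P (μ n) = (Measure.pi fun _ : P => vol).withDensity
        fun y => ENNReal.ofReal (∏ p, ρ n (y p) / n) := by
      rw [← pi_withDensity (fun _ : P => vol) (fun _ w => ρ n w / n)
        (fun _ => (h.meas n).div_const _) fun _ w => div_nonneg (h.nonneg _ _) h8.le, ← hn.2]
    have b2 : Measurable fun y : P → E => ENNReal.ofReal (∏ p, ρ n (y p) / n) :=
      (Finset.measurable_prod _ fun p _ => ((h.meas n).comp
        (measurable_pi_apply p)).div_const _).ennreal_ofReal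
    rw [b1, ← integral_indicator hχ, integral_withDensity_eq_integral_toReal_smul b2 (by simp),
      ← integral_const_mul]
    refine integral_congr_ae (Eventually.of_forall fun y => ?_)
    by_cases hy : y ∈ χ
    swap
    · simp [hy]
    simp only [Set.indicator_of_mem hy, smul_eq_mul, g]
    rw [ENNReal.toReal_ofReal (Finset.prod_nonneg fun p _ => div_nonneg (h.nonneg _ _) h8.le),
      Finset.prod_div_distrib, Finset.prod_const, Finset.card_univ]
    field_simp

theorem slot_cv (h : Loc vol x μ ρ R) {P L : Type} [Fintype P] [Fintype L] (lam : P → L)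
    {χ : Set (P → E)} (hχ : MeasurableSet χ) (B : L → Set ((P → E) × E))
    (hB : ∀ t, MeasurableSet (B t))
    (hhalf : ∀ y ∈ χ, ∀ p, ∃ (t : L) (l : E →L[ℝ] ℝ),
      ∀ w, min (l x) (l (y p)) ≤ l w → (y, w) ∈ B t)
    (ι : ℕ → Type) [∀ n, Fintype (ι n)] (lab : ∀ n, ι n → L) (u : L → ℝ) (hu : ∀ t, 0 < u t)
    (hN : ∀ t, Tendsto (fun n : ℕ => ((Finset.univ.filter fun i => lab n i = t).card : ℝ) / n)
      atTop (𝓝 (u t))) :
    Cv fun n : ℕ => ∑ e : P ↪ ι n, if ∀ p, lab n (e p) = lam p then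
      (iid (ι n) (μ n)).real {U | (fun p => U (e p)) ∈ χ ∧
        ∀ i, (∀ p, e p ≠ i) → ((fun p => U (e p)), U i) ∉ B (lab n i)} else 0 := by
  let N : ℕ → L → ℕ := fun n t => (Finset.univ.filter fun i => lab n i = t).card -
    (Finset.univ.filter fun p => lam p = t).card
  have h1 : ∀ t, Tendsto (fun n : ℕ => (N n t : ℝ) / n) atTop (𝓝 (u t)) := fun t => by
    have h2 := (hN t).sub (tendsto_const_div_atTop_nhds_zero_nat
      ((Finset.univ.filter fun p => lam p = t).card : ℝ))
    rw [sub_zero] at h2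
    refine tendsto_of_tendsto_of_tendsto_of_le_of_le h2 (hN t) (fun n => ?_) fun n => ?_
    · simp only [← sub_div, N]
      refine div_le_div_of_nonneg_right ?_ (Nat.cast_nonneg n)
      rw [sub_le_iff_le_add]
      exact_mod_cast le_tsub_add
    · exact div_le_div_of_nonneg_right (Nat.cast_le.2 (Nat.sub_le _ _)) (Nat.cast_nonneg n)
  refine ((count_cv lam ι lab u hN hu).mul (slot_core h hχ B hB hhalf N u hu h1)).congr ?_
  filter_upwards [h.dens, eventually_gt_atTop 0] with n hn h7
  have := hn.1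
  have h8 : (0 : ℝ) < n := by exact_mod_cast h7
  rw [← Finset.sum_filter, Finset.sum_congr rfl (g := fun _ =>
    ∫ y in χ, ∏ t, (1 - (μ n).real {w | (y, w) ∈ B t}) ^ N n t ∂(iid P (μ n))) fun e he => by
      rw [mecke (μ n) e hχ (fun i => B (lab n i)) fun i => hB _]
      exact integral_congr_ae (Eventually.of_forall fun y => prod_lab (lab n) lam e
        (Finset.mem_filter.1 he).2 fun t => 1 - (μ n).real {w | (y, w) ∈ B t}),
    Finset.sum_const, nsmul_eq_mul]
  field_simp

end Pool.Agent.Lib.MP_258d0c_pr.Lim
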