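import Pool.Agent.Lib.MP_258d0c_pr.Lim.Cv

/-! The variance as a sum of one-point terms, up to a small error. -/

open MeasureTheory ProbabilityTheory Filter Topology
open scoped ENNReal Classical InnerProductSpace

namespace Pool.Agent.Lib.MP_258d0c_pr.Lim

variable {E : Type} [NormedAddCommGroup E] [NormedSpace ℝ E] [FiniteDimensional ℝ E]
  [MeasurableSpace E] [BorelSpace E] {μ : Measure E} [IsProbabilityMeasure μ]

omit [FiniteDimensional ℝ E] [MeasurableSpace E] [BorelSpace E] in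
theorem abs_dif_split {ι : Type} [Fintype ι] [DecidableEq ι] (D : ℕ) (U : ι → E) (S : Finset ι)
    (p : ι) : |dif D U S p| ≤ 2 ^ Fintype.card ι := by
  have h : ∀ S : Finset ι, (cnt D U S : ℝ) ≤ 2 ^ Fintype.card ι := fun S => by
    have h1 : cnt D U S ≤ 2 ^ Fintype.card ι := (cnt_le D U S).trans
      (Nat.pow_le_pow_right two_pos S.card_le_univ)
    exact_mod_cast h1
  have h1 := h (insert p S)
  have h2 := h S
  have h3 : (0 : ℝ) ≤ cnt D U (insert p S) := Nat.cast_nonneg _
  have h4 : (0 : ℝ) ≤ cnt D U S := Nat.cast_nonneg _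
  rw [dif, abs_le]
  constructor <;> linarith

theorem bm_dif_split {ι : Type} [Fintype ι] [DecidableEq ι] (D : ℕ) (S : Finset ι) (p : ι) :
    CovBM fun U : ι → E => dif D U S p :=
  ⟨(vt_measurable_cnt D _).sub (vt_measurable_cnt D _), _, fun U => abs_dif_split D U S p⟩

theorem bm_upd_split {ι : Type} [Fintype ι] [DecidableEq ι] (D : ℕ) (S T : Finset ι) (p : ι) :
    CovBM fun q : (ι → E) × E =>
      dif D (Function.update q.1 p q.2) S p * dif D (Function.update q.1 p q.2) T p :=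
  ((bm_dif_split D S p).mul (bm_dif_split D T p)).comp
    (T := fun q : (ι → E) × E => Function.update q.1 p q.2) (by fun_prop)

theorem measurable_bj (μ : Measure E) [IsProbabilityMeasure μ] (D n j : ℕ) :
    Measurable (bj μ D n j) := by
  unfold bj
  by_cases h : j < n
  · simp only [h, dite_true]
    exact ((bm_upd_split D _ _ _).1.stronglyMeasurable.integral_prod_left').measurable
  · simp only [h, dite_false]
    exact measurable_const

theorem abs_bj_le (μ : Measure E) [IsProbabilityMeasure μ] (D n j : ℕ) (x : E) :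
    |bj μ D n j x| ≤ 2 ^ (n + n) * 2 ^ (n + n) := by
  have h0 : ∀ (U : Fin n ⊕ Fin n → E) S p, |dif D U S p| ≤ 2 ^ (n + n) := fun U S p => by
    simpa using abs_dif_split D U S p
  unfold bj
  split_ifs with h
  · have h1 := norm_integral_le_of_norm_le_const (μ := iid (Fin n ⊕ Fin n) μ)
      (C := 2 ^ (n + n) * 2 ^ (n + n))
      (f := fun U => dif D (Function.update U (Sum.inl ⟨j, h⟩) x) (vtBase ⟨j, h⟩ false)
        (Sum.inl ⟨j, h⟩) * dif D (Function.update U (Sum.inl ⟨j, h⟩) x) (vtBase ⟨j, h⟩ true)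
        (Sum.inl ⟨j, h⟩)) (ae_of_all _ fun U => by
          rw [Real.norm_eq_abs, abs_mul]
          exact mul_le_mul (h0 _ _ _) (h0 _ _ _) (abs_nonneg _) (by positivity))
    simpa [Gf] using h1
  · rw [abs_zero]
    positivity

omit [IsProbabilityMeasure μ] in
theorem cs_split {ι : Type} [Fintype ι] (D : ℕ) (S T : Finset ι) (x y : E) :
    (∫⁻ U, Ind U S x x * Ind U T y y * (Mx D U S x * Mx D U T y) ∂(iid ι μ)) ^ 4 ≤
      iid ι μ {U | Vis U S x x} * iid ι μ {U | Vis U T y y} *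
        ((∫⁻ U, Mx D U S x ^ 8 ∂(iid ι μ)) * ∫⁻ U, Mx D U T y ^ 8 ∂(iid ι μ)) := by
  refine (vt_cs4 _ (measurable_Ind S measurable_id measurable_const measurable_const)
    (measurable_Ind T measurable_id measurable_const measurable_const)
    (measurable_Mx D S measurable_id measurable_const)
    (measurable_Mx D T measurable_id measurable_const)).trans ?_
  simp only [id, Ind_pow _ _ _ _ 3, lintegral_Ind]
  exact mul_le_mul' le_rfl (mul_le_mul'
    (lintegral_mono fun U => pow_le_pow_right₀ (one_le_Mx _ _ _ _) (by norm_num))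
    (lintegral_mono fun U => pow_le_pow_right₀ (one_le_Mx _ _ _ _) (by norm_num)))

theorem ofReal_abs_integral_split {Ω : Type} [MeasurableSpace Ω] (P : Measure Ω) (f : Ω → ℝ) :
    ENNReal.ofReal |∫ a, f a ∂P| ≤ ∫⁻ a, ENNReal.ofReal |f a| ∂P := by
  simpa only [Real.enorm_eq_ofReal_abs] using enorm_integral_le_lintegral_enorm (μ := P) f

omit [FiniteDimensional ℝ E] [MeasurableSpace E] [BorelSpace E] in
theorem ofReal_mul_split {D : ℕ} (hD : 1 ≤ D) {ι : Type} [DecidableEq ι] {S T : Finset ι}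
    {p q : ι} (hS : D < S.card) (hT : D < T.card) (hp : p ∉ S) (hq : q ∉ T) (U : ι → E) :
    ENNReal.ofReal |dif D U S p * dif D U T q| ≤
      Ind U S (U p) (U p) * Ind U T (U q) (U q) * (Mx D U S (U p) * Mx D U T (U q)) := by
  rw [abs_mul, ENNReal.ofReal_mul (abs_nonneg _), mul_mul_mul_comm]
  exact mul_le_mul' (ofReal_diff_le hD U (S0 := S) le_rfl (by simp) hS hp)
    (ofReal_diff_le hD U (S0 := T) le_rfl (by simp) hT hq)

theorem Gf_le {D : ℕ} (hD : 1 ≤ D) {ι : Type} [Fintype ι] [DecidableEq ι] {S T : Finset ι}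
    {p : ι} (hS : D < S.card) (hT : D < T.card) (hpS : p ∉ S) (hpT : p ∉ T) {x : E}
    {K w : ℝ≥0∞} (hw : 1 ≤ w) (h1 : iid ι μ {U | Vis U S x x} ≤ K ^ 4)
    (h2 : ∫⁻ U, ((vis U S x : ℝ≥0∞) + 3) ^ (8 * D) ∂(iid ι μ) ≤ w)
    (h3 : ∫⁻ U, ((vis U T x : ℝ≥0∞) + 3) ^ (8 * D) ∂(iid ι μ) ≤ w) :
    ENNReal.ofReal |Gf μ D S T p x| ≤ K * w := by
  have e : ∀ S : Finset ι, ∫⁻ U, Mx D U S x ^ 8 ∂(iid ι μ) =
      ∫⁻ U, ((vis U S x : ℝ≥0∞) + 3) ^ (8 * D) ∂(iid ι μ) := fun S =>
    lintegral_congr fun U => by rw [Mx, ← pow_mul, mul_comm]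
  refine (ofReal_abs_integral_split _ _).trans (le_trans (lintegral_mono fun U =>
    (ofReal_mul_split hD hS hT hpS hpT _).trans (le_of_eq
      (b := Ind U S x x * Ind U T x x * (Mx D U S x * Mx D U T x)) ?_)) ?_)
  · rw [Function.update_self, Ind_update U hpS, Ind_update U hpT, Mx_update D U hpS,
      Mx_update D U hpT]
  · rw [← ENNReal.pow_le_pow_left_iff four_ne_zero]
    refine (cs_split D S T x x).trans ?_
    rw [e, e]
    calc _ ≤ K ^ 4 * 1 * (w * w) := mul_le_mul' (mul_le_mul' h1 prob_le_one) (mul_le_mul' h2 h3)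
      _ = K ^ 4 * w ^ 2 := by ring
      _ ≤ K ^ 4 * w ^ 4 := mul_le_mul' le_rfl (pow_le_pow_right₀ hw (by norm_num))
      _ = _ := by ring

theorem cross_split {D n : ℕ} {Z : Set E} {K : E → E → ℝ≥0∞} {w : E → ℝ≥0∞} {A B : ℝ}
    (h : Bounds μ D n Z K w A B) (hD : 1 ≤ D) (hn : 1 ≤ n) {ι : Type} [Fintype ι] [DecidableEq ι]
    {S T : Finset ι} {p q : ι} (hpq : p ≠ q) (hS : D < S.card) (hT : D < T.card)
    (hS' : n ≤ 2 * S.card) (hT' : n ≤ 2 * T.card) (hpS : p ∉ S) (hpT : p ∉ T) (hqS : q ∉ S)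
    (hqT : q ∉ T) : |∫ U, dif D U S p * dif D U T q ∂(iid ι μ)| ≤ (B / n) ^ 2 := by
  have hB : 0 ≤ B / n := div_nonneg h.nonneg_B (Nat.cast_nonneg _)
  rw [← ENNReal.ofReal_le_ofReal_iff (by positivity), ENNReal.ofReal_pow hB]
  refine (ofReal_abs_integral_split _ _).trans
    ((lintegral_mono fun U => ofReal_mul_split hD hS hT hpS hqT U).trans ?_)
  rw [vt_cond2 μ hpq (fun U z x => Ind U S z z * Ind U T x x * (Mx D U S z * Mx D U T x))
    (((measurable_Ind S measurable_fst (by fun_prop) (by fun_prop)).mul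
      (measurable_Ind T measurable_fst (by fun_prop) (by fun_prop))).mul
      ((measurable_Mx D S measurable_fst (by fun_prop)).mul
        (measurable_Mx D T measurable_fst (by fun_prop))))
    (fun U v z x => by
      rw [Ind_update U hpS, Ind_update U hpT, Mx_update D U hpS, Mx_update D U hpT])
    (fun U v z x => by
      rw [Ind_update U hqS, Ind_update U hqT, Mx_update D U hqS, Mx_update D U hqT])]
  have hm : Measurable fun x => K x x * w x :=
    (h.measK.comp (measurable_id.prodMk measurable_id)).mul h.measw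
  refine le_trans ?_ (ENNReal.pow_le_pow_left (vt_div hn h.int1))
  rw [sq, ← lintegral_mul_const _ hm]
  refine lintegral_mono_ae ?_
  filter_upwards [h.ae] with z hz
  rw [← lintegral_const_mul _ hm]
  refine lintegral_mono_ae ?_
  filter_upwards [h.ae] with x hx
  rw [← ENNReal.pow_le_pow_left_iff four_ne_zero]
  refine (cs_split D S T z x).trans ?_
  have hz1 := h.one_le_w z
  have hx1 := h.one_le_w x
  calc _ ≤ K z z ^ 4 * K x x ^ 4 * (w z * w x) :=
        mul_le_mul' (mul_le_mul' (h.tail ι S hS' z hz z hz) (h.tail ι T hT' x hx x hx))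
          (mul_le_mul' (h.mom8 S hS' hz) (h.mom8 T hT' hx))
    _ ≤ K z z ^ 4 * K x x ^ 4 * (w z ^ 4 * w x ^ 4) :=
        mul_le_mul' le_rfl (mul_le_mul' (le_self_pow₀ hz1 four_ne_zero)
          (le_self_pow₀ hx1 four_ne_zero))
    _ = _ := by ring

theorem diag_split {ι : Type} [Fintype ι] [DecidableEq ι] (D : ℕ) (S T : Finset ι) (p : ι) :
    ∫ U, dif D U S p * dif D U T p ∂(iid ι μ) = ∫ x, Gf μ D S T p x ∂μ := by
  rw [← cov_integral_comp (measurePreserving_update μ p)
    ((bm_dif_split D S p).mul (bm_dif_split D T p)).1,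
    integral_prod_symm _ ((bm_upd_split D S T p).integrable _)]
  rfl

omit [FiniteDimensional ℝ E] [MeasurableSpace E] [BorelSpace E] in
theorem dif_swap_split {ι : Type} [DecidableEq ι] (D : ℕ) (U : ι → E) {S : Finset ι} {p q : ι}
    (hp : p ∉ S) (hq : q ∉ S) :
    dif D (fun k => U (Equiv.swap p q k)) S p = dif D U S q := by
  have h1 : S.map (Equiv.swap p q).toEmbedding = S := by
    rw [Finset.map_eq_image]
    refine (Finset.image_congr (g := id) fun i hi => ?_).trans Finset.image_id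
    exact Equiv.swap_apply_of_ne_of_ne (by rintro rfl; exact hp hi) (by rintro rfl; exact hq hi)
  have h2 := cnt_map D U (Equiv.swap p q).toEmbedding S
  have h3 := cnt_map D U (Equiv.swap p q).toEmbedding (insert p S)
  rw [Finset.map_insert, h1, Equiv.toEmbedding_apply, Equiv.swap_apply_left] at h3
  rw [h1] at h2
  unfold dif
  rw [← h2, ← h3]
  rfl

theorem swap_split {ι : Type} [Fintype ι] [DecidableEq ι] (D : ℕ) {S T : Finset ι} {p q : ι}
    (hpS : p ∉ S) (hpT : p ∉ T) (hqS : q ∉ S) (hqT : q ∉ T) :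
    ∫ U, dif D U S q * dif D U T q ∂(iid ι μ) = ∫ U, dif D U S p * dif D U T p ∂(iid ι μ) := by
  rw [← cov_integral_comp (cov_reindex μ _ (Equiv.swap p q).injective)
    ((bm_dif_split D S p).mul (bm_dif_split D T p)).1]
  simp only [dif_swap_split D _ hpS hqS, dif_swap_split D _ hpT hqT]

theorem var_split {D n : ℕ} {Z : Set E} {K : E → E → ℝ≥0∞} {w : E → ℝ≥0∞} {A B : ℝ}
    (h : Bounds μ D n Z K w A B) (hD : 1 ≤ D) (hn : D + 6 ≤ n) :
    |Var[fun X : Fin n → E => (cnt D X Finset.univ : ℝ); iid (Fin n) μ] -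
      ∑ j ∈ Finset.range n, ∫ x, bj μ D n j x ∂μ| ≤ B ^ 2 / n := by
  have hn' : (0 : ℝ) < n := by exact_mod_cast (by omega : 0 < n)
  have hg : CovBM fun X : Fin n → E => (cnt D X Finset.univ : ℝ) :=
    ⟨vt_measurable_cnt D _, 2 ^ n, fun U => by
      change |(cnt D U Finset.univ : ℝ)| ≤ _
      rw [abs_of_nonneg (Nat.cast_nonneg _)]
      have h1 : cnt D U Finset.univ ≤ 2 ^ n := by simpa using cnt_le D U Finset.univ
      exact_mod_cast h1⟩
  rw [cov_var_eq μ hg, ← Fin.sum_univ_eq_sum_range (fun j => ∫ x, bj μ D n j x ∂μ) n,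
    Finset.mul_sum, ← Finset.sum_sub_distrib]
  refine (Finset.abs_sum_le_sum_abs _ _).trans
    ((Finset.sum_le_card_nsmul _ _ ((B / n) ^ 2) fun j _ => ?_).trans (le_of_eq ?_))
  swap
  · rw [Finset.card_univ, Fintype.card_fin, nsmul_eq_mul]
    field_simp
  have hp : ∀ b, (Sum.inl j : Fin n ⊕ Fin n) ∉ vtBase j b := vtPt_notMem j false
  have hq : ∀ b, (Sum.inr j : Fin n ⊕ Fin n) ∉ vtBase j b := vtPt_notMem j true
  have hc : ∀ b, D < (vtBase j b).card := fun b => by rw [card_vtBase]; omega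
  have hc' : ∀ b, n ≤ 2 * (vtBase j b).card := fun b => by rw [card_vtBase]; omega
  have hv : ∀ (U : Fin n ⊕ Fin n → E) (S : Finset (Fin n ⊕ Fin n)),
      vtD D U j S = dif D U S (Sum.inl j) - dif D U S (Sum.inr j) := fun U S => by
    simp only [vtD, dif, vtPt, Bool.false_eq_true, if_false, if_true]
    ring
  have hi : ∀ p q : Fin n ⊕ Fin n, CovBM fun U : Fin n ⊕ Fin n → E =>
      dif D U (vtBase j false) p * dif D U (vtBase j true) q := fun p q =>
    (bm_dif_split D _ p).mul (bm_dif_split D _ q)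
  have e1 : ∫ U, dA (fun X : Fin n → E => (cnt D X Finset.univ : ℝ)) j U *
      dB (fun X : Fin n → E => (cnt D X Finset.univ : ℝ)) j U ∂(iid (Fin n ⊕ Fin n) μ) =
      (∫ U, dif D U (vtBase j false) (Sum.inl j) * dif D U (vtBase j true) (Sum.inl j)
          ∂(iid (Fin n ⊕ Fin n) μ) +
        ∫ U, dif D U (vtBase j false) (Sum.inr j) * dif D U (vtBase j true) (Sum.inr j)
          ∂(iid (Fin n ⊕ Fin n) μ)) -
      (∫ U, dif D U (vtBase j false) (Sum.inl j) * dif D U (vtBase j true) (Sum.inr j)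
          ∂(iid (Fin n ⊕ Fin n) μ) +
        ∫ U, dif D U (vtBase j false) (Sum.inr j) * dif D U (vtBase j true) (Sum.inl j)
          ∂(iid (Fin n ⊕ Fin n) μ)) := by
    rw [← integral_add ((hi _ _).integrable _) ((hi _ _).integrable _),
      ← integral_add ((hi _ _).integrable _) ((hi _ _).integrable _),
      ← integral_sub (((hi _ _).add (hi _ _)).integrable _) (((hi _ _).add (hi _ _)).integrable _)]
    refine integral_congr_ae (ae_of_all _ fun U => ?_)
    simp only [dA_eq, dB_eq, hv]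
    ring
  have e2 : ∫ x, bj μ D n j x ∂μ =
      ∫ U, dif D U (vtBase j false) (Sum.inl j) * dif D U (vtBase j true) (Sum.inl j)
        ∂(iid (Fin n ⊕ Fin n) μ) := by
    rw [diag_split]
    simp only [bj, j.2, dite_true, Fin.eta]
  have c1 := abs_le.1 (cross_split h hD (by omega) (p := Sum.inl j) (q := Sum.inr j)
    Sum.inl_ne_inr (hc false) (hc true) (hc' _) (hc' _) (hp _) (hp _) (hq _) (hq _))
  have c2 := abs_le.1 (cross_split h hD (by omega) (p := Sum.inr j) (q := Sum.inl j)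
    Sum.inr_ne_inl (hc false) (hc true) (hc' _) (hc' _) (hq _) (hq _) (hp _) (hp _))
  rw [e1, e2, swap_split D (hp false) (hp true) (hq false) (hq true), abs_le]
  constructor <;> linarith [c1.1, c1.2, c2.1, c2.2]

end Pool.Agent.Lib.MP_258d0c_pr.Lim
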